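import Mathlib

set_option autoImplicit false
open Complex Real

/-!
# Project DI (MP_c7f82c_an): doubling indices of eigenfunctions on rotationally symmetric tori

Definitions and exact statements of the independent pieces. See NOTES.md.
-/
namespace Pool.Agent.R267.DI

/-- Exponential sum `∑_{|m| ≤ M} c_m exp (i κ m w)` in a complex variable `w`. -/
noncomputable def esum (κ : ℝ) (M : ℕ) (c : ℤ → ℂ) (w : ℂ) : ℂ :=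
  ∑ m ∈ Finset.Icc (-(M : ℤ)) (M : ℤ), c m * Complex.exp (Complex.I * ((κ * m : ℝ) : ℂ) * w)

/-- The `m`-th Fourier coefficient in `y` (period `b`) of `φ x y`. -/
noncomputable def fc (b : ℝ) (φ : ℝ → ℝ → ℝ) (m : ℤ) (x : ℝ) : ℂ :=
  ((1 / b : ℝ) : ℂ) * ∫ y in (0 : ℝ)..b, (φ x y : ℂ) *
    Complex.exp (-(Complex.I * ((2 * π / b * m : ℝ) : ℂ) * (y : ℂ)))

/-- Length of a curve for the metric `ρ(x) (dx² + dy²)`. -/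
noncomputable def len (ρ : ℝ → ℝ) (γ : ℝ → ℝ × ℝ) : ℝ :=
  ∫ t in (0 : ℝ)..1, Real.sqrt (ρ (γ t).1) * Real.sqrt ((deriv γ t).1 ^ 2 + (deriv γ t).2 ^ 2)

/-- Geodesic distance between the classes of `p` and `q` on the torus
`ℝ² / (ℤ (a, s) + ℤ (0, b))` with the metric `ρ(x) (dx² + dy²)`: the infimum of the lengths of the
`C¹` curves in the plane from `p` to a point of the class of `q`. -/
noncomputable def gdist (ρ : ℝ → ℝ) (a b s : ℝ) (p q : ℝ × ℝ) : ℝ :=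
  sInf {L : ℝ | ∃ γ : ℝ → ℝ × ℝ, ContDiff ℝ 1 γ ∧ γ 0 = p ∧
    (∃ m n : ℤ, γ 1 = (q.1 + m * a, q.2 + m * s + n * b)) ∧ L = len ρ γ}

/-- (DI-FOU) Fourier decomposition in `y` of an eigenfunction. -/
def S_FOU : Prop := ∀ (ρ : ℝ → ℝ) (a b s lam ρ1 : ℝ) (φ : ℝ → ℝ → ℝ) (M : ℕ),
  Continuous ρ → 0 < a → 0 < b → 0 < lam → (∀ x, ρ x ≤ ρ1) → (∀ x, ρ (x + a) = ρ x) →
  ContDiff ℝ 2 (fun p : ℝ × ℝ => φ p.1 p.2) →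
  (∀ x y, φ x (y + b) = φ x y) → (∀ x y, φ (x + a) (y + s) = φ x y) →
  (∀ x y, deriv (deriv (fun t => φ t y)) x + deriv (deriv (fun t => φ x t)) y
    + lam * ρ x * φ x y = 0) →
  (∀ m : ℤ, (M : ℤ) < |m| → lam * ρ1 < (2 * π / b * m) ^ 2) →
  ∃ u' : ℤ → ℝ → ℂ,
    (∀ m x, HasDerivAt (fc b φ m) (u' m x) x) ∧
    (∀ m x, HasDerivAt (u' m) ((((2 * π / b * m) ^ 2 - lam * ρ x : ℝ) : ℂ) * fc b φ m x) x) ∧
    (∀ x y : ℝ, (φ x y : ℂ) = esum (2 * π / b) M (fun m => fc b φ m x) (y : ℂ)) ∧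
    (∀ x y : ℝ, ((deriv (fun t => φ t y) x : ℝ) : ℂ) = esum (2 * π / b) M (fun m => u' m x) (y : ℂ))

/-- (DI-CK) Growth of the solutions in a real cone from complex discs on one slice. -/
def S_CK : Prop := ∀ (κ Q : ℝ) (M : ℕ) (q : ℝ → ℝ) (u u' : ℤ → ℝ → ℂ),
  0 < Q → Continuous q → (∀ x, |q x| ≤ Q) →
  (∀ m x, HasDerivAt (u m) (u' m x) x) →
  (∀ m x, HasDerivAt (u' m) ((((κ * m) ^ 2 - q x : ℝ) : ℂ) * u m x) x) →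
  ∀ (x0 y0 R K0 K1 : ℝ),
  (∀ w : ℂ, ‖w - (y0 : ℂ)‖ ≤ R → ‖esum κ M (fun m => u m x0) w‖ ≤ K0) →
  (∀ w : ℂ, ‖w - (y0 : ℂ)‖ ≤ R → ‖esum κ M (fun m => u' m x0) w‖ ≤ K1) →
  ∀ x y : ℝ, |x - x0| + |y - y0| ≤ R →
    ‖esum κ M (fun m => u m x) (y : ℂ)‖ ≤ 2 * Real.exp (Real.sqrt (2 * Q) * |x - x0|) * (K0 + R * K1)

/-- (DI-GRAD) Interior gradient estimate for the Laplacian on a square (maximum principle). -/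
def S_GRAD : Prop := ∀ (φ : ℝ → ℝ → ℝ) (S F d x0 y0 : ℝ), 0 < d → 0 ≤ S → 0 ≤ F →
  ContDiff ℝ 2 (fun p : ℝ × ℝ => φ p.1 p.2) →
  (∀ x y, |x - x0| ≤ d → |y - y0| ≤ d → |φ x y| ≤ S) →
  (∀ x y, |x - x0| ≤ d → |y - y0| ≤ d →
    |deriv (deriv (fun t => φ t y)) x + deriv (deriv (fun t => φ x t)) y| ≤ F) →
  |deriv (fun t => φ t y0) x0| ≤ 2 * S / d + F * d / 2

/-- (DI-ROOT) One linear factor: upper bound on a complex disc and lower bound of the average of the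
logarithm over a real arc. -/
def S_ROOT : Prop := ∀ c0 c1 : ℝ, 0 < c0 → 0 < c1 → ∃ A1 A2 : ℝ, 0 < A1 ∧ 0 ≤ A2 ∧
  ∀ (η θ0 : ℝ) (z : ℂ), 0 < η → η ≤ c0 →
    (∀ w : ℂ, ‖w - (θ0 : ℂ)‖ ≤ c1 * η →
      ‖Complex.exp (Complex.I * w) - z‖ ≤ ‖Complex.exp (Complex.I * (θ0 : ℂ)) - z‖ + A1 * η) ∧
    ∃ l : ℝ → ℝ,
      IntervalIntegrable l MeasureTheory.volume (θ0 - η / (1 + c0)) (θ0 + η / (1 + c0)) ∧
      (∀ θ : ℝ, |θ - θ0| ≤ η / (1 + c0) → Complex.exp (Complex.I * (θ : ℂ)) ≠ z →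
        l θ ≤ Real.log ‖Complex.exp (Complex.I * (θ : ℂ)) - z‖) ∧
      2 * (η / (1 + c0)) * (Real.log (‖Complex.exp (Complex.I * (θ0 : ℂ)) - z‖ + A1 * η)
          - A2 * (η / (‖Complex.exp (Complex.I * (θ0 : ℂ)) - z‖ + η)))
        ≤ ∫ θ in (θ0 - η / (1 + c0))..(θ0 + η / (1 + c0)), l θ

/-- (DI-SUM) Harmonic sum over the roots of unity. -/
def S_SUM : Prop := ∃ A : ℝ, 0 ≤ A ∧ ∀ (n : ℕ) (η : ℝ) (z : ℂ), 0 < n → 0 < η → 2 * π ≤ n * η →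
  ∑ j ∈ Finset.range n,
      η / (‖Complex.exp (Complex.I * ((2 * π * j / n : ℝ) : ℂ)) - z‖ + η)
    ≤ A * (n * η) * Real.log (2 + n)

/-- (DI-TRIG) Doubling of a trigonometric polynomial at the scale of its degree, on average. -/
def S_TRIG : Prop := ∀ c0 c1 : ℝ, 0 < c0 → 0 < c1 → ∃ A : ℝ, 0 ≤ A ∧
  ∀ (M n : ℕ) (η : ℝ), 0 < n → 0 < η → η ≤ c0 → M * η ≤ c0 → 2 * π ≤ n * η →
  ∀ c : ℤ → ℂ, (∃ m ∈ Finset.Icc (-(M : ℤ)) (M : ℤ), c m ≠ 0) →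
  ∃ J : ℕ → ℝ, (∀ j, 0 ≤ J j) ∧
    (∀ j, j < n → ∀ w : ℂ, ‖w - ((2 * π * j / n : ℝ) : ℂ)‖ ≤ c1 * η →
      ∃ θ : ℝ, |θ - 2 * π * j / n| ≤ η ∧
        ‖esum 1 M c w‖ ≤ Real.exp (J j) * ‖esum 1 M c (θ : ℂ)‖) ∧
    ∑ j ∈ Finset.range n, J j ≤ A * n * Real.log (2 + n)

/-- (DI-GEO) Comparison of the geodesic distance with the Euclidean one. -/
def S_GEO : Prop := ∀ (ρ : ℝ → ℝ) (a b s ρ0 ρ1 : ℝ), Continuous ρ → 0 < ρ0 →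
  (∀ x, ρ0 ≤ ρ x) → (∀ x, ρ x ≤ ρ1) →
  (∀ (p q : ℝ × ℝ) (r : ℝ), gdist ρ a b s p q < r →
    ∃ m n : ℤ, Real.sqrt ((p.1 - (q.1 + m * a)) ^ 2 + (p.2 - (q.2 + m * s + n * b)) ^ 2)
      < r / Real.sqrt ρ0) ∧
  (∀ (p q : ℝ × ℝ) (r : ℝ) (m n : ℤ),
    Real.sqrt ((p.1 - (q.1 + m * a)) ^ 2 + (p.2 - (q.2 + m * s + n * b)) ^ 2)
      < r / Real.sqrt ρ1 → gdist ρ a b s p q < r)

/-- (DI-TUR) Turán type lemma: few bounded frequencies, complex disc against the real interval. -/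
def S_TUR : Prop := ∀ (K : ℕ) (c0 c1 : ℝ), 0 < c0 → 0 < c1 → ∃ A : ℝ, 1 ≤ A ∧
  ∀ (T : Finset ℝ) (c : ℝ → ℂ), T.card ≤ K → (∀ μ ∈ T, |μ| ≤ c0) →
  ∀ w : ℂ, ‖w‖ ≤ c1 → ∃ t : ℝ, |t| ≤ 1 ∧
    ‖∑ μ ∈ T, c μ * Complex.exp (Complex.I * (μ : ℂ) * w)‖
      ≤ A * ‖∑ μ ∈ T, c μ * Complex.exp (Complex.I * (μ : ℂ) * (t : ℂ))‖

end Pool.Agent.R267.DI
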