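import Mathlib
import Pool.Agent.R267.DI.Defs

set_option autoImplicit false
open Complex Real

namespace Pool.Agent.R267.DI
namespace RootP

theorem norm_exp_I_real (t : ℝ) : ‖Complex.exp (Complex.I * (t : ℂ))‖ = 1 := by
  rw [mul_comm]; exact Complex.norm_exp_ofReal_mul_I t

theorem exp_diff (w : ℂ) (t : ℝ) : Complex.exp (Complex.I * w) - Complex.exp (Complex.I * (t : ℂ))
    = Complex.exp (Complex.I * (t : ℂ)) * (Complex.exp (Complex.I * (w - (t : ℂ))) - 1) := by
  rw [mul_sub, ← Complex.exp_add, mul_one]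
  congr 2
  ring

theorem upper (c0 c1 η θ0 : ℝ) (hc1 : 0 < c1) (hη : 0 < η) (hη0 : η ≤ c0) (z w : ℂ)
    (hw : ‖w - (θ0 : ℂ)‖ ≤ c1 * η) :
    ‖Complex.exp (Complex.I * w) - z‖
      ≤ ‖Complex.exp (Complex.I * (θ0 : ℂ)) - z‖ + (c1 * Real.exp (c1 * c0)) * η := by
  have h1 : Complex.exp (Complex.I * w) - z
      = (Complex.exp (Complex.I * w) - Complex.exp (Complex.I * (θ0 : ℂ)))
        + (Complex.exp (Complex.I * (θ0 : ℂ)) - z) := by ring
  have h2 : ‖Complex.exp (Complex.I * w) - Complex.exp (Complex.I * (θ0 : ℂ))‖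
      ≤ c1 * Real.exp (c1 * c0) * η := by
    rw [exp_diff, norm_mul, norm_exp_I_real, one_mul]
    have h3 := Complex.norm_exp_sub_sum_le_norm_mul_exp (Complex.I * (w - (θ0 : ℂ))) 1
    simp only [Finset.range_one, Finset.sum_singleton, pow_zero, Nat.factorial_zero, Nat.cast_one,
      div_one, pow_one, norm_mul, Complex.norm_I, one_mul] at h3
    refine h3.trans ?_
    have h4 : Real.exp ‖w - (θ0 : ℂ)‖ ≤ Real.exp (c1 * c0) := by
      apply Real.exp_le_exp.2
      exact hw.trans (mul_le_mul_of_nonneg_left hη0 hc1.le)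
    calc ‖w - (θ0 : ℂ)‖ * Real.exp ‖w - (θ0 : ℂ)‖ ≤ (c1 * η) * Real.exp (c1 * c0) := by
          apply mul_le_mul hw h4 (Real.exp_pos _).le (by positivity)
      _ = c1 * Real.exp (c1 * c0) * η := by ring
  rw [h1]
  refine (norm_add_le _ _).trans ?_
  linarith

theorem xlog (x y : ℝ) (hx : 0 ≤ x) (hy : 0 < y) : x * Real.log y + x - y ≤ x * Real.log x := by
  rcases hx.eq_or_lt with rfl | hx
  · simp; linarith
  · have h1 := Real.log_le_sub_one_of_pos (show 0 < y / x by positivity)
    rw [Real.log_div hy.ne' hx.ne'] at h1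
    have h2 : x * (Real.log y - Real.log x) ≤ x * (y / x - 1) := mul_le_mul_of_nonneg_left h1 hx.le
    have h3 : x * (y / x - 1) = y - x := by field_simp
    rw [h3] at h2
    linarith

/-- lower bound of the integral of the logarithm -/
theorem logint (a e : ℝ) (he : 0 < e) :
    2 * e * Real.log e ≤ (a + 2 * e) * Real.log (a + 2 * e) - a * Real.log a := by
  rcases le_or_gt 0 a with ha | ha
  · rcases ha.eq_or_lt with rfl | ha
    · simp only [zero_add, zero_mul, sub_zero]
      have : Real.log e ≤ Real.log (2 * e) := Real.log_le_log he (by linarith)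
      nlinarith
    · have h1 : Real.log a ≤ Real.log (a + 2 * e) := Real.log_le_log ha (by linarith)
      have h2 : Real.log e ≤ Real.log (a + 2 * e) := Real.log_le_log he (by linarith)
      nlinarith
  · rcases le_or_gt (a + 2 * e) 0 with hr | hr
    · rcases hr.eq_or_lt with hr | hr
      · have h0 : a = -(2 * e) := by linarith
        rw [hr, h0, Real.log_neg_eq_log]
        have : Real.log e ≤ Real.log (2 * e) := Real.log_le_log he (by linarith)
        nlinarith
      · -- both negative
        have h0 : Real.log a = Real.log (-a) := (Real.log_neg_eq_log a).symm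
        have h0' : Real.log (a + 2 * e) = Real.log (-(a + 2 * e)) :=
          (Real.log_neg_eq_log _).symm
        rw [h0, h0']
        have h1 : Real.log (-(a + 2 * e)) ≤ Real.log (-a) :=
          Real.log_le_log (by linarith) (by linarith)
        have h2 : Real.log e ≤ Real.log (-a) := Real.log_le_log he (by linarith)
        nlinarith
    · have h1 := xlog (a + 2 * e) e hr.le he
      have h2 := xlog (-a) e (by linarith) he
      rw [Real.log_neg_eq_log] at h2
      nlinarith

/-- distance to a ray -/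
theorem ray (z : ℂ) (b θ : ℝ) (hz : z = (‖z‖ : ℂ) * Complex.exp (Complex.I * (b : ℂ)))
    (hu : |θ - b| ≤ π + 1) : |θ - b| / 5 ≤ ‖Complex.exp (Complex.I * (θ : ℂ)) - z‖ := by
  have hsq : ‖Complex.exp (Complex.I * (θ : ℂ)) - z‖ ^ 2
      = ‖z‖ ^ 2 - 2 * ‖z‖ * Real.cos (θ - b) + 1 := by
    have h1 : Complex.exp (Complex.I * (θ : ℂ)) - z
        = Complex.exp (Complex.I * (b : ℂ)) * (Complex.exp (Complex.I * ((θ - b : ℝ) : ℂ)) - (‖z‖ : ℂ)) := by
      conv_lhs => rw [hz]
      rw [mul_sub, ← Complex.exp_add]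
      push_cast
      ring_nf
    rw [h1, norm_mul, norm_exp_I_real, one_mul, Complex.sq_norm, Complex.normSq_apply]
    have h2 : Complex.exp (Complex.I * ((θ - b : ℝ) : ℂ))
        = ((Real.cos (θ - b) : ℝ) : ℂ) + ((Real.sin (θ - b) : ℝ) : ℂ) * Complex.I := by
      rw [Complex.ofReal_cos, Complex.ofReal_sin, ← Complex.exp_mul_I, mul_comm]
    rw [h2]
    simp only [Complex.sub_re, Complex.add_re, Complex.ofReal_re, Complex.mul_re, Complex.I_re,
      Complex.ofReal_im, Complex.I_im, Complex.sub_im, Complex.add_im, Complex.mul_im]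
    have := Real.sin_sq_add_cos_sq (θ - b)
    nlinarith
  have hn : 0 ≤ ‖Complex.exp (Complex.I * (θ : ℂ)) - z‖ := norm_nonneg _
  have hz0 : 0 ≤ ‖z‖ := norm_nonneg _
  have hpi3 := Real.pi_gt_three
  have hpi4 := Real.pi_lt_d2
  by_cases hc : Real.cos (θ - b) ≤ 0
  · have h1 : 1 ≤ ‖Complex.exp (Complex.I * (θ : ℂ)) - z‖ ^ 2 := by
      rw [hsq]; nlinarith
    have h2 : 1 ≤ ‖Complex.exp (Complex.I * (θ : ℂ)) - z‖ := by
      by_contra h
      push Not at h
      nlinarith
    linarith
  · push Not at hc
    have hu2 : |θ - b| ≤ π / 2 := by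
      by_contra h
      push Not at h
      have h3 := Real.cos_nonpos_of_pi_div_two_le_of_le h.le (by linarith)
      rw [Real.cos_abs] at h3
      linarith
    have h4 := Real.mul_abs_le_abs_sin hu2
    have h5 : Real.sin (θ - b) ^ 2 ≤ ‖Complex.exp (Complex.I * (θ : ℂ)) - z‖ ^ 2 := by
      rw [hsq]
      have := Real.sin_sq_add_cos_sq (θ - b)
      nlinarith [sq_nonneg (‖z‖ - Real.cos (θ - b))]
    have h6 : |Real.sin (θ - b)| ≤ ‖Complex.exp (Complex.I * (θ : ℂ)) - z‖ := by
      rw [← sq_abs] at h5
      exact (sq_le_sq₀ (abs_nonneg _) hn).1 h5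
    have h7 : (1 / 5 : ℝ) ≤ 2 / π := by
      rw [div_le_div_iff₀ (by norm_num) Real.pi_pos]; linarith
    have h8 : 1 / 5 * |θ - b| ≤ 2 / π * |θ - b| := mul_le_mul_of_nonneg_right h7 (abs_nonneg _)
    linarith

theorem exists_b (z : ℂ) (θ0 : ℝ) : ∃ b : ℝ, |b - θ0| ≤ π ∧
    z = (‖z‖ : ℂ) * Complex.exp (Complex.I * (b : ℂ)) := by
  let y : ℂ := z * Complex.exp (-(Complex.I * (θ0 : ℂ)))
  refine ⟨Complex.arg y + θ0, ?_, ?_⟩
  · rw [add_sub_cancel_right]; exact Complex.abs_arg_le_pi y
  · have h1 := Complex.norm_mul_exp_arg_mul_I y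
    have h2 : ‖y‖ = ‖z‖ := by
      show ‖z * Complex.exp (-(Complex.I * (θ0 : ℂ)))‖ = ‖z‖
      rw [norm_mul]
      have : -(Complex.I * (θ0 : ℂ)) = Complex.I * ((-θ0 : ℝ) : ℂ) := by push_cast; ring
      rw [this, norm_exp_I_real, mul_one]
    rw [h2] at h1
    have h3 : Complex.exp (Complex.I * ((Complex.arg y + θ0 : ℝ) : ℂ))
        = Complex.exp (Complex.arg y * Complex.I) * Complex.exp (Complex.I * (θ0 : ℂ)) := by
      rw [← Complex.exp_add]
      congr 1
      push_cast
      ring
    rw [h3, ← mul_assoc, h1]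
    show z = z * Complex.exp (-(Complex.I * (θ0 : ℂ))) * Complex.exp (Complex.I * (θ0 : ℂ))
    rw [mul_assoc, ← Complex.exp_add, neg_add_cancel, Complex.exp_zero, mul_one]

end RootP

open RootP

theorem s_ROOT : S_ROOT := by
  intro c0 c1 hc0 hc1
  set A1 : ℝ := c1 * Real.exp (c1 * c0) with hA1
  have hA1p : 0 < A1 := by positivity
  set L : ℝ := Real.log (5 * (2 + A1) * (1 + c0)) with hL
  have hL0 : 0 ≤ L := Real.log_nonneg (by nlinarith)
  refine ⟨A1, 3 * (A1 + 1) + 3 * (L + 1), hA1p, by positivity, ?_⟩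
  intro η θ0 z hη hηc
  refine ⟨fun w hw => upper c0 c1 η θ0 hc1 hη hηc z w hw, ?_⟩
  set D : ℝ := ‖Complex.exp (Complex.I * (θ0 : ℂ)) - z‖ with hD
  have hD0 : 0 ≤ D := norm_nonneg _
  set e : ℝ := η / (1 + c0) with he
  have he0 : 0 < e := by positivity
  have heη : e ≤ η := by
    rw [he, div_le_iff₀ (by positivity)]; nlinarith
  have he1 : e ≤ 1 := by
    rw [he, div_le_one (by positivity)]; linarith
  have hηe : η = (1 + c0) * e := by rw [he]; field_simp
  have hDη : 0 < D + η := by positivity
  have hlogp : 0 < D + A1 * η := by positivity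
  rcases le_or_gt (2 * η) D with hcase | hcase
  · -- constant minorant
    refine ⟨fun _ => Real.log (D - η), intervalIntegrable_const, ?_, ?_⟩
    · intro θ hθ _
      apply Real.log_le_log (by linarith)
      have h1 : ‖Complex.exp (Complex.I * (θ : ℂ)) - Complex.exp (Complex.I * (θ0 : ℂ))‖ ≤ η := by
        rw [exp_diff, norm_mul, norm_exp_I_real, one_mul]
        have h2 := Real.norm_exp_I_mul_ofReal_sub_one_le (x := θ - θ0)
        push_cast at h2
        refine h2.trans ?_
        rw [Real.norm_eq_abs]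
        exact hθ.trans heη
      have h3 : D ≤ ‖Complex.exp (Complex.I * (θ : ℂ)) - z‖
          + ‖Complex.exp (Complex.I * (θ : ℂ)) - Complex.exp (Complex.I * (θ0 : ℂ))‖ := by
        have h4 : Complex.exp (Complex.I * (θ0 : ℂ)) - z
            = (Complex.exp (Complex.I * (θ : ℂ)) - z)
              - (Complex.exp (Complex.I * (θ : ℂ)) - Complex.exp (Complex.I * (θ0 : ℂ))) := by ring
        rw [hD, h4]
        exact norm_sub_le _ _
      linarith
    · rw [intervalIntegral.integral_const, smul_eq_mul]
      have h5 : θ0 + e - (θ0 - e) = 2 * e := by ring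
      rw [h5]
      apply mul_le_mul_of_nonneg_left _ (by positivity)
      have hDm : 0 < D - η := by linarith
      have h6 : Real.log (D + A1 * η) - Real.log (D - η) ≤ (A1 + 1) * η / (D - η) := by
        rw [← Real.log_div hlogp.ne' hDm.ne']
        refine (Real.log_le_sub_one_of_pos (by positivity)).trans (le_of_eq ?_)
        field_simp
        ring
      have h7 : (A1 + 1) * η / (D - η) ≤ 3 * (A1 + 1) * (η / (D + η)) := by
        rw [← mul_div_assoc, div_le_div_iff₀ hDm hDη]
        have : 0 ≤ (A1 + 1) * η := by positivity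
        nlinarith
      have h8 : 0 ≤ 3 * (L + 1) * (η / (D + η)) := by positivity
      have h9 : (3 * (A1 + 1) + 3 * (L + 1)) * (η / (D + η))
          = 3 * (A1 + 1) * (η / (D + η)) + 3 * (L + 1) * (η / (D + η)) := by ring
      rw [h9]
      linarith
  · -- logarithmic minorant
    obtain ⟨b, hb, hzb⟩ := exists_b z θ0
    let l0 : ℝ → ℝ := fun θ => Real.log (θ - b) - Real.log 5
    let l : ℝ → ℝ := fun θ => if θ = b then Real.log ‖Complex.exp (Complex.I * (θ : ℂ)) - z‖ else l0 θ
    have hae : l0 =ᵐ[MeasureTheory.volume] l := by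
      have h1 : ∀ᵐ θ : ℝ, θ ≠ b := by
        rw [MeasureTheory.ae_iff]
        simp
      filter_upwards [h1] with θ hθ
      show l0 θ = if θ = b then _ else l0 θ
      rw [if_neg hθ]
    have hint0 : IntervalIntegrable l0 MeasureTheory.volume (θ0 - e) (θ0 + e) := by
      apply IntervalIntegrable.sub _ intervalIntegrable_const
      have h2 : IntervalIntegrable Real.log MeasureTheory.volume (θ0 - e - b) (θ0 + e - b) :=
        intervalIntegral.intervalIntegrable_log'
      have h3 := h2.comp_sub_right b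
      simpa using h3
    refine ⟨l, hint0.congr_ae (MeasureTheory.ae_restrict_of_ae hae), ?_, ?_⟩
    · intro θ hθ hne
      show (if θ = b then _ else l0 θ) ≤ _
      split_ifs with hθb
      · exact le_refl _
      · have hu : |θ - b| ≤ π + 1 := by
          have h4 : θ - b = (θ - θ0) - (b - θ0) := by ring
          rw [h4]
          refine (abs_sub _ _).trans ?_
          linarith
        have h5 := ray z b θ hzb hu
        have h6 : 0 < |θ - b| := abs_pos.2 (sub_ne_zero.2 hθb)
        show Real.log (θ - b) - Real.log 5 ≤ _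
        rw [← Real.log_abs (θ - b), ← Real.log_div h6.ne' (by norm_num)]
        exact Real.log_le_log (by positivity) h5
    · rw [← intervalIntegral.integral_congr_ae (f := l0) (g := l)
        (hae.mono (fun θ h _ => h))]
      have h7 : ∫ θ in (θ0 - e)..(θ0 + e), l0 θ
          = (∫ θ in (θ0 - e)..(θ0 + e), Real.log (θ - b)) - 2 * e * Real.log 5 := by
        rw [intervalIntegral.integral_sub]
        · rw [intervalIntegral.integral_const, smul_eq_mul]
          ring
        · have h2 : IntervalIntegrable Real.log MeasureTheory.volume (θ0 - e - b) (θ0 + e - b) :=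
            intervalIntegral.intervalIntegrable_log'
          have h3 := h2.comp_sub_right b
          simpa using h3
        · exact intervalIntegrable_const
      rw [h7, intervalIntegral.integral_comp_sub_right (fun x => Real.log x) b, integral_log]
      have h8 := logint (θ0 - e - b) e he0
      have h9 : θ0 - e - b + 2 * e = θ0 + e - b := by ring
      rw [h9] at h8
      have h10 : Real.log (D + A1 * η) ≤ L - Real.log 5 + Real.log e := by
        have h11 : D + A1 * η ≤ (2 + A1) * (1 + c0) * e := by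
          have : (2 + A1) * (1 + c0) * e = (2 + A1) * η := by rw [hηe]; ring
          rw [this]; linarith
        refine (Real.log_le_log hlogp h11).trans (le_of_eq ?_)
        have hX : 0 < (2 + A1) * (1 + c0) := by positivity
        have e1 : Real.log ((2 + A1) * (1 + c0) * e)
            = Real.log ((2 + A1) * (1 + c0)) + Real.log e := Real.log_mul hX.ne' he0.ne'
        have e2 : L = Real.log 5 + Real.log ((2 + A1) * (1 + c0)) := by
          rw [hL, mul_assoc (5 : ℝ)]
          exact Real.log_mul (by norm_num) hX.ne'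
        rw [e1, e2]
        ring
      have h12 : (1 / 3 : ℝ) ≤ η / (D + η) := by
        rw [div_le_div_iff₀ (by norm_num) hDη]; linarith
      have h13 : L + 1 ≤ (3 * (A1 + 1) + 3 * (L + 1)) * (η / (D + η)) := by
        have h14 : 3 * (L + 1) * (1 / 3) ≤ 3 * (L + 1) * (η / (D + η)) :=
          mul_le_mul_of_nonneg_left h12 (by positivity)
        have h15 : 0 ≤ 3 * (A1 + 1) * (η / (D + η)) := by positivity
        nlinarith
      have h16 : 2 * e * (Real.log (D + A1 * η)
          - (3 * (A1 + 1) + 3 * (L + 1)) * (η / (D + η)))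
          ≤ 2 * e * (Real.log e - 1 - Real.log 5) := by
        apply mul_le_mul_of_nonneg_left _ (by positivity)
        linarith
      refine h16.trans ?_
      nlinarith

end Pool.Agent.R267.DI
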