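import Mathlib
import Pool.Agent.R267.DI.Defs
import Pool.Agent.R267.DI.Root

set_option autoImplicit false
open Complex Real

namespace Pool.Agent.R267.DI
namespace SumP

open RootP

theorem shift_sum (n : ℕ) (f : ℤ → ℝ) (hf : ∀ j, f (j + n) = f j) (k : ℤ) :
    ∑ j ∈ Finset.range n, f (k + j) = ∑ j ∈ Finset.range n, f (j : ℤ) := by
  have hstep : ∀ k : ℤ, ∑ j ∈ Finset.range n, f (k + 1 + j) = ∑ j ∈ Finset.range n, f (k + j) := by
    intro k
    have h1 := Finset.sum_range_succ (fun j : ℕ => f (k + j)) n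
    have h2 := Finset.sum_range_succ' (fun j : ℕ => f (k + j)) n
    rw [h1] at h2
    have h3 : f (k + (n : ℤ)) = f (k + ((0 : ℕ) : ℤ)) := by
      rw [hf]; simp
    have h4 : ∑ j ∈ Finset.range n, f (k + 1 + j) = ∑ j ∈ Finset.range n, f (k + ((j + 1 : ℕ) : ℤ)) := by
      refine Finset.sum_congr rfl (fun j _ => ?_)
      congr 1
      push_cast
      ring
    rw [h4]
    linarith
  have h0 : ∀ k : ℤ, ∑ j ∈ Finset.range n, f (k + j) = ∑ j ∈ Finset.range n, f (0 + j) := by
    intro k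
    induction k using Int.induction_on with
    | zero => rfl
    | succ i ih => rw [hstep, ih]
    | pred i ih =>
      have := hstep (-(i : ℤ) - 1)
      rw [sub_add_cancel] at this
      rw [← this, ih]
  rw [h0]
  simp

theorem sin_half (u : ℝ) (h0 : 0 ≤ u) (h1 : u ≤ 2 * π) :
    min u (2 * π - u) / π ≤ Real.sin (u / 2) := by
  have hpi := Real.pi_pos
  rcases le_or_gt u π with h | h
  · have h2 := Real.mul_le_sin (x := u / 2) (by linarith) (by linarith)
    have h3 : min u (2 * π - u) / π ≤ u / π := by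
      apply div_le_div_of_nonneg_right (min_le_left _ _) hpi.le
    have h4 : u / π = 2 / π * (u / 2) := by field_simp
    linarith
  · have h2 := Real.mul_le_sin (x := π - u / 2) (by linarith) (by linarith)
    rw [Real.sin_pi_sub] at h2
    have h3 : min u (2 * π - u) / π ≤ (2 * π - u) / π := by
      apply div_le_div_of_nonneg_right (min_le_right _ _) hpi.le
    have h4 : (2 * π - u) / π = 2 / π * (π - u / 2) := by field_simp
    linarith

theorem dist_lower (z : ℂ) (b θ : ℝ) (hz : z = (‖z‖ : ℂ) * Complex.exp (Complex.I * (b : ℂ))) :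
    |Real.sin ((θ - b) / 2)| ≤ ‖Complex.exp (Complex.I * (θ : ℂ)) - z‖ := by
  have h1 : ‖Complex.exp (Complex.I * (θ : ℂ)) - Complex.exp (Complex.I * (b : ℂ))‖
      = 2 * |Real.sin ((θ - b) / 2)| := by
    rw [exp_diff, norm_mul, norm_exp_I_real, one_mul, ← Complex.ofReal_sub,
      Complex.norm_exp_I_mul_ofReal_sub_one, norm_mul, Real.norm_eq_abs, Real.norm_eq_abs, abs_two]
  have h2 : ‖z - Complex.exp (Complex.I * (b : ℂ))‖ = |‖z‖ - 1| := by
    conv_lhs => rw [hz]
    have : (‖z‖ : ℂ) * Complex.exp (Complex.I * (b : ℂ)) - Complex.exp (Complex.I * (b : ℂ))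
        = ((‖z‖ - 1 : ℝ) : ℂ) * Complex.exp (Complex.I * (b : ℂ)) := by push_cast; ring
    rw [this, norm_mul, norm_exp_I_real, mul_one, Complex.norm_real, Real.norm_eq_abs]
  have h3 : |‖z‖ - 1| ≤ ‖Complex.exp (Complex.I * (θ : ℂ)) - z‖ := by
    have h4 := abs_norm_sub_norm_le z (Complex.exp (Complex.I * (θ : ℂ)))
    rw [norm_exp_I_real] at h4
    rw [norm_sub_rev]
    exact h4
  have h5 : ‖Complex.exp (Complex.I * (θ : ℂ)) - Complex.exp (Complex.I * (b : ℂ))‖
      ≤ ‖Complex.exp (Complex.I * (θ : ℂ)) - z‖ + ‖z - Complex.exp (Complex.I * (b : ℂ))‖ :=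
    norm_sub_le_norm_sub_add_norm_sub _ _ _
  rw [h1, h2] at h5
  linarith

theorem harm (m : ℕ) : ∑ i ∈ Finset.range m, (1 : ℝ) / (i + 1) ≤ 1 + Real.log m := by
  have h := harmonic_le_one_add_log m
  have h2 : ((harmonic m : ℚ) : ℝ) = ∑ i ∈ Finset.range m, (1 : ℝ) / (i + 1) := by
    rw [harmonic]
    push_cast
    refine Finset.sum_congr rfl (fun i _ => ?_)
    rw [one_div]
  rw [← h2]; exact h

end SumP

open RootP SumP

theorem s_SUM : S_SUM := by
  refine ⟨5, by norm_num, ?_⟩
  intro n η z hn hη hnη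
  have hpi := Real.pi_pos
  have hn' : (0 : ℝ) < n := by exact_mod_cast hn
  obtain ⟨b, -, hzb⟩ := exists_b z 0
  let f : ℤ → ℝ := fun j => η / (‖Complex.exp (Complex.I * ((2 * π * (j : ℝ) / n : ℝ) : ℂ)) - z‖ + η)
  have hf : ∀ j, f (j + n) = f j := by
    intro j
    have h1 : Complex.exp (Complex.I * ((2 * π * ((j + n : ℤ) : ℝ) / n : ℝ) : ℂ))
        = Complex.exp (Complex.I * ((2 * π * (j : ℝ) / n : ℝ) : ℂ)) := by
      have h2 : Complex.I * ((2 * π * ((j + n : ℤ) : ℝ) / n : ℝ) : ℂ)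
          = Complex.I * ((2 * π * (j : ℝ) / n : ℝ) : ℂ) + 2 * π * Complex.I := by
        have hnc : (n : ℂ) ≠ 0 := by exact_mod_cast hn.ne'
        push_cast
        field_simp
      rw [h2, Complex.exp_add, Complex.exp_two_pi_mul_I, mul_one]
    show η / (‖Complex.exp (Complex.I * ((2 * π * ((j + n : ℤ) : ℝ) / n : ℝ) : ℂ)) - z‖ + η) = _
    rw [h1]
  let k : ℤ := round (b * n / (2 * π))
  have hk : |2 * π * (k : ℝ) / n - b| ≤ π / n := by
    have h1 := abs_sub_round (b * n / (2 * π))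
    have h2 : 2 * π * (k : ℝ) / n - b = -(2 * π / n) * (b * n / (2 * π) - (k : ℝ)) := by
      field_simp
      ring
    rw [h2, abs_mul, abs_neg, abs_of_pos (show 0 < 2 * π / n by positivity)]
    calc 2 * π / n * |b * n / (2 * π) - (k : ℝ)| ≤ 2 * π / n * (1 / 2) :=
          mul_le_mul_of_nonneg_left h1 (by positivity)
      _ = π / n := by ring
  have hsum : ∑ j ∈ Finset.range n,
      η / (‖Complex.exp (Complex.I * ((2 * π * j / n : ℝ) : ℂ)) - z‖ + η)
      = ∑ j ∈ Finset.range n, f (k + j) := by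
    rw [shift_sum n f hf k]
    refine Finset.sum_congr rfl (fun j _ => ?_)
    show _ = η / (‖Complex.exp (Complex.I * ((2 * π * (((j : ℕ) : ℤ) : ℝ) / n : ℝ) : ℂ)) - z‖ + η)
    rw [Int.cast_natCast]
  have hone : ∀ j, f j ≤ 1 := by
    intro j
    show η / (_ + η) ≤ 1
    rw [div_le_one (by positivity)]
    have := norm_nonneg (Complex.exp (Complex.I * ((2 * π * (j : ℝ) / n : ℝ) : ℂ)) - z)
    linarith
  obtain ⟨m, rfl⟩ : ∃ m, n = m + 1 := ⟨n - 1, by omega⟩
  have hterm : ∀ i ∈ Finset.range m, f (k + ((i + 1 : ℕ) : ℤ))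
      ≤ ((m + 1 : ℕ) * η) * (1 / (i + 1) + 1 / ((m - 1 - i : ℕ) + 1 : ℝ)) := by
    intro i hi
    rw [Finset.mem_range] at hi
    have hcast : ((m - 1 - i : ℕ) : ℝ) + 1 = (m : ℝ) - i := by
      have : m - 1 - i + 1 = m - i := by omega
      have h2 : ((m - 1 - i + 1 : ℕ) : ℝ) = ((m - i : ℕ) : ℝ) := by rw [this]
      rw [Nat.cast_sub (by omega)] at h2
      push_cast at h2 ⊢
      linarith
    rw [hcast]
    have hi' : (i : ℝ) + 1 ≤ m := by exact_mod_cast hi
    have hi0 : (0 : ℝ) ≤ i := Nat.cast_nonneg i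
    set N : ℝ := ((m + 1 : ℕ) : ℝ) with hN
    have hNm : N = m + 1 := by rw [hN]; push_cast; ring
    set θ : ℝ := 2 * π * (((k + ((i + 1 : ℕ) : ℤ) : ℤ)) : ℝ) / N with hθ
    set u : ℝ := θ - b with hu
    have hu1 : u = (2 * π * (k : ℝ) / N - b) + 2 * π * (i + 1) / N := by
      rw [hu, hθ]; push_cast; ring
    have hk2 := abs_le.1 hk
    have hx : π / N = π * (1 / N) := by ring
    have hul : π * (i + 1) / N ≤ u := by
      have h3 : π * (i + 1) / N ≤ 2 * π * (i + 1) / N - π / N := by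
        rw [← sub_div]
        apply div_le_div_of_nonneg_right _ hn'.le
        nlinarith
      linarith [hk2.1]
    have huu : π * (m - i) / N ≤ 2 * π - u := by
      have h3 : 2 * π * (i + 1) / N + π / N + π * (m - i) / N ≤ 2 * π := by
        rw [← add_div, ← add_div, div_le_iff₀ hn', hNm]
        nlinarith
      linarith [hk2.2]
    have hu0 : 0 ≤ u := le_trans (by positivity) hul
    have hmi : 0 < (m : ℝ) - i := by linarith
    have hu2 : u ≤ 2 * π := by
      have : 0 ≤ π * (m - i) / N := by positivity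
      linarith
    have h5 := sin_half u hu0 hu2
    have h6 := dist_lower z b θ hzb
    have h7 : min u (2 * π - u) / π ≤ ‖Complex.exp (Complex.I * (θ : ℂ)) - z‖ :=
      h5.trans ((le_abs_self _).trans h6)
    have h8 : min ((i : ℝ) + 1) (m - i) / N ≤ ‖Complex.exp (Complex.I * (θ : ℂ)) - z‖ := by
      refine le_trans ?_ h7
      rw [le_div_iff₀ hpi]
      apply le_min
      · refine le_trans ?_ hul
        rw [div_mul_eq_mul_div, mul_comm]
        apply div_le_div_of_nonneg_right _ hn'.le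
        exact mul_le_mul_of_nonneg_left (min_le_left _ _) hpi.le
      · refine le_trans ?_ huu
        rw [div_mul_eq_mul_div, mul_comm]
        apply div_le_div_of_nonneg_right _ hn'.le
        exact mul_le_mul_of_nonneg_left (min_le_right _ _) hpi.le
    have hmin : 0 < min ((i : ℝ) + 1) (m - i) := lt_min (by positivity) hmi
    show η / (‖Complex.exp (Complex.I * (θ : ℂ)) - z‖ + η) ≤ _
    have h9 : η / (‖Complex.exp (Complex.I * (θ : ℂ)) - z‖ + η)
        ≤ η / (min ((i : ℝ) + 1) (m - i) / N) := by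
      apply div_le_div_of_nonneg_left hη.le (by positivity)
      linarith
    refine h9.trans ?_
    have h10 : η / (min ((i : ℝ) + 1) (m - i) / N) = N * η * (1 / min ((i : ℝ) + 1) (m - i)) := by
      field_simp
    rw [h10]
    apply mul_le_mul_of_nonneg_left _ (by positivity)
    rcases le_total ((i : ℝ) + 1) (m - i) with h | h
    · rw [min_eq_left h]
      have : 0 ≤ 1 / ((m : ℝ) - i) := by positivity
      linarith
    · rw [min_eq_right h]
      have : 0 ≤ 1 / ((i : ℝ) + 1) := by positivity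
      linarith
  rw [hsum, Finset.sum_range_succ' (fun j : ℕ => f (k + j)) m]
  have hA := Finset.sum_le_sum hterm
  rw [← Finset.mul_sum, Finset.sum_add_distrib] at hA
  have hrefl : ∑ i ∈ Finset.range m, 1 / (((m - 1 - i : ℕ) : ℝ) + 1)
      = ∑ i ∈ Finset.range m, (1 : ℝ) / (i + 1) :=
    Finset.sum_range_reflect (fun i : ℕ => (1 : ℝ) / (i + 1)) m
  rw [hrefl] at hA
  have hB := harm m
  have hC := hone (k + ((0 : ℕ) : ℤ))
  set H : ℝ := ∑ i ∈ Finset.range m, (1 : ℝ) / (i + 1) with hH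
  set N : ℝ := ((m + 1 : ℕ) : ℝ) with hN
  have hNm : N = m + 1 := by rw [hN]; push_cast; ring
  have hm0 : (0 : ℝ) ≤ m := Nat.cast_nonneg m
  have hlog1 : 1 ≤ Real.log (2 + N) := by
    rw [Real.le_log_iff_exp_le (by positivity)]
    have := Real.exp_one_lt_d9
    linarith
  have hlogm : Real.log m ≤ Real.log (2 + N) := by
    rcases hm0.eq_or_lt with h | h
    · rw [← h, Real.log_zero]; linarith
    · exact Real.log_le_log h (by linarith)
  have hNη : 1 ≤ N * η := by
    have := Real.pi_gt_three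
    linarith
  have hH2 : H + H ≤ 4 * Real.log (2 + N) := by linarith
  have h11 : N * η * (H + H) ≤ N * η * (4 * Real.log (2 + N)) :=
    mul_le_mul_of_nonneg_left hH2 (by positivity)
  have h12 : 1 ≤ N * η * Real.log (2 + N) := by nlinarith
  calc _ ≤ N * η * (H + H) + 1 := add_le_add hA hC
    _ ≤ 5 * (N * η) * Real.log (2 + N) := by nlinarith

end Pool.Agent.R267.DI
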