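import Pool.Agent.R267.DI.Defs

/-!
# DI-TRIG: average doubling of trigonometric polynomials (from S_ROOT and S_SUM)
-/

set_option autoImplicit false
open Complex Real

namespace Pool.Agent.R267.DI

namespace TrigAux

noncomputable def tpoly (M : ℕ) (c : ℤ → ℂ) : Polynomial ℂ :=
  ∑ m ∈ Finset.Icc (-(M : ℤ)) (M : ℤ), Polynomial.C (c m) * Polynomial.X ^ (m + M).toNat

lemma esum_eq (M : ℕ) (c : ℤ → ℂ) (w : ℂ) :
    esum 1 M c w = Complex.exp (-(Complex.I * (M : ℂ) * w)) *
      (tpoly M c).eval (Complex.exp (Complex.I * w)) := by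
  unfold esum tpoly
  rw [Polynomial.eval_finsetSum, Finset.mul_sum]
  apply Finset.sum_congr rfl
  intro m hm
  rw [Finset.mem_Icc] at hm
  simp only [Polynomial.eval_mul, Polynomial.eval_C, Polynomial.eval_pow, Polynomial.eval_X]
  rw [← Complex.exp_nat_mul]
  have h1 : (((m + M).toNat : ℕ) : ℂ) = (m : ℂ) + M := by
    have h2 : (((m + M).toNat : ℕ) : ℤ) = m + M := Int.toNat_of_nonneg (by omega)
    have h3 := congrArg (fun z : ℤ => (z : ℂ)) h2
    push_cast at h3
    exact_mod_cast h3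
  rw [h1, mul_left_comm, ← Complex.exp_add]
  congr 2
  push_cast
  ring

lemma tpoly_ne (M : ℕ) (c : ℤ → ℂ) (h : ∃ m ∈ Finset.Icc (-(M : ℤ)) (M : ℤ), c m ≠ 0) :
    tpoly M c ≠ 0 := by
  obtain ⟨m0, hm0, hc⟩ := h
  intro h0
  apply hc
  have h1 : (tpoly M c).coeff (m0 + M).toNat = c m0 := by
    unfold tpoly
    rw [Polynomial.finsetSum_coeff]
    rw [Finset.sum_eq_single m0]
    · rw [Polynomial.coeff_C_mul_X_pow, if_pos rfl]
    · intro m hm hne
      rw [Polynomial.coeff_C_mul_X_pow, if_neg]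
      rw [Finset.mem_Icc] at hm hm0
      omega
    · intro h; exact absurd hm0 h
  rw [← h1, h0, Polynomial.coeff_zero]

lemma tpoly_deg (M : ℕ) (c : ℤ → ℂ) : (tpoly M c).natDegree ≤ 2 * M := by
  unfold tpoly
  apply Polynomial.natDegree_sum_le_of_forall_le
  intro m hm
  rw [Finset.mem_Icc] at hm
  refine (Polynomial.natDegree_C_mul_X_pow_le _ _).trans ?_
  omega

/-- Factorisation of the norm of the values. -/
lemma norm_eval (P : Polynomial ℂ) (w : ℂ) :
    ‖P.eval w‖ = ‖P.leadingCoeff‖ * ∏ z ∈ P.roots.toFinset, ‖w - z‖ ^ (P.roots.count z) := by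
  have h1 : P = Polynomial.C P.leadingCoeff *
      (P.roots.map (fun a => Polynomial.X - Polynomial.C a)).prod :=
    (IsAlgClosed.splits P).eq_prod_roots
  have h2 : P.eval w = P.leadingCoeff * ∏ z ∈ P.roots.toFinset, (w - z) ^ (P.roots.count z) := by
    conv_lhs => rw [h1]
    rw [Polynomial.eval_mul, Polynomial.eval_C, Finset.prod_multiset_map_count,
      Polynomial.eval_prod]
    congr 1
    apply Finset.prod_congr rfl
    intro z _
    simp
  rw [h2, norm_mul, norm_prod]
  congr 1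
  apply Finset.prod_congr rfl
  intro z _
  rw [norm_pow]

lemma card_roots (P : Polynomial ℂ) :
    ∑ z ∈ P.roots.toFinset, P.roots.count z ≤ P.natDegree := by
  rw [Multiset.toFinset_sum_count_eq]
  exact P.card_roots'

lemma countable_pre (z : ℂ) : {θ : ℝ | Complex.exp (Complex.I * (θ : ℂ)) = z}.Countable := by
  by_cases h : ∃ θ1 : ℝ, Complex.exp (Complex.I * (θ1 : ℂ)) = z
  · obtain ⟨θ1, h1⟩ := h
    apply (Set.countable_range (fun n : ℤ => θ1 + n * (2 * π))).mono
    intro θ hθ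
    rw [Set.mem_ofPred_eq, ← h1, Complex.exp_eq_exp_iff_exists_int] at hθ
    obtain ⟨n, hn⟩ := hθ
    refine ⟨n, ?_⟩
    have h2 : Complex.I * (θ : ℂ) = Complex.I * ((θ1 + n * (2 * π) : ℝ) : ℂ) := by
      rw [hn]; push_cast; ring
    have h3 := mul_left_cancel₀ Complex.I_ne_zero h2
    exact (Complex.ofReal_injective h3).symm
  · convert Set.countable_empty
    ext θ
    simp only [Set.mem_ofPred_eq, Set.mem_empty_iff_false, iff_false]
    exact fun hh => h ⟨θ, hh⟩

/-- Choice of a good point. -/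
lemma good_point (F : Finset ℂ) (m : ℂ → ℕ) (l : ℂ → ℝ → ℝ) (θ0 η' : ℝ) (hη : 0 < η')
    (V : ℂ → ℝ)
    (hl : ∀ z, IntervalIntegrable (l z) MeasureTheory.volume (θ0 - η') (θ0 + η'))
    (hV : ∀ z, 2 * η' * V z ≤ ∫ θ in (θ0 - η')..(θ0 + η'), l z θ) :
    ∃ θ : ℝ, |θ - θ0| ≤ η' ∧ (∀ z ∈ F, Complex.exp (Complex.I * (θ : ℂ)) ≠ z) ∧
      ∑ z ∈ F, (m z : ℝ) * V z - 1 ≤ ∑ z ∈ F, (m z : ℝ) * l z θ := by
  by_contra hcon
  push Not at hcon
  set v : ℝ := ∑ z ∈ F, (m z : ℝ) * V z with hv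
  have hint : IntervalIntegrable (fun θ => ∑ z ∈ F, (m z : ℝ) * l z θ) MeasureTheory.volume
      (θ0 - η') (θ0 + η') := by
    have h0 := IntervalIntegrable.sum F (f := fun z => fun θ => (m z : ℝ) * l z θ)
      (μ := MeasureTheory.volume) (a := θ0 - η') (b := θ0 + η')
      (fun z _ => (hl z).const_mul _)
    have h01 : (∑ z ∈ F, fun θ => (m z : ℝ) * l z θ) = fun θ => ∑ z ∈ F, (m z : ℝ) * l z θ := by
      funext θ
      simp
    rw [h01] at h0
    exact h0
  have hae : (fun θ => ∑ z ∈ F, (m z : ℝ) * l z θ) ≤ᵐ[MeasureTheory.volume.restrict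
      (Set.Icc (θ0 - η') (θ0 + η'))] (fun _ => v - 1) := by
    have hS : (⋃ z ∈ F, {θ : ℝ | Complex.exp (Complex.I * (θ : ℂ)) = z}).Countable :=
      F.countable_toSet.biUnion (fun z _ => countable_pre z)
    have hnull : ∀ᵐ θ ∂(MeasureTheory.volume.restrict (Set.Icc (θ0 - η') (θ0 + η'))),
        θ ∉ (⋃ z ∈ F, {θ : ℝ | Complex.exp (Complex.I * (θ : ℂ)) = z}) :=
      MeasureTheory.ae_restrict_of_ae
        (MeasureTheory.measure_eq_zero_iff_ae_notMem.mp (hS.measure_zero _))
    have hmem : ∀ᵐ θ ∂(MeasureTheory.volume.restrict (Set.Icc (θ0 - η') (θ0 + η'))),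
        θ ∈ Set.Icc (θ0 - η') (θ0 + η') := MeasureTheory.ae_restrict_mem measurableSet_Icc
    filter_upwards [hnull, hmem] with θ h1 h2
    apply le_of_lt
    apply hcon θ
    · rw [abs_le]; constructor <;> linarith [h2.1, h2.2]
    · intro z hz hzz
      apply h1
      simp only [Set.mem_iUnion, Set.mem_ofPred_eq]
      exact ⟨z, hz, hzz⟩
  have h3 := intervalIntegral.integral_mono_ae_restrict (by linarith : θ0 - η' ≤ θ0 + η') hint
    intervalIntegrable_const hae
  rw [intervalIntegral.integral_const, intervalIntegral.integral_finsetSum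
    (fun z _ => (hl z).const_mul _)] at h3
  have h4 : 2 * η' * v ≤ ∑ z ∈ F, ∫ θ in (θ0 - η')..(θ0 + η'), (m z : ℝ) * l z θ := by
    rw [hv, Finset.mul_sum]
    apply Finset.sum_le_sum
    intro z _
    rw [intervalIntegral.integral_const_mul]
    have := mul_le_mul_of_nonneg_left (hV z) (Nat.cast_nonneg (α := ℝ) (m z))
    linarith
  have h5 : (θ0 + η' - (θ0 - η')) • (v - 1) = 2 * η' * v - 2 * η' := by
    rw [smul_eq_mul]; ring
  rw [h5] at h3
  linarith

end TrigAux

open TrigAux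

theorem s_TRIG (h1 : S_ROOT) (h2 : S_SUM) : S_TRIG := by
  intro c0 c1 hc0 hc1
  obtain ⟨A1, A2, hA1, hA2, hroot⟩ := h1 c0 c1 hc0 hc1
  obtain ⟨A, hA, hsum⟩ := h2
  refine ⟨c0 * c1 + 1 + 2 * A2 * A * c0, by positivity, ?_⟩
  intro M n η hn hη hηc hMη hnη c hc
  set P := tpoly M c with hP
  have hP0 : P ≠ 0 := tpoly_ne M c hc
  have hPd : P.natDegree ≤ 2 * M := tpoly_deg M c
  set F := P.roots.toFinset with hF
  set m : ℂ → ℕ := fun z => P.roots.count z with hm
  have hmM : ∑ z ∈ F, m z ≤ 2 * M := (card_roots P).trans hPd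
  have hlead : 0 < ‖P.leadingCoeff‖ := norm_pos_iff.mpr (Polynomial.leadingCoeff_ne_zero.mpr hP0)
  set ang : ℕ → ℝ := fun j => 2 * π * j / n with hang
  set D : ℂ → ℕ → ℝ := fun z j => ‖Complex.exp (Complex.I * ((ang j : ℝ) : ℂ)) - z‖ with hD
  have hD0 : ∀ z j, 0 ≤ D z j := fun z j => norm_nonneg _
  refine ⟨fun j => M * c1 * η + 1 + A2 * ∑ z ∈ F, (m z : ℝ) * (η / (D z j + η)), ?_, ?_, ?_⟩
  · intro j
    have : 0 ≤ ∑ z ∈ F, (m z : ℝ) * (η / (D z j + η)) := by
      apply Finset.sum_nonneg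
      intro z _
      have := hD0 z j
      positivity
    positivity
  · intro j hj w hw
    have hη' : 0 < η / (1 + c0) := by positivity
    choose hup l hlint hlow hint using fun z => hroot η (ang j) z hη hηc
    obtain ⟨θ, hθ, hθF, hθl⟩ := good_point F m l (ang j) (η / (1 + c0)) hη'
      (fun z => Real.log (D z j + A1 * η) - A2 * (η / (D z j + η))) hlint hint
    refine ⟨θ, ?_, ?_⟩
    · refine hθ.trans ?_
      rw [div_le_iff₀ (by positivity)]
      nlinarith
    -- upper bound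
    have hU : ‖esum 1 M c w‖ ≤ Real.exp (M * c1 * η) *
        (‖P.leadingCoeff‖ * ∏ z ∈ F, (D z j + A1 * η) ^ (m z)) := by
      rw [esum_eq, norm_mul, norm_eval]
      apply mul_le_mul _ _ (by positivity) (by positivity)
      · rw [Complex.norm_exp]
        apply Real.exp_le_exp.mpr
        have e1 : (-(Complex.I * (M : ℂ) * w)).re = M * w.im := by
          simp [Complex.mul_re, Complex.mul_im]
        rw [e1]
        have e2 : w.im = (w - ((2 * π * j / n : ℝ) : ℂ)).im := by
          rw [Complex.sub_im, Complex.ofReal_im, sub_zero]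
        have e3 : w.im ≤ c1 * η := by
          rw [e2]
          exact (le_abs_self _).trans ((Complex.abs_im_le_norm _).trans hw)
        have := mul_le_mul_of_nonneg_left e3 (Nat.cast_nonneg (α := ℝ) M)
        linarith
      · apply mul_le_mul_of_nonneg_left _ (norm_nonneg _)
        apply Finset.prod_le_prod
        · intro z _; positivity
        · intro z _
          exact pow_le_pow_left₀ (norm_nonneg _) (hup z w hw) _
    have hprodexp : ∀ (f : ℂ → ℝ), (∀ z ∈ F, 0 < f z) →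
        ∏ z ∈ F, f z ^ (m z) = Real.exp (∑ z ∈ F, (m z : ℝ) * Real.log (f z)) := by
      intro f hf
      rw [Real.exp_sum]
      apply Finset.prod_congr rfl
      intro z hz
      rw [Real.exp_nat_mul, Real.exp_log (hf z hz)]
    have hL : ‖P.leadingCoeff‖ * ∏ z ∈ F, (D z j + A1 * η) ^ (m z) ≤
        Real.exp (1 + A2 * ∑ z ∈ F, (m z : ℝ) * (η / (D z j + η))) *
          ‖esum 1 M c (θ : ℂ)‖ := by
      have e0 : ‖esum 1 M c (θ : ℂ)‖ = ‖P.leadingCoeff‖ *
          ∏ z ∈ F, ‖Complex.exp (Complex.I * (θ : ℂ)) - z‖ ^ (m z) := by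
        rw [esum_eq, norm_mul, norm_eval, Complex.norm_exp]
        have e1 : (-(Complex.I * (M : ℂ) * (θ : ℂ))).re = 0 := by
          simp [Complex.mul_re, Complex.mul_im]
        rw [e1, Real.exp_zero, one_mul]
      rw [e0, hprodexp (fun z => D z j + A1 * η), hprodexp (fun z =>
        ‖Complex.exp (Complex.I * (θ : ℂ)) - z‖)]
      · rw [mul_left_comm, ← Real.exp_add]
        apply mul_le_mul_of_nonneg_left _ (norm_nonneg _)
        apply Real.exp_le_exp.mpr
        have e2 : ∑ z ∈ F, (m z : ℝ) * l z θ ≤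
            ∑ z ∈ F, (m z : ℝ) * Real.log ‖Complex.exp (Complex.I * (θ : ℂ)) - z‖ := by
          apply Finset.sum_le_sum
          intro z hz
          apply mul_le_mul_of_nonneg_left _ (Nat.cast_nonneg _)
          exact hlow z θ hθ (hθF z hz)
        have e3 : ∑ z ∈ F, (m z : ℝ) * (Real.log (D z j + A1 * η) - A2 * (η / (D z j + η))) =
            ∑ z ∈ F, (m z : ℝ) * Real.log (D z j + A1 * η) -
              A2 * ∑ z ∈ F, (m z : ℝ) * (η / (D z j + η)) := by
          rw [Finset.mul_sum, ← Finset.sum_sub_distrib]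
          apply Finset.sum_congr rfl
          intro z _
          ring
        rw [e3] at hθl
        linarith
      · intro z hz
        rw [norm_pos_iff, sub_ne_zero]
        exact hθF z hz
      · intro z _
        have := hD0 z j
        positivity
    calc ‖esum 1 M c w‖ ≤ Real.exp (M * c1 * η) *
        (‖P.leadingCoeff‖ * ∏ z ∈ F, (D z j + A1 * η) ^ (m z)) := hU
      _ ≤ Real.exp (M * c1 * η) * (Real.exp (1 + A2 * ∑ z ∈ F, (m z : ℝ) * (η / (D z j + η))) *
          ‖esum 1 M c (θ : ℂ)‖) := mul_le_mul_of_nonneg_left hL (Real.exp_pos _).le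
      _ = Real.exp (M * c1 * η + 1 + A2 * ∑ z ∈ F, (m z : ℝ) * (η / (D z j + η))) *
          ‖esum 1 M c (θ : ℂ)‖ := by
        rw [← mul_assoc, ← Real.exp_add]
        congr 2
        ring
  · -- the sum
    have hlog : 1 ≤ Real.log (2 + n) := by
      rw [Real.le_log_iff_exp_le (by positivity)]
      have h3 : Real.exp 1 < 3 := lt_trans Real.exp_one_lt_d9 (by norm_num)
      have h4 : (1 : ℝ) ≤ n := by exact_mod_cast hn
      linarith
    have hnpos : (0 : ℝ) < n := by exact_mod_cast hn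
    have e1 : ∑ j ∈ Finset.range n,
        (M * c1 * η + 1 + A2 * ∑ z ∈ F, (m z : ℝ) * (η / (D z j + η))) =
        n * (M * c1 * η + 1) +
          A2 * ∑ z ∈ F, (m z : ℝ) * ∑ j ∈ Finset.range n, (η / (D z j + η)) := by
      rw [Finset.sum_add_distrib, Finset.sum_const, Finset.card_range, nsmul_eq_mul,
        ← Finset.mul_sum, Finset.sum_comm]
      congr 3
      funext z
      rw [Finset.mul_sum]
    rw [e1]
    have e2 : ∑ z ∈ F, (m z : ℝ) * ∑ j ∈ Finset.range n, (η / (D z j + η)) ≤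
        ∑ z ∈ F, (m z : ℝ) * (A * (n * η) * Real.log (2 + n)) := by
      apply Finset.sum_le_sum
      intro z _
      exact mul_le_mul_of_nonneg_left (hsum n η z hn hη hnη) (Nat.cast_nonneg _)
    rw [← Finset.sum_mul] at e2
    have e3 : (∑ z ∈ F, (m z : ℝ)) ≤ 2 * M := by exact_mod_cast hmM
    have e4 : (∑ z ∈ F, (m z : ℝ)) * (A * (n * η) * Real.log (2 + n)) ≤
        (2 * M) * (A * (n * η) * Real.log (2 + n)) :=
      mul_le_mul_of_nonneg_right e3 (by positivity)
    have e5 : (2 * (M : ℝ)) * (A * (n * η) * Real.log (2 + n)) ≤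
        2 * A * c0 * n * Real.log (2 + n) := by
      have : (2 * (M : ℝ)) * (A * (n * η) * Real.log (2 + n)) =
        (2 * A * n * Real.log (2 + n)) * (M * η) := by ring
      rw [this]
      have h6 := mul_le_mul_of_nonneg_left hMη
        (by positivity : 0 ≤ 2 * A * (n : ℝ) * Real.log (2 + n))
      linarith
    have e6 := mul_le_mul_of_nonneg_left (e2.trans (e4.trans e5)) hA2
    have e7 : (n : ℝ) * (M * c1 * η + 1) ≤ (c0 * c1 + 1) * n * Real.log (2 + n) := by
      have h7 : M * c1 * η + 1 ≤ c0 * c1 + 1 := by nlinarith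
      have h8 : (n : ℝ) * (M * c1 * η + 1) ≤ n * (c0 * c1 + 1) :=
        mul_le_mul_of_nonneg_left h7 hnpos.le
      have h9 : (n : ℝ) * (c0 * c1 + 1) * 1 ≤ n * (c0 * c1 + 1) * Real.log (2 + n) :=
        mul_le_mul_of_nonneg_left hlog (by positivity)
      linarith
    calc _ ≤ (c0 * c1 + 1) * n * Real.log (2 + n) +
        A2 * (2 * A * c0 * n * Real.log (2 + n)) := add_le_add e7 e6
      _ = _ := by ring

end Pool.Agent.R267.DI
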