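import Pool.Agent.R267.DI.Defs

set_option autoImplicit false
open Complex Real

/-!
# Project DI, second part: weak type bound for the doubling of trigonometric polynomials
See NOTES2.md.
-/
namespace Pool.Agent.R267.DI

/-- The point `exp (i θ)` of the unit circle. -/
noncomputable def pt (θ : ℝ) : ℂ := Complex.exp (Complex.I * (θ : ℂ))

/-- Roots at distance at most `B h` from `pt θ`. -/
noncomputable def nearS {D : ℕ} (z : Fin D → ℂ) (B h θ : ℝ) : Finset (Fin D) := by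
  classical exact Finset.univ.filter (fun k => ‖pt θ - z k‖ ≤ B * h)

/-- Roots at distance larger than `B h` from `pt θ`. -/
noncomputable def farS {D : ℕ} (z : Fin D → ℂ) (B h θ : ℝ) : Finset (Fin D) := by
  classical exact Finset.univ.filter (fun k => B * h < ‖pt θ - z k‖)

noncomputable def qN {D : ℕ} (z : Fin D → ℂ) (B h θ : ℝ) : ℝ := (nearS z B h θ).card
noncomputable def qQ {D : ℕ} (z : Fin D → ℂ) (B h θ : ℝ) : ℝ :=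
  ∑ k ∈ farS z B h θ, h ^ 2 / ‖pt θ - z k‖ ^ 2
noncomputable def qW {D : ℕ} (z : Fin D → ℂ) (B h θ : ℝ) : ℝ :=
  ∑ k ∈ farS z B h θ, h * |1 - ‖z k‖ ^ 2| / ‖pt θ - z k‖ ^ 2
noncomputable def qH {D : ℕ} (z : Fin D → ℂ) (B h θ : ℝ) : ℝ :=
  |(∑ k ∈ farS z B h θ, pt θ / (pt θ - z k)).im|

/-- (DI-BOOLE) Weak type estimate (Boole, Loomis) on the circle. -/
def S_BOOLE : Prop := ∀ (D : ℕ) (z : Fin D → ℂ) (t : ℝ), 0 < t →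
  MeasureTheory.volume {θ : ℝ | θ ∈ Set.Ioc 0 (2 * π) ∧ t < |(∑ k, pt θ / (pt θ - z k)).im|}
    ≤ ENNReal.ofReal (2 * π * D / t)

/-- (DI-LOC1) Local doubling of a product of linear factors. -/
def S_LOC1 : Prop := ∀ R0 : ℝ, 0 < R0 → ∃ B C : ℝ, 0 < B ∧ 0 < C ∧
  ∀ (D : ℕ) (z : Fin D → ℂ) (h θ0 : ℝ), 0 < h → h ≤ 1 →
  ∀ w : ℂ, ‖w - (θ0 : ℂ)‖ ≤ R0 * h → ∃ θ : ℝ, |θ - θ0| ≤ h ∧
    ∏ k, ‖Complex.exp (Complex.I * w) - z k‖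
      ≤ Real.exp (C * (1 + qN z B h θ0 + qQ z B h θ0 + qW z B h θ0 + h * qH z B h θ0 + h * D))
        * ∏ k, ‖pt θ - z k‖

/-- (DI-SUMS) `ℓ¹` bounds of the elementary quantities over the roots of unity. -/
def S_SUMS : Prop := ∀ B c3 c4 : ℝ, 0 < B → 0 < c3 → 0 < c4 → ∃ A : ℝ, 0 ≤ A ∧
  ∀ (D n : ℕ) (z : Fin D → ℂ) (h : ℝ), 0 < n → 0 < h → h ≤ 1 → c3 ≤ n * h → n * h ≤ c4 →
  ∑ j ∈ Finset.range n, (qN z B h (2 * π * j / n) + qQ z B h (2 * π * j / n)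
    + qW z B h (2 * π * j / n)) ≤ A * D

/-- (DI-HWK) Weak type bound of the far field. -/
def S_HWK : Prop := ∀ B c3 c4 c5 : ℝ, 0 < B → 0 < c3 → 0 < c4 → 0 < c5 → ∃ A : ℝ, 0 ≤ A ∧
  ∀ (D n : ℕ) (z : Fin D → ℂ) (h : ℝ), 0 < n → 0 < h → h ≤ 1 → c3 ≤ n * h → n * h ≤ c4 →
  h * D ≤ c5 → ∀ t : ℝ, 0 < t →
  (((Finset.range n).filter (fun j : ℕ => t < h * qH z B h (2 * π * j / n))).card : ℝ)
    ≤ A * (D + n) / t

/-- (DI-WEAK) Weak type bound for the doubling of trigonometric polynomials at the scale of their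
degree. -/
def S_WEAK : Prop := ∀ c0 c1 c2 : ℝ, 0 < c0 → 0 < c1 → 0 < c2 → ∃ A : ℝ, 0 ≤ A ∧
  ∀ (M n : ℕ) (η : ℝ), 0 < n → 0 < η → η ≤ c0 → M * η ≤ c0 → 2 * π ≤ n * η → n * η ≤ c2 →
  ∀ c : ℤ → ℂ, (∃ m ∈ Finset.Icc (-(M : ℤ)) (M : ℤ), c m ≠ 0) →
  ∃ J : ℕ → ℝ, (∀ j, 0 ≤ J j ∧ J j ≤ A * n) ∧
    (∀ j, j < n → ∀ w : ℂ, ‖w - ((2 * π * j / n : ℝ) : ℂ)‖ ≤ c1 * η →
      ∃ θ : ℝ, |θ - 2 * π * j / n| ≤ η ∧
        ‖esum 1 M c w‖ ≤ Real.exp (J j) * ‖esum 1 M c (θ : ℂ)‖) ∧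
    ∀ t : ℝ, 0 < t → (((Finset.range n).filter (fun j : ℕ => t < J j)).card : ℝ) ≤ A * n / t

end Pool.Agent.R267.DI
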