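import Pool.Agent.R267.DI.Grid
import Pool.Agent.R267.DI.Root
import Pool.Agent.R267.DI.Sum
import Pool.Agent.R267.DI.Trig
import Pool.Agent.R267.DI.Weak

set_option autoImplicit false
open Complex Real

namespace Pool.Agent.R267.DI

/-- Sum over the discs against sum over the cells. -/
theorem sum_cells {ι : Type} [Fintype ι] {S : Finset (ℕ × ℕ)} {cell : ι → ℕ × ℕ} {C1 : ℝ}
    (hcell : ∀ k, cell k ∈ S)
    (hfib : ∀ p : ℕ × ℕ, (((Finset.univ.filter (fun k => cell k = p)).card : ℕ) : ℝ) ≤ C1)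
    (G : ℕ × ℕ → ℝ) (hG : ∀ p, 0 ≤ G p) :
    ∑ k, G (cell k) ≤ C1 * ∑ p ∈ S, G p := by
  classical
  rw [← Finset.sum_fiberwise_of_maps_to (s := Finset.univ) (t := S) (g := cell)
    (fun k _ => hcell k), Finset.mul_sum]
  apply Finset.sum_le_sum
  intro p _
  calc ∑ k ∈ Finset.univ.filter (fun k => cell k = p), G (cell k)
      = ∑ k ∈ Finset.univ.filter (fun k => cell k = p), G p := by
        apply Finset.sum_congr rfl
        intro k hk
        rw [Finset.mem_filter] at hk
        rw [hk.2]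
    _ = ((Finset.univ.filter (fun k => cell k = p)).card : ℝ) * G p := by
        rw [Finset.sum_const, nsmul_eq_mul]
    _ ≤ C1 * G p := by
        have := hfib p
        have h2 := hG p
        gcongr

theorem average_log {ρ : ℝ → ℝ} {a b s : ℝ} (hρ : Continuous ρ) (ha : 0 < a) (hb : 0 < b)
    (hpos : ∀ x, 0 < ρ x) (hper : ∀ x, ρ (x + a) = ρ x) {C C1 C2 : ℝ} (hC : 0 < C) (hC1 : 0 < C1)
    (hC2 : 0 < C2) :
    ∃ A : ℝ, 0 ≤ A ∧ ∀ (lam : ℝ) (φ : ℝ → ℝ → ℝ), 0 < lam → IsEigenfunction ρ a b s lam φ →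
      ∀ (ι : Type) [Fintype ι] (c : ι → ℝ × ℝ), IsAdmissible ρ a b s lam φ C C1 C2 c →
      (∑ i, doublingIndex ρ a b s φ (c i) (C / Real.sqrt lam)) / Fintype.card ι
        ≤ A * Real.log (2 + lam) := by
  obtain ⟨ρ0, ρ1, hρ0, h0, h1⟩ := exists_bounds hρ ha hpos hper
  have hρ01 : ρ0 ≤ ρ1 := (h0 0).trans (h1 0)
  have hρ1 : 0 < ρ1 := lt_of_lt_of_le hρ0 hρ01
  have hs0 : 0 < Real.sqrt ρ0 := Real.sqrt_pos.2 hρ0
  have hs1 : 0 < Real.sqrt ρ1 := Real.sqrt_pos.2 hρ1
  have hsC2 : 0 < Real.sqrt C2 := Real.sqrt_pos.2 hC2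
  set c0 := C / 4 + 2 * π / b * (C * Real.sqrt C2 / (4 * Real.sqrt ρ1)) with hc0
  have hc00 : 0 < c0 := by positivity
  obtain ⟨A, hA0, hA⟩ := s_TRIG s_ROOT s_SUM c0 (32 * Real.sqrt ρ1 / Real.sqrt ρ0) hc00
    (by positivity)
  set L := Real.log (locA ρ0 ρ1 C) with hL
  have hL0 : 0 ≤ L := Real.log_nonneg (one_le_locA (ρ0 := ρ0) (ρ1 := ρ1) hC)
  have hlog2 : 0 < Real.log 2 := Real.log_pos (by norm_num)
  set B1 := 4 * a * Real.sqrt ρ1 / C + Real.sqrt C2 with hB1
  set B2 := 4 * b * Real.sqrt ρ1 / C + Real.sqrt C2 with hB2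
  have hB10 : 0 < B1 := by positivity
  have hB20 : 0 < B2 := by positivity
  set Bl := Real.log (2 + B2) / Real.log 2 + 1 with hBl
  have hBl0 : 0 ≤ Bl := by
    have : 0 ≤ Real.log (2 + B2) := Real.log_nonneg (by linarith)
    positivity
  refine ⟨C1 * (B1 * B2) * (L / Real.log 2 + 2 * A * Bl) / Real.log 2 * C2, by positivity, ?_⟩
  intro lam φ hlam h ι _ c hadm
  have hsl : 0 < Real.sqrt lam := Real.sqrt_pos.2 hlam
  -- lower bound for lam
  have hne : Nonempty ι := ⟨(hadm.covers (0, 0)).choose⟩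
  have hcard1 : (1 : ℝ) ≤ Fintype.card ι := by exact_mod_cast Fintype.card_pos
  have hlamC : 1 ≤ C2 * lam := hcard1.trans hadm.upper
  have hslC : 1 ≤ Real.sqrt C2 * Real.sqrt lam := by
    rw [← Real.sqrt_mul hC2.le]
    exact Real.one_le_sqrt.2 hlamC
  set e := C / Real.sqrt lam / Real.sqrt ρ1 / 4 with he
  have he0 : 0 < e := by positivity
  have hee : e ≤ C * Real.sqrt C2 / (4 * Real.sqrt ρ1) := by
    rw [he]
    have : C / Real.sqrt lam ≤ C * Real.sqrt C2 := by
      rw [div_le_iff₀ hsl]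
      nlinarith
    calc C / Real.sqrt lam / Real.sqrt ρ1 / 4 ≤ C * Real.sqrt C2 / Real.sqrt ρ1 / 4 := by gcongr
      _ = _ := by field_simp
  set nx := ⌈a / e⌉₊ with hnx
  set n := ⌈b / e⌉₊ with hn
  have hnx0 : 0 < nx := Nat.ceil_pos.2 (by positivity)
  have hn0 : 0 < n := Nat.ceil_pos.2 (by positivity)
  have hnx0' : (0 : ℝ) < nx := by exact_mod_cast hnx0
  have hn0' : (0 : ℝ) < n := by exact_mod_cast hn0
  have hnxe : a ≤ nx * e := by
    rw [← div_le_iff₀ he0]
    exact Nat.le_ceil _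
  have hne' : b ≤ n * e := by
    rw [← div_le_iff₀ he0]
    exact Nat.le_ceil _
  have hnxB : (nx : ℝ) ≤ B1 * Real.sqrt lam := by
    have h2 : (nx : ℝ) < a / e + 1 := Nat.ceil_lt_add_one (show 0 ≤ a / e by positivity)
    have h3 : a / e = 4 * a * Real.sqrt ρ1 / C * Real.sqrt lam := by
      rw [he]; field_simp
    rw [h3] at h2
    rw [hB1, add_mul]
    linarith
  have hnB : (n : ℝ) ≤ B2 * Real.sqrt lam := by
    have h2 : (n : ℝ) < b / e + 1 := Nat.ceil_lt_add_one (show 0 ≤ b / e by positivity)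
    have h3 : b / e = 4 * b * Real.sqrt ρ1 / C * Real.sqrt lam := by
      rw [he]; field_simp
    rw [h3] at h2
    rw [hB2, add_mul]
    linarith
  obtain ⟨J1, J2, cell, hP1, hP2, hJ1, hJ2, hcell, hfib, hloc⟩ := cells hρ ha hb hlam hρ0 h0 h1
    hper hC h c hadm nx n hnx0 hn0 hnxe hne'
    (fun J => ∑ j ∈ Finset.range n, J j ≤ A * n * Real.log (2 + n)) (by
      intro M cf hM
      have hη : 0 < 2 * π / b * e := by positivity
      by_cases hcf : ∃ m ∈ Finset.Icc (-(M : ℤ)) (M : ℤ), cf m ≠ 0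
      · obtain ⟨J, hJ0, hJd, hJs⟩ := hA M n (2 * π / b * e) hn0 hη (by
            rw [hc0]
            have : 2 * π / b * e ≤ 2 * π / b * (C * Real.sqrt C2 / (4 * Real.sqrt ρ1)) := by
              gcongr
            have : 0 < C / 4 := by positivity
            linarith) (by
            rw [hc0]
            have h5 : (M : ℝ) * (2 * π / b * e) ≤ C / 4 := by
              rw [Real.sqrt_mul hlam.le] at hM
              calc (M : ℝ) * (2 * π / b * e) = (2 * π / b * M) * e := by ring
                _ ≤ (Real.sqrt lam * Real.sqrt ρ1) * e := by gcongr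
                _ = C / 4 := by rw [he]; field_simp
            have : 0 < 2 * π / b * (C * Real.sqrt C2 / (4 * Real.sqrt ρ1)) := by positivity
            linarith) (by
            have : (n : ℝ) * (2 * π / b * e) = 2 * π / b * (n * e) := by ring
            rw [this]
            calc 2 * π = 2 * π / b * b := by field_simp
              _ ≤ 2 * π / b * (n * e) := by gcongr) cf hcf
        exact ⟨J, ⟨hJ0, hJd⟩, hJs⟩
      · push Not at hcf
        refine ⟨fun _ => 0, good_zero hη.le hcf, ?_⟩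
        have : 0 ≤ Real.log (2 + n) := Real.log_nonneg (by linarith)
        simp only [Finset.sum_const_zero]
        positivity)
  set G : ℕ × ℕ → ℝ := fun p => (L + J1 p.1 p.2 + J2 p.1 p.2) / Real.log 2 with hG
  have hG0 : ∀ p, 0 ≤ G p := by
    intro p
    have h2 := hJ1 p.1 p.2
    have h3 := hJ2 p.1 p.2
    simp only [hG]
    positivity
  have hsum1 : ∑ k, doublingIndex ρ a b s φ (c k) (C / Real.sqrt lam)
      ≤ C1 * ∑ p ∈ Finset.range nx ×ˢ Finset.range n, G p :=
    (Finset.sum_le_sum (fun k _ => hloc k)).trans (sum_cells hcell hfib G hG0)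
  have hsum2 : ∑ p ∈ Finset.range nx ×ˢ Finset.range n, G p
      ≤ nx * n * (L + 2 * A * Real.log (2 + n)) / Real.log 2 := by
    rw [Finset.sum_product]
    simp only [hG]
    calc ∑ i ∈ Finset.range nx, ∑ j ∈ Finset.range n, (L + J1 i j + J2 i j) / Real.log 2
        ≤ ∑ i ∈ Finset.range nx, (n * L + A * n * Real.log (2 + n)
            + A * n * Real.log (2 + n)) / Real.log 2 := by
          apply Finset.sum_le_sum
          intro i _
          rw [← Finset.sum_div]
          gcongr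
          rw [Finset.sum_add_distrib, Finset.sum_add_distrib, Finset.sum_const, Finset.card_range,
            nsmul_eq_mul]
          have h2 := hP1 i
          have h3 := hP2 i
          linarith
      _ = nx * n * (L + 2 * A * Real.log (2 + n)) / Real.log 2 := by
          rw [Finset.sum_const, Finset.card_range, nsmul_eq_mul]
          ring
  have hlogn : Real.log (2 + n) ≤ Bl * Real.log (2 + lam) := by
    have h2 : (2 : ℝ) + n ≤ (2 + B2) * (2 + lam) := by
      have h3 : Real.sqrt lam ≤ 1 + lam := by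
        nlinarith [Real.sq_sqrt hlam.le, sq_nonneg (Real.sqrt lam - 1)]
      nlinarith [mul_le_mul_of_nonneg_left h3 hB20.le]
    have h4 : Real.log (2 + n) ≤ Real.log (2 + B2) + Real.log (2 + lam) := by
      rw [← Real.log_mul (by positivity) (by positivity)]
      exact Real.log_le_log (by positivity) h2
    have h5 : Real.log 2 ≤ Real.log (2 + lam) := Real.log_le_log (by norm_num) (by linarith)
    have h6 : 0 ≤ Real.log (2 + B2) := Real.log_nonneg (by linarith)
    have h7 : Real.log (2 + B2) ≤ Real.log (2 + B2) / Real.log 2 * Real.log (2 + lam) := by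
      rw [div_mul_eq_mul_div, le_div_iff₀ hlog2]
      gcongr
    rw [hBl]
    linarith
  have hlog2lam : Real.log 2 ≤ Real.log (2 + lam) := Real.log_le_log (by norm_num) (by linarith)
  have hLl : L ≤ L / Real.log 2 * Real.log (2 + lam) := by
    rw [div_mul_eq_mul_div, le_div_iff₀ hlog2]
    gcongr
  have hnn : (nx : ℝ) * n ≤ B1 * B2 * lam := by
    calc (nx : ℝ) * n ≤ (B1 * Real.sqrt lam) * (B2 * Real.sqrt lam) := by gcongr
      _ = B1 * B2 * (Real.sqrt lam * Real.sqrt lam) := by ring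
      _ = B1 * B2 * lam := by rw [Real.mul_self_sqrt hlam.le]
  have hcardpos : (0 : ℝ) < Fintype.card ι := by linarith
  rw [div_le_iff₀ hcardpos]
  have hlamcard : lam ≤ C2 * Fintype.card ι := by
    have := hadm.lower
    rw [div_le_iff₀ hC2] at this
    linarith
  have hloglam0 : 0 ≤ Real.log (2 + lam) := hlog2.le.trans hlog2lam
  have hlogn0 : 0 ≤ Real.log (2 + n) := Real.log_nonneg (by linarith)
  calc ∑ k, doublingIndex ρ a b s φ (c k) (C / Real.sqrt lam)
      ≤ C1 * (nx * n * (L + 2 * A * Real.log (2 + n)) / Real.log 2) := by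
        refine hsum1.trans ?_
        gcongr
    _ ≤ C1 * ((B1 * B2 * lam) * (L / Real.log 2 * Real.log (2 + lam)
          + 2 * A * (Bl * Real.log (2 + lam))) / Real.log 2) := by
        gcongr
    _ = C1 * (B1 * B2) * (L / Real.log 2 + 2 * A * Bl) / Real.log 2 * lam
          * Real.log (2 + lam) := by ring
    _ ≤ C1 * (B1 * B2) * (L / Real.log 2 + 2 * A * Bl) / Real.log 2 * (C2 * Fintype.card ι)
          * Real.log (2 + lam) := by
        gcongr
    _ = _ := by ring

end Pool.Agent.R267.DI
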