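import Pool.Agent.R267.DI.Defs

set_option autoImplicit false

/-!
# Project DI, piece DI-CK (helper165)
-/

namespace Pool.Agent.R267.DI

namespace CK

open Complex Set

/-- `sinh (k t) / k`, with value `t` for `k = 0`. -/
noncomputable def sk (k t : ℝ) : ℝ := if k = 0 then t else Real.sinh (k * t) / k

lemma sk_zero (k : ℝ) : sk k 0 = 0 := by
  unfold sk
  split_ifs <;> simp

lemma mul_sk (k t : ℝ) : k * sk k t = Real.sinh (k * t) := by
  unfold sk
  split_ifs with h
  · simp [h]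
  · field_simp

lemma hasDerivAt_sk (k t : ℝ) : HasDerivAt (sk k) (Real.cosh (k * t)) t := by
  unfold sk
  by_cases h : k = 0
  · subst h
    simp only [if_true, zero_mul, Real.cosh_zero]
    exact hasDerivAt_id' t
  · simp only [h, if_false]
    have h1 : HasDerivAt (fun t : ℝ => k * t) k t := by
      simpa using (hasDerivAt_id t).const_mul k
    have h2 := (h1.sinh).div_const k
    have e : Real.cosh (k * t) * k / k = Real.cosh (k * t) := by
      rw [mul_div_assoc, div_self h, mul_one]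
    rw [e] at h2
    exact h2

lemma hasDerivAt_cosh (k t : ℝ) :
    HasDerivAt (fun t : ℝ => Real.cosh (k * t)) (k ^ 2 * sk k t) t := by
  have h1 : HasDerivAt (fun t : ℝ => k * t) k t := by
    simpa using (hasDerivAt_id t).const_mul k
  refine h1.cosh.congr_deriv ?_
  rw [← mul_sk]
  ring

lemma hasDerivAt_esum (κ : ℝ) (M : ℕ) (c : ℤ → ℝ → ℂ) (c' : ℤ → ℂ) (w : ℂ) (s : ℝ)
    (h : ∀ m, HasDerivAt (c m) (c' m) s) :
    HasDerivAt (fun s => esum κ M (fun m => c m s) w) (esum κ M c' w) s := by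
  unfold esum
  apply HasDerivAt.fun_sum
  intro m _
  exact (h m).mul_const _

lemma esum_cosh (κ : ℝ) (M : ℕ) (c : ℤ → ℂ) (w : ℂ) (t : ℝ) :
    esum κ M (fun m => c m * ((Real.cosh (κ * m * t) : ℝ) : ℂ)) w
      = (esum κ M c (w - Complex.I * t) + esum κ M c (w + Complex.I * t)) / 2 := by
  unfold esum
  rw [← Finset.sum_add_distrib, Finset.sum_div]
  refine Finset.sum_congr rfl fun m _ => ?_
  have e1 : Complex.I * ((κ * m : ℝ) : ℂ) * (w - Complex.I * t)
      = Complex.I * ((κ * m : ℝ) : ℂ) * w + ((κ * m * t : ℝ) : ℂ) := by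
    push_cast
    ring_nf
    rw [Complex.I_sq]
    ring
  have e2 : Complex.I * ((κ * m : ℝ) : ℂ) * (w + Complex.I * t)
      = Complex.I * ((κ * m : ℝ) : ℂ) * w + -((κ * m * t : ℝ) : ℂ) := by
    push_cast
    ring_nf
    rw [Complex.I_sq]
    ring
  beta_reduce
  rw [e1, e2, Complex.exp_add, Complex.exp_add, Complex.ofReal_cosh, Complex.cosh]
  ring

lemma norm_cosh_le (κ : ℝ) (M : ℕ) (c : ℤ → ℂ) (w : ℂ) (t B : ℝ)
    (h1 : ‖esum κ M c (w - Complex.I * t)‖ ≤ B) (h2 : ‖esum κ M c (w + Complex.I * t)‖ ≤ B) :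
    ‖esum κ M (fun m => c m * ((Real.cosh (κ * m * t) : ℝ) : ℂ)) w‖ ≤ B := by
  rw [esum_cosh, norm_div]
  have h3 := norm_add_le (esum κ M c (w - Complex.I * t)) (esum κ M c (w + Complex.I * t))
  have h4 : ‖(2 : ℂ)‖ = 2 := by simp
  rw [h4]
  linarith

lemma norm_sk_le (κ : ℝ) (M : ℕ) (c : ℤ → ℂ) (w : ℂ) (t B : ℝ) (ht : 0 ≤ t)
    (h1 : ∀ σ, 0 ≤ σ → σ ≤ t → ‖esum κ M c (w - Complex.I * (σ : ℝ))‖ ≤ B)
    (h2 : ∀ σ, 0 ≤ σ → σ ≤ t → ‖esum κ M c (w + Complex.I * (σ : ℝ))‖ ≤ B) :
    ‖esum κ M (fun m => c m * ((sk (κ * m) t : ℝ) : ℂ)) w‖ ≤ B * t := by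
  have hd : ∀ σ : ℝ, HasDerivAt (fun σ => esum κ M (fun m => c m * ((sk (κ * m) σ : ℝ) : ℂ)) w)
      (esum κ M (fun m => c m * ((Real.cosh (κ * m * σ) : ℝ) : ℂ)) w) σ := by
    intro σ
    apply hasDerivAt_esum κ M (fun m σ => c m * ((sk (κ * m) σ : ℝ) : ℂ))
    intro m
    exact ((hasDerivAt_sk (κ * m) σ).ofReal_comp).const_mul (c m)
  have h3 := norm_image_sub_le_of_norm_deriv_le_segment' (a := 0) (b := t) (C := B)
    (f := fun σ => esum κ M (fun m => c m * ((sk (κ * m) σ : ℝ) : ℂ)) w)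
    (fun σ _ => (hd σ).hasDerivWithinAt)
    (fun σ hσ => norm_cosh_le κ M c w σ B (h1 σ hσ.1 hσ.2.le) (h2 σ hσ.1 hσ.2.le))
    t ⟨ht, le_refl t⟩
  have h4 : esum κ M (fun m => c m * ((sk (κ * m) 0 : ℝ) : ℂ)) w = 0 := by
    unfold esum
    apply Finset.sum_eq_zero
    intro m _
    beta_reduce
    rw [sk_zero]
    simp
  rw [h4, sub_zero, sub_zero] at h3
  exact h3

lemma esum_smul (κ : ℝ) (M : ℕ) (a : ℂ) (c : ℤ → ℂ) (w : ℂ) :
    esum κ M (fun m => a * c m) w = a * esum κ M c w := by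
  unfold esum
  rw [Finset.mul_sum]
  refine Finset.sum_congr rfl fun m _ => ?_
  ring

lemma esum_add (κ : ℝ) (M : ℕ) (c d : ℤ → ℂ) (w : ℂ) :
    esum κ M (fun m => c m + d m) w = esum κ M c w + esum κ M d w := by
  unfold esum
  rw [← Finset.sum_add_distrib]
  refine Finset.sum_congr rfl fun m _ => ?_
  ring

lemma half (κ Q : ℝ) (M : ℕ) (q : ℝ → ℝ) (u u' : ℤ → ℝ → ℂ) (hQ : 0 < Q) (hq : ∀ x, |q x| ≤ Q)
    (hu : ∀ m x, HasDerivAt (u m) (u' m x) x)
    (hu' : ∀ m x, HasDerivAt (u' m) ((((κ * m) ^ 2 - q x : ℝ) : ℂ) * u m x) x)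
    (x0 R K0 K1 : ℝ) (y0 : ℂ)
    (h0 : ∀ w : ℂ, ‖w - y0‖ ≤ R → ‖esum κ M (fun m => u m x0) w‖ ≤ K0)
    (h1 : ∀ w : ℂ, ‖w - y0‖ ≤ R → ‖esum κ M (fun m => u' m x0) w‖ ≤ K1)
    (x : ℝ) (w : ℂ) (hx : x0 ≤ x) (hR : (x - x0) + ‖w - y0‖ ≤ R) :
    ‖esum κ M (fun m => u m x) w‖ ≤ 2 * Real.exp (Real.sqrt (2 * Q) * (x - x0)) * (K0 + R * K1) := by
  have hR0 : 0 ≤ R := le_trans (add_nonneg (sub_nonneg.2 hx) (norm_nonneg _)) hR
  set α : ℝ := Real.sqrt (2 * Q) with hα
  have hαp : 0 < α := Real.sqrt_pos.2 (by linarith)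
  have hα2 : α ^ 2 = 2 * Q := Real.sq_sqrt (by linarith)
  have hK0 : 0 ≤ K0 := le_trans (norm_nonneg _) (h0 y0 (by simpa using hR0))
  have hK1 : 0 ≤ K1 := le_trans (norm_nonneg _) (h1 y0 (by simpa using hR0))
  -- the compact half cone
  let G : Set (ℝ × ℂ) := {p | x0 ≤ p.1 ∧ (p.1 - x0) + ‖p.2 - y0‖ ≤ R}
  have hGc : IsClosed G := by
    apply IsClosed.inter
    · exact isClosed_le continuous_const continuous_fst
    · exact isClosed_le (f := fun p : ℝ × ℂ => (p.1 - x0) + ‖p.2 - y0‖) (by fun_prop)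
        continuous_const
  have hGb : G ⊆ Icc x0 (x0 + R) ×ˢ Metric.closedBall y0 R := by
    rintro ⟨s, v⟩ ⟨ha, hb⟩
    simp only at ha hb
    refine ⟨⟨ha, ?_⟩, ?_⟩
    · have := norm_nonneg (v - y0)
      simp only
      linarith
    · rw [Metric.mem_closedBall, dist_eq_norm]
      simp only
      linarith
  have hG : IsCompact G :=
    (isCompact_Icc.prod (isCompact_closedBall y0 R)).of_isClosed_subset hGc hGb
  have hGn : G.Nonempty := ⟨(x, w), hx, hR⟩
  have huc : ∀ m, Continuous (u m) := fun m =>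
    continuous_iff_continuousAt.2 fun x => (hu m x).continuousAt
  have hΦ : Continuous (fun p : ℝ × ℂ => esum κ M (fun m => u m p.1) p.2) := by
    unfold esum
    apply continuous_finsetSum
    intro m _
    have := huc m
    fun_prop
  have hF : Continuous (fun p : ℝ × ℂ => Real.exp (-(α * (p.1 - x0))) *
      ‖esum κ M (fun m => u m p.1) p.2‖) := by
    have := hΦ.norm
    fun_prop
  obtain ⟨⟨x1, w1⟩, ⟨hx1, hw1⟩, hmax⟩ := hG.exists_isMaxOn hGn hF.continuousOn
  simp only at hx1 hw1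
  set S : ℝ := Real.exp (-(α * (x1 - x0))) * ‖esum κ M (fun m => u m x1) w1‖ with hS
  have hS0 : 0 ≤ S := mul_nonneg (Real.exp_nonneg _) (norm_nonneg _)
  have hbd : ∀ (s : ℝ) (v : ℂ), x0 ≤ s → (s - x0) + ‖v - y0‖ ≤ R →
      ‖esum κ M (fun m => u m s) v‖ ≤ S * Real.exp (α * (s - x0)) := by
    intro s v hs hv
    have := hmax (show (s, v) ∈ G from ⟨hs, hv⟩)
    simp only [Set.mem_ofPred_eq] at this
    rw [← hS] at this
    have h2 : ‖esum κ M (fun m => u m s) v‖
        = Real.exp (-(α * (s - x0))) * ‖esum κ M (fun m => u m s) v‖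
          * Real.exp (α * (s - x0)) := by
      rw [mul_right_comm, ← Real.exp_add]
      simp
    rw [h2]
    exact mul_le_mul_of_nonneg_right this (Real.exp_nonneg _)
  -- the representation
  let Z : ℝ → ℂ := fun s => esum κ M (fun m => u m s * ((Real.cosh (κ * m * (x1 - s)) : ℝ) : ℂ)
    + u' m s * ((sk (κ * m) (x1 - s) : ℝ) : ℂ)) w1
  have hZ : ∀ s, HasDerivAt Z
      (-(q s : ℂ) * esum κ M (fun m => u m s * ((sk (κ * m) (x1 - s) : ℝ) : ℂ)) w1) s := by
    intro s
    rw [← esum_smul]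
    apply hasDerivAt_esum κ M (fun m s => u m s * ((Real.cosh (κ * m * (x1 - s)) : ℝ) : ℂ)
      + u' m s * ((sk (κ * m) (x1 - s) : ℝ) : ℂ))
    intro m
    have e0 : HasDerivAt (fun s : ℝ => x1 - s) (-1) s := by
      simpa using (hasDerivAt_id s).const_sub x1
    have e1 : HasDerivAt (fun s : ℝ => Real.cosh (κ * m * (x1 - s)))
        ((κ * m) ^ 2 * sk (κ * m) (x1 - s) * (-1)) s :=
      (hasDerivAt_cosh (κ * m) (x1 - s)).comp s e0
    have e2 : HasDerivAt (fun s : ℝ => sk (κ * m) (x1 - s))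
        (Real.cosh (κ * m * (x1 - s)) * (-1)) s :=
      (hasDerivAt_sk (κ * m) (x1 - s)).comp s e0
    have e3 := ((hu m s).mul e1.ofReal_comp).add ((hu' m s).mul e2.ofReal_comp)
    refine e3.congr_deriv ?_
    push_cast
    ring
  have hZx : Z x1 = esum κ M (fun m => u m x1) w1 := by
    simp only [Z]
    congr 1
    funext m
    simp [sk_zero]
  have hZ0 : ‖Z x0‖ ≤ K0 + R * K1 := by
    simp only [Z]
    rw [esum_add]
    refine le_trans (norm_add_le _ _) (add_le_add ?_ ?_)
    · apply norm_cosh_le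
      · apply h0
        have e : w1 - Complex.I * ((x1 - x0 : ℝ) : ℂ) - y0
            = (w1 - y0) - Complex.I * ((x1 - x0 : ℝ) : ℂ) := by ring
        rw [e]
        refine le_trans (norm_sub_le _ _) ?_
        rw [norm_mul, Complex.norm_I, one_mul, Complex.norm_real, Real.norm_eq_abs,
          abs_of_nonneg (sub_nonneg.2 hx1)]
        linarith
      · apply h0
        have e : w1 + Complex.I * ((x1 - x0 : ℝ) : ℂ) - y0
            = (w1 - y0) + Complex.I * ((x1 - x0 : ℝ) : ℂ) := by ring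
        rw [e]
        refine le_trans (norm_add_le _ _) ?_
        rw [norm_mul, Complex.norm_I, one_mul, Complex.norm_real, Real.norm_eq_abs,
          abs_of_nonneg (sub_nonneg.2 hx1)]
        linarith
    · have h3 : ‖esum κ M (fun m => u' m x0 * ((sk (κ * m) (x1 - x0) : ℝ) : ℂ)) w1‖
          ≤ K1 * (x1 - x0) := by
        apply norm_sk_le κ M (fun m => u' m x0) w1 (x1 - x0) K1 (sub_nonneg.2 hx1)
        · intro σ hσ1 hσ2
          apply h1
          have e : w1 - Complex.I * (σ : ℂ) - y0 = (w1 - y0) - Complex.I * (σ : ℂ) := by ring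
          rw [e]
          refine le_trans (norm_sub_le _ _) ?_
          rw [norm_mul, Complex.norm_I, one_mul, Complex.norm_real, Real.norm_eq_abs,
            abs_of_nonneg hσ1]
          linarith
        · intro σ hσ1 hσ2
          apply h1
          have e : w1 + Complex.I * (σ : ℂ) - y0 = (w1 - y0) + Complex.I * (σ : ℂ) := by ring
          rw [e]
          refine le_trans (norm_add_le _ _) ?_
          rw [norm_mul, Complex.norm_I, one_mul, Complex.norm_real, Real.norm_eq_abs,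
            abs_of_nonneg hσ1]
          linarith
      have h4 : x1 - x0 ≤ R := by
        have := norm_nonneg (w1 - y0)
        linarith
      nlinarith
  have hZ' : ∀ s ∈ Ico x0 x1,
      ‖-(q s : ℂ) * esum κ M (fun m => u m s * ((sk (κ * m) (x1 - s) : ℝ) : ℂ)) w1‖
        ≤ Q * S * ((x1 - s) * Real.exp (α * (s - x0))) := by
    intro s hs
    have h3 : ‖esum κ M (fun m => u m s * ((sk (κ * m) (x1 - s) : ℝ) : ℂ)) w1‖
        ≤ S * Real.exp (α * (s - x0)) * (x1 - s) := by
      apply norm_sk_le κ M (fun m => u m s) w1 (x1 - s) _ (sub_nonneg.2 hs.2.le)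
      · intro σ hσ1 hσ2
        apply hbd s _ hs.1
        have e : w1 - Complex.I * (σ : ℂ) - y0 = (w1 - y0) - Complex.I * (σ : ℂ) := by ring
        rw [e]
        have h5 := norm_sub_le (w1 - y0) (Complex.I * (σ : ℂ))
        rw [norm_mul, Complex.norm_I, one_mul, Complex.norm_real, Real.norm_eq_abs,
          abs_of_nonneg hσ1] at h5
        linarith
      · intro σ hσ1 hσ2
        apply hbd s _ hs.1
        have e : w1 + Complex.I * (σ : ℂ) - y0 = (w1 - y0) + Complex.I * (σ : ℂ) := by ring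
        rw [e]
        have h5 := norm_add_le (w1 - y0) (Complex.I * (σ : ℂ))
        rw [norm_mul, Complex.norm_I, one_mul, Complex.norm_real, Real.norm_eq_abs,
          abs_of_nonneg hσ1] at h5
        linarith
    rw [norm_mul, norm_neg, Complex.norm_real, Real.norm_eq_abs]
    have h6 : 0 ≤ S * Real.exp (α * (s - x0)) * (x1 - s) :=
      mul_nonneg (mul_nonneg hS0 (Real.exp_nonneg _)) (sub_nonneg.2 hs.2.le)
    calc |q s| * ‖esum κ M (fun m => u m s * ((sk (κ * m) (x1 - s) : ℝ) : ℂ)) w1‖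
        ≤ Q * (S * Real.exp (α * (s - x0)) * (x1 - s)) :=
          mul_le_mul (hq s) h3 (norm_nonneg _) hQ.le
      _ = Q * S * ((x1 - s) * Real.exp (α * (s - x0))) := by ring
  -- the comparison function
  let B : ℝ → ℝ := fun s => (K0 + R * K1) + Q * S *
    (((x1 - s) / α + 1 / α ^ 2) * Real.exp (α * (s - x0)) - ((x1 - x0) / α + 1 / α ^ 2))
  have hB : ∀ s, HasDerivAt B (Q * S * ((x1 - s) * Real.exp (α * (s - x0)))) s := by
    intro s
    have e0 : HasDerivAt (fun s : ℝ => (x1 - s) / α + 1 / α ^ 2) (-1 / α) s := by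
      have := (((hasDerivAt_id s).const_sub x1).div_const α).add_const (1 / α ^ 2)
      simpa using this
    have e1 : HasDerivAt (fun s : ℝ => Real.exp (α * (s - x0)))
        (Real.exp (α * (s - x0)) * α) s := by
      have h7 : HasDerivAt (fun s : ℝ => α * (s - x0)) α s := by
        simpa using ((hasDerivAt_id s).sub_const x0).const_mul α
      exact h7.exp
    have e2 := (((e0.mul e1).sub_const ((x1 - x0) / α + 1 / α ^ 2)).const_mul (Q * S)).const_add
      (K0 + R * K1)
    refine e2.congr_deriv ?_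
    field_simp
    ring
  have hB0 : ‖Z x0‖ ≤ B x0 := by
    simp only [B, sub_self, mul_zero, Real.exp_zero, mul_one, add_zero]
    exact hZ0
  have hcomp := image_norm_le_of_norm_deriv_right_le_deriv_boundary
    (f := Z) (a := x0) (b := x1)
    (f' := fun s => -(q s : ℂ) * esum κ M (fun m => u m s * ((sk (κ * m) (x1 - s) : ℝ) : ℂ)) w1)
    (fun s _ => (hZ s).continuousAt.continuousWithinAt)
    (fun s _ => (hZ s).hasDerivWithinAt) hB0 hB hZ' (x := x1) ⟨hx1, le_refl _⟩
  rw [hZx] at hcomp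
  have hBx : B x1 ≤ (K0 + R * K1) + S * Real.exp (α * (x1 - x0)) / 2 := by
    have e1 : Q * S * (((x1 - x1) / α + 1 / α ^ 2) * Real.exp (α * (x1 - x0)))
        = S * Real.exp (α * (x1 - x0)) / 2 := by
      rw [hα2]
      field_simp
      ring
    have e2 : 0 ≤ Q * S * ((x1 - x0) / α + 1 / α ^ 2) := by
      have := sub_nonneg.2 hx1
      positivity
    have e3 : B x1 = (K0 + R * K1) +
        (Q * S * (((x1 - x1) / α + 1 / α ^ 2) * Real.exp (α * (x1 - x0)))
          - Q * S * ((x1 - x0) / α + 1 / α ^ 2)) := by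
      simp only [B]
      ring
    rw [e3, e1]
    linarith
  have hfin : S ≤ 2 * (K0 + R * K1) := by
    have h8 : S ≤ Real.exp (-(α * (x1 - x0))) *
        ((K0 + R * K1) + S * Real.exp (α * (x1 - x0)) / 2) := by
      rw [hS]
      exact mul_le_mul_of_nonneg_left (hcomp.trans hBx) (Real.exp_nonneg _)
    have h9 : Real.exp (-(α * (x1 - x0))) * (S * Real.exp (α * (x1 - x0)) / 2) = S / 2 := by
      have : Real.exp (-(α * (x1 - x0))) * Real.exp (α * (x1 - x0)) = 1 := by
        rw [← Real.exp_add]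
        simp
      calc Real.exp (-(α * (x1 - x0))) * (S * Real.exp (α * (x1 - x0)) / 2)
          = S / 2 * (Real.exp (-(α * (x1 - x0))) * Real.exp (α * (x1 - x0))) := by ring
        _ = S / 2 := by rw [this, mul_one]
    have h10 : Real.exp (-(α * (x1 - x0))) * (K0 + R * K1) ≤ K0 + R * K1 := by
      have h11 : Real.exp (-(α * (x1 - x0))) ≤ 1 := by
        rw [Real.exp_le_one_iff]
        have := mul_nonneg hαp.le (sub_nonneg.2 hx1)
        linarith
      have h12 : 0 ≤ K0 + R * K1 := by positivity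
      calc Real.exp (-(α * (x1 - x0))) * (K0 + R * K1) ≤ 1 * (K0 + R * K1) :=
            mul_le_mul_of_nonneg_right h11 h12
        _ = K0 + R * K1 := one_mul _
    rw [mul_add, h9] at h8
    linarith
  calc ‖esum κ M (fun m => u m x) w‖ ≤ S * Real.exp (α * (x - x0)) := hbd x w hx hR
    _ ≤ 2 * (K0 + R * K1) * Real.exp (α * (x - x0)) :=
        mul_le_mul_of_nonneg_right hfin (Real.exp_nonneg _)
    _ = 2 * Real.exp (α * (x - x0)) * (K0 + R * K1) := by ring

end CK

open CK in
theorem s_CK : S_CK := by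
  intro κ Q M q u u' hQ _ hq hu hu' x0 y0 R K0 K1 h0 h1 x y hR
  have hy : ‖(y : ℂ) - (y0 : ℂ)‖ = |y - y0| := by
    rw [← Complex.ofReal_sub, Complex.norm_real, Real.norm_eq_abs]
  rcases le_total x0 x with hx | hx
  · rw [abs_of_nonneg (sub_nonneg.2 hx)] at hR ⊢
    exact half κ Q M q u u' hQ hq hu hu' x0 R K0 K1 y0 h0 h1 x y hx (by rw [hy]; exact hR)
  · have hx' : |x - x0| = (2 * x0 - x) - x0 := by
      rw [abs_of_nonpos (sub_nonpos.2 hx)]
      ring
    rw [hx'] at hR ⊢
    have hd : ∀ s : ℝ, HasDerivAt (fun s : ℝ => 2 * x0 - s) (-1) s := by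
      intro s
      simpa using (hasDerivAt_id s).const_sub (2 * x0)
    have key := half κ Q M (fun s => q (2 * x0 - s)) (fun m s => u m (2 * x0 - s))
      (fun m s => -u' m (2 * x0 - s)) hQ (fun s => hq _)
      (by
        intro m s
        have := (hu m (2 * x0 - s)).scomp s (hd s)
        refine this.congr_deriv ?_
        simp)
      (by
        intro m s
        have := ((hu' m (2 * x0 - s)).scomp s (hd s)).neg
        refine this.congr_deriv ?_
        simp)
      x0 R K0 K1 y0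
      (by
        intro w hw
        have e : 2 * x0 - x0 = x0 := by ring
        rw [e]
        exact h0 w hw)
      (by
        intro w hw
        have e : 2 * x0 - x0 = x0 := by ring
        have e2 : esum κ M (fun m => -u' m (2 * x0 - x0)) w
            = -esum κ M (fun m => u' m x0) w := by
          rw [e]
          unfold esum
          rw [← Finset.sum_neg_distrib]
          refine Finset.sum_congr rfl fun m _ => ?_
          ring
        rw [e2, norm_neg]
        exact h1 w hw)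
      (2 * x0 - x) y (by linarith) (by rw [hy]; exact hR)
    have e : 2 * x0 - (2 * x0 - x) = x := by ring
    rw [e] at key
    exact key

end Pool.Agent.R267.DI
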