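import Pool.Agent.R267.DI.Defs

/-!
# Piece DI-FOU (helper325): Fourier decomposition of eigenfunctions on a torus
-/

set_option autoImplicit false

open Complex Real MeasureTheory Filter Topology

namespace Pool.Agent.R267.DI.Fou

/-- first partial derivative -/
noncomputable def D1 (G : ℝ × ℝ → ℝ) (p : ℝ × ℝ) : ℝ := fderiv ℝ G p (1, 0)
/-- second partial derivative -/
noncomputable def D2 (G : ℝ × ℝ → ℝ) (p : ℝ × ℝ) : ℝ := fderiv ℝ G p (0, 1)

theorem hasDerivAt_D1 {G : ℝ × ℝ → ℝ} (hG : ContDiff ℝ 1 G) (x y : ℝ) :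
    HasDerivAt (fun t => G (t, y)) (D1 G (x, y)) x := by
  have h1 := ((hG.differentiable one_ne_zero) (x, y)).hasFDerivAt
  have h2 : HasDerivAt (fun t : ℝ => (t, y)) ((1 : ℝ), (0 : ℝ)) x :=
    (hasDerivAt_id x).prodMk (hasDerivAt_const x y)
  exact h1.comp_hasDerivAt x h2

theorem hasDerivAt_D2 {G : ℝ × ℝ → ℝ} (hG : ContDiff ℝ 1 G) (x y : ℝ) :
    HasDerivAt (fun t => G (x, t)) (D2 G (x, y)) y := by
  have h1 := ((hG.differentiable one_ne_zero) (x, y)).hasFDerivAt
  have h2 : HasDerivAt (fun t : ℝ => (x, t)) ((0 : ℝ), (1 : ℝ)) y :=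
    (hasDerivAt_const y x).prodMk (hasDerivAt_id y)
  exact h1.comp_hasDerivAt y h2

theorem contDiff_D1 {G : ℝ × ℝ → ℝ} {n : ℕ} (hG : ContDiff ℝ (n + 1 : ℕ) G) :
    ContDiff ℝ n (D1 G) := by
  unfold D1
  exact (hG.fderiv_right (m := n) (by norm_cast)).clm_apply contDiff_const

theorem contDiff_D2 {G : ℝ × ℝ → ℝ} {n : ℕ} (hG : ContDiff ℝ (n + 1 : ℕ) G) :
    ContDiff ℝ n (D2 G) := by
  unfold D2
  exact (hG.fderiv_right (m := n) (by norm_cast)).clm_apply contDiff_const

/-- differentiation under the integral -/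
theorem hasDerivAt_coef {G : ℝ × ℝ → ℝ} (hG : ContDiff ℝ 1 G) {e : ℝ → ℂ} (he : Continuous e)
    (b x : ℝ) :
    HasDerivAt (fun x => ∫ y in (0 : ℝ)..b, (G (x, y) : ℂ) * e y)
      (∫ y in (0 : ℝ)..b, (D1 G (x, y) : ℂ) * e y) x := by
  have hGc : Continuous G := hG.continuous
  have hDc : Continuous (D1 G) := (contDiff_D1 (n := 0) (by exact_mod_cast hG)).continuous
  have hc : Continuous fun p : ℝ × ℝ => (D1 G p : ℂ) * e p.2 :=
    (continuous_ofReal.comp hDc).mul (he.comp continuous_snd)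
  obtain ⟨C, hC⟩ := (isCompact_Icc (a := x - 1) (b := x + 1)).prod
    (isCompact_uIcc (a := (0 : ℝ)) (b := b)) |>.exists_bound_of_continuousOn
    (f := fun p : ℝ × ℝ => (D1 G p : ℂ) * e p.2) hc.continuousOn
  have hs : Set.Icc (x - 1) (x + 1) ∈ 𝓝 x := Icc_mem_nhds (by linarith) (by linarith)
  have hcF : ∀ x : ℝ, Continuous fun y : ℝ => (G (x, y) : ℂ) * e y := fun x =>
    (continuous_ofReal.comp (hGc.comp (continuous_const.prodMk continuous_id))).mul he
  have hcF' : ∀ x : ℝ, Continuous fun y : ℝ => (D1 G (x, y) : ℂ) * e y := fun x =>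
    (continuous_ofReal.comp (hDc.comp (continuous_const.prodMk continuous_id))).mul he
  refine (intervalIntegral.hasDerivAt_integral_of_dominated_loc_of_deriv_le
    (F := fun x y => (G (x, y) : ℂ) * e y) (F' := fun x y => (D1 G (x, y) : ℂ) * e y)
    (bound := fun _ => C) hs ?_ ?_ ?_ ?_ ?_ ?_).2
  · exact Eventually.of_forall fun x => (hcF x).aestronglyMeasurable
  · exact (hcF x).intervalIntegrable _ _
  · exact (hcF' x).aestronglyMeasurable
  · refine Eventually.of_forall fun y hy x' hx' => ?_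
    exact hC (x', y) ⟨hx', Set.uIoc_subset_uIcc hy⟩
  · exact intervalIntegrable_const
  · refine Eventually.of_forall fun y _ x' _ => ?_
    exact ((hasDerivAt_D1 hG x' y).ofReal_comp).mul_const (e y)

/-- the exponential -/
noncomputable def ex (k : ℝ) (y : ℝ) : ℂ := Complex.exp (-(Complex.I * (k : ℂ) * (y : ℂ)))

theorem continuous_ex (k : ℝ) : Continuous (ex k) := by
  unfold ex
  fun_prop

theorem hasDerivAt_ex (k y : ℝ) : HasDerivAt (ex k) (-(Complex.I * (k : ℂ)) * ex k y) y := by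
  unfold ex
  have h1 : HasDerivAt (fun y : ℝ => -(Complex.I * (k : ℂ) * (y : ℂ))) (-(Complex.I * (k : ℂ))) y := by
    have := ((hasDerivAt_id y).ofReal_comp).const_mul (-(Complex.I * (k : ℂ)))
    simpa using this
  exact h1.cexp.congr_deriv (mul_comm _ _)

/-- two integrations by parts -/
theorem int_parts {h h1 h2 : ℝ → ℝ} {b k : ℝ} (hd1 : ∀ y, HasDerivAt h (h1 y) y)
    (hd2 : ∀ y, HasDerivAt h1 (h2 y) y) (hc2 : Continuous h2) (hb : h b = h 0) (hb1 : h1 b = h1 0)
    (hk : ex k b = 1) :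
    ∫ y in (0 : ℝ)..b, (h2 y : ℂ) * ex k y = -((k : ℂ) ^ 2) * ∫ y in (0 : ℝ)..b, (h y : ℂ) * ex k y := by
  have hc : Continuous h := continuous_iff_continuousAt.2 fun y => (hd1 y).continuousAt
  have hc1 : Continuous h1 := continuous_iff_continuousAt.2 fun y => (hd2 y).continuousAt
  have he0 : ex k 0 = 1 := by simp [ex]
  have step : ∀ (g g' : ℝ → ℝ), (∀ y, HasDerivAt g (g' y) y) → Continuous g' → g b = g 0 →
      ∫ y in (0 : ℝ)..b, (g' y : ℂ) * ex k y = (Complex.I * (k : ℂ)) *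
        ∫ y in (0 : ℝ)..b, (g y : ℂ) * ex k y := by
    intro g g' hg hg' hgb
    have hgc : Continuous g := continuous_iff_continuousAt.2 fun y => (hg y).continuousAt
    have h3 := intervalIntegral.integral_mul_deriv_eq_deriv_mul (a := 0) (b := b)
      (u := fun y => (g y : ℂ)) (u' := fun y => (g' y : ℂ)) (v := ex k)
      (v' := fun y => -(Complex.I * (k : ℂ)) * ex k y)
      (fun y _ => (hg y).ofReal_comp) (fun y _ => hasDerivAt_ex k y)
      ((continuous_ofReal.comp hg').intervalIntegrable _ _)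
      ((continuous_const.mul (continuous_ex k)).intervalIntegrable _ _)
    simp only [hk, he0, hgb, sub_self, zero_sub] at h3
    have h4 : ∫ y in (0 : ℝ)..b, (g y : ℂ) * (-(Complex.I * (k : ℂ)) * ex k y) =
        -(Complex.I * (k : ℂ)) * ∫ y in (0 : ℝ)..b, (g y : ℂ) * ex k y := by
      rw [← intervalIntegral.integral_const_mul]
      congr 1
      ext y
      ring
    rw [h4] at h3
    have h5 := congrArg Neg.neg h3
    simp only [neg_neg] at h5
    rw [← h5]
    ring
  rw [step h1 h2 hd2 hc2 hb1, step h h1 hd1 hc1 hb, ← mul_assoc]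
  congr 1
  have := Complex.I_mul_I
  linear_combination ((k : ℂ) ^ 2) * this

/-- maximum principle for `u'' = k u`, `k > 0`, `|u|` periodic -/
theorem vanish {u u' : ℝ → ℂ} {k : ℝ → ℝ} {a : ℝ} (ha : 0 < a)
    (h1 : ∀ x, HasDerivAt u (u' x) x) (h2 : ∀ x, HasDerivAt u' ((k x : ℂ) * u x) x)
    (hk : ∀ x, 0 < k x) (hper : ∀ x, ‖u (x + a)‖ = ‖u x‖) : ∀ x, u x = 0 := by
  have hc : Continuous u := continuous_iff_continuousAt.2 fun y => (h1 y).continuousAt
  obtain ⟨x1, hx1, hmax⟩ := (isCompact_Icc (a := (0 : ℝ)) (b := a)).exists_isMaxOn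
    ⟨0, le_rfl, ha.le⟩ hc.norm.continuousOn
  have hmax' : ∀ x, ‖u x‖ ≤ ‖u x1‖ := by
    intro x
    have hp : Function.Periodic (fun x => ‖u x‖) a := hper
    obtain ⟨y, hy, hxy⟩ := hp.exists_mem_Ico₀ ha x
    have hxy' : ‖u x‖ = ‖u y‖ := hxy
    rw [hxy']
    exact hmax ⟨hy.1, hy.2.le⟩
  by_cases h0 : u x1 = 0
  · intro x
    have := hmax' x
    rw [h0, norm_zero] at this
    exact norm_le_zero_iff.1 this
  exfalso
  set c := (starRingEnd ℂ) (u x1) with hcdef
  have hv : ∀ x, HasDerivAt (fun x => (u x * c).re) (u' x * c).re x := by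
    intro x
    have h := ((h1 x).mul_const c)
    exact (Complex.reCLM.hasFDerivAt.comp_hasDerivAt x h)
  have hv' : ∀ x, HasDerivAt (fun x => (u' x * c).re) (k x * (u x * c).re) x := by
    intro x
    have h := ((h2 x).mul_const c)
    have h3 := (Complex.reCLM.hasFDerivAt.comp_hasDerivAt x h)
    refine h3.congr_deriv ?_
    show ((k x : ℂ) * u x * c).re = _
    rw [mul_assoc, Complex.re_ofReal_mul]
  have hval : (u x1 * c).re = ‖u x1‖ ^ 2 := by
    rw [hcdef, Complex.mul_conj, Complex.ofReal_re, Complex.normSq_eq_norm_sq]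
  have hle : ∀ x, (u x * c).re ≤ (u x1 * c).re := by
    intro x
    rw [hval]
    refine (Complex.re_le_norm _).trans ?_
    rw [norm_mul, hcdef, Complex.norm_conj, sq]
    exact mul_le_mul_of_nonneg_right (hmax' x) (norm_nonneg _)
  have hlm : IsLocalMax (fun x => (u x * c).re) x1 := Eventually.of_forall hle
  have hdv : deriv (fun x => (u x * c).re) = fun x => (u' x * c).re := funext fun x => (hv x).deriv
  have hdd : deriv (deriv (fun x => (u x * c).re)) x1 = k x1 * (u x1 * c).re := by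
    rw [hdv]; exact (hv' x1).deriv
  have hpos : 0 < deriv (deriv (fun x => (u x * c).re)) x1 := by
    rw [hdd, hval]
    have := norm_pos_iff.2 h0
    have := hk x1
    positivity
  have hmin := isLocalMin_of_deriv_deriv_pos hpos hlm.deriv_eq_zero (hv x1).continuousAt
  have hconst : (fun x => (u x * c).re) =ᶠ[𝓝 x1] fun _ => (u x1 * c).re := by
    filter_upwards [hmin, hlm] with x h3 h4
    exact le_antisymm h4 h3
  have hz := (hconst.deriv).deriv_eq
  rw [hz] at hpos
  simp at hpos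

theorem ex_add (k y z : ℝ) : ex k (y + z) = ex k y * ex k z := by
  unfold ex
  rw [← Complex.exp_add]
  congr 1
  push_cast
  ring

theorem norm_ex (k y : ℝ) : ‖ex k y‖ = 1 := by
  unfold ex
  rw [Complex.norm_exp]
  simp

theorem ex_period (b : ℝ) (hb : 0 < b) (m : ℤ) : ex (2 * π / b * m) b = 1 := by
  unfold ex
  rw [Complex.exp_eq_one_iff]
  refine ⟨-m, ?_⟩
  push_cast
  have : (b : ℂ) ≠ 0 := by exact_mod_cast hb.ne'
  field_simp

theorem fc_eq (b : ℝ) (φ : ℝ → ℝ → ℝ) (m : ℤ) (x : ℝ) :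
    fc b φ m x = ((1 / b : ℝ) : ℂ) * ∫ y in (0 : ℝ)..b, (φ x y : ℂ) * ex (2 * π / b * m) y := rfl

theorem fc_shift {a b s : ℝ} {φ : ℝ → ℝ → ℝ} (hb : 0 < b) (hφb : ∀ x y, φ x (y + b) = φ x y)
    (hφa : ∀ x y, φ (x + a) (y + s) = φ x y) (m : ℤ) (x : ℝ) :
    fc b φ m (x + a) = ex (2 * π / b * m) s * fc b φ m x := by
  rw [fc_eq, fc_eq]
  have h1 : ∫ y in (0 : ℝ)..b, (φ (x + a) y : ℂ) * ex (2 * π / b * m) y =
      ∫ y in (-s)..(b - s), (φ (x + a) (y + s) : ℂ) * ex (2 * π / b * m) (y + s) := by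
    rw [intervalIntegral.integral_comp_add_right
      (fun y => (φ (x + a) y : ℂ) * ex (2 * π / b * m) y) s]
    simp
  have hper : Function.Periodic (fun y => (φ x y : ℂ) * ex (2 * π / b * m) y) b := by
    intro y
    show (φ x (y + b) : ℂ) * ex (2 * π / b * m) (y + b) = (φ x y : ℂ) * ex (2 * π / b * m) y
    rw [hφb, ex_add, ex_period b hb, mul_one]
  have h2 : ∫ y in (-s)..(b - s), (φ (x + a) (y + s) : ℂ) * ex (2 * π / b * m) (y + s) =
      ex (2 * π / b * m) s * ∫ y in (0 : ℝ)..b, (φ x y : ℂ) * ex (2 * π / b * m) y := by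
    have h3 := hper.intervalIntegral_add_eq (-s) 0
    rw [zero_add, show -s + b = b - s by ring] at h3
    rw [← h3, ← intervalIntegral.integral_const_mul]
    congr 1
    ext y
    rw [hφa, ex_add]
    ring
  rw [h1, h2]
  ring

theorem fourier_eq {b : ℝ} (hb : 0 < b) {h : ℝ → ℝ} (hc : Continuous h) (hp : ∀ y, h (y + b) = h y)
    (M : ℕ) (c : ℤ → ℂ) (hcd : ∀ m, c m = ((1 / b : ℝ) : ℂ) *
      ∫ y in (0 : ℝ)..b, (h y : ℂ) * ex (2 * π / b * m) y)
    (h0 : ∀ m : ℤ, (M : ℤ) < |m| → c m = 0) (y : ℝ) :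
    (h y : ℂ) = esum (2 * π / b) M c (y : ℂ) := by
  have : Fact (0 < b) := ⟨hb⟩
  have hper : Function.Periodic (fun y => (h y : ℂ)) b := by
    intro y
    show (h (y + b) : ℂ) = h y
    rw [hp]
  let F : C(AddCircle b, ℂ) := ⟨hper.lift, continuous_coinduced_dom.mpr
    (continuous_ofReal.comp hc)⟩
  have hF : ∀ y : ℝ, F (y : AddCircle b) = (h y : ℂ) := fun y => rfl
  have hco : ∀ m, fourierCoeff F m = c m := by
    intro m
    rw [fourierCoeff_eq_intervalIntegral _ m 0, hcd m, zero_add]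
    rw [Complex.real_smul]
    congr 1
    apply intervalIntegral.integral_congr
    intro y _
    show fourier (-m) (y : AddCircle b) • F (y : AddCircle b) = _
    rw [hF, fourier_coe_apply, smul_eq_mul, mul_comm]
    congr 1
    unfold ex
    congr 1
    push_cast
    ring
  have hsum : Summable (fourierCoeff F) := by
    apply summable_of_hasFiniteSupport
    apply (Finset.finite_toSet (Finset.Icc (-(M : ℤ)) M)).subset
    intro m hm
    rw [Finset.mem_coe, Finset.mem_Icc]
    by_contra hcon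
    apply hm
    rw [hco m]
    apply h0
    rw [lt_abs]
    omega
  have h1 := has_pointwise_sum_fourier_series_of_summable hsum (y : AddCircle b)
  rw [hF] at h1
  have h2 : HasSum (fun i => fourierCoeff F i • (fourier i (y : AddCircle b) : ℂ))
      (∑ i ∈ Finset.Icc (-(M : ℤ)) M, fourierCoeff F i • (fourier i (y : AddCircle b) : ℂ)) := by
    apply hasSum_sum_of_ne_finset_zero
    intro m hm
    rw [hco m, h0 m, zero_smul]
    rw [Finset.mem_Icc] at hm
    rw [lt_abs]
    omega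
  rw [h1.unique h2]
  unfold esum
  apply Finset.sum_congr rfl
  intro m _
  rw [hco m, fourier_coe_apply, smul_eq_mul]
  congr 2
  push_cast
  ring

end Pool.Agent.R267.DI.Fou

namespace Pool.Agent.R267.DI

open Fou

/-- (DI-FOU) -/
theorem s_FOU : S_FOU := by
  intro ρ a b s lam ρ1 φ M hρ ha hb hlam hρ1 hρa hφ hφb hφa hpde hM
  set Φ : ℝ × ℝ → ℝ := fun p => φ p.1 p.2 with hΦ
  have hΦ2 : ContDiff ℝ (1 + 1 : ℕ) Φ := hφ
  have hΦ1 : ContDiff ℝ 1 Φ := hφ.of_le (by norm_num)
  have hD1 : ContDiff ℝ 1 (D1 Φ) := contDiff_D1 (n := 1) hΦ2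
  have hD2 : ContDiff ℝ 1 (D2 Φ) := contDiff_D2 (n := 1) hΦ2
  have hD1c : Continuous (D1 Φ) := hD1.continuous
  have hD11c : Continuous (D1 (D1 Φ)) := (contDiff_D1 (n := 0) (by exact_mod_cast hD1)).continuous
  have hD22c : Continuous (D2 (D2 Φ)) := (contDiff_D2 (n := 0) (by exact_mod_cast hD2)).continuous
  have d1 : ∀ y, deriv (fun t => φ t y) = fun t => D1 Φ (t, y) := fun y =>
    funext fun t => (hasDerivAt_D1 hΦ1 t y).deriv
  have d2 : ∀ x, deriv (fun t => φ x t) = fun t => D2 Φ (x, t) := fun x =>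
    funext fun t => (hasDerivAt_D2 hΦ1 x t).deriv
  have hpde' : ∀ x y, D1 (D1 Φ) (x, y) = -(D2 (D2 Φ) (x, y)) - lam * ρ x * φ x y := by
    intro x y
    have h := hpde x y
    rw [d1 y, d2 x, (hasDerivAt_D1 hD1 x y).deriv, (hasDerivAt_D2 hD2 x y).deriv] at h
    linarith
  have hD2per : ∀ x y, D2 Φ (x, y + b) = D2 Φ (x, y) := by
    intro x y
    have h1 := hasDerivAt_D2 hΦ1 x (y + b)
    have h2 : HasDerivAt (fun t => Φ (x, t + b)) (D2 Φ (x, y + b)) y := by
      have h3 : HasDerivAt (fun t : ℝ => t + b) 1 y := (hasDerivAt_id y).add_const b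
      have h4 := HasDerivAt.comp y h1 h3
      rw [mul_one] at h4
      exact h4
    have h5 : (fun t => Φ (x, t + b)) = fun t => Φ (x, t) := funext fun t => hφb x t
    rw [h5] at h2
    exact h2.unique (hasDerivAt_D2 hΦ1 x y)
  set u' : ℤ → ℝ → ℂ := fun m x => ((1 / b : ℝ) : ℂ) *
    ∫ y in (0 : ℝ)..b, (D1 Φ (x, y) : ℂ) * ex (2 * π / b * m) y with hu'
  have hA : ∀ m x, HasDerivAt (fc b φ m) (u' m x) x := by
    intro m x
    exact (hasDerivAt_coef hΦ1 (continuous_ex (2 * π / b * m)) b x).const_mul _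
  have hB : ∀ (m : ℤ) (x : ℝ), HasDerivAt (u' m)
      ((((2 * π / b * m) ^ 2 - lam * ρ x : ℝ) : ℂ) * fc b φ m x) x := by
    intro m x
    have h1 := (hasDerivAt_coef hD1 (continuous_ex (2 * π / b * m)) b x).const_mul
      (((1 / b : ℝ) : ℂ))
    refine h1.congr_deriv ?_
    have h2 : ∫ y in (0 : ℝ)..b, (D1 (D1 Φ) (x, y) : ℂ) * ex (2 * π / b * m) y =
        -(∫ y in (0 : ℝ)..b, (D2 (D2 Φ) (x, y) : ℂ) * ex (2 * π / b * m) y) -
        (lam * ρ x : ℝ) * ∫ y in (0 : ℝ)..b, (φ x y : ℂ) * ex (2 * π / b * m) y := by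
      rw [← intervalIntegral.integral_neg, ← intervalIntegral.integral_const_mul,
        ← intervalIntegral.integral_sub]
      · congr 1
        ext y
        rw [hpde' x y]
        push_cast
        ring
      · apply Continuous.intervalIntegrable
        exact ((continuous_ofReal.comp (hD22c.comp (continuous_const.prodMk continuous_id))).mul
          (continuous_ex _)).neg
      · apply Continuous.intervalIntegrable
        exact continuous_const.mul ((continuous_ofReal.comp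
          (hΦ1.continuous.comp (continuous_const.prodMk continuous_id))).mul (continuous_ex _))
    have h3 := int_parts (h := fun y => Φ (x, y)) (h1 := fun y => D2 Φ (x, y))
      (h2 := fun y => D2 (D2 Φ) (x, y)) (b := b) (k := 2 * π / b * m)
      (fun y => hasDerivAt_D2 hΦ1 x y) (fun y => hasDerivAt_D2 hD2 x y)
      (hD22c.comp (continuous_const.prodMk continuous_id))
      (by have := hφb x 0; rw [zero_add] at this; exact this)
      (by have := hD2per x 0; rw [zero_add] at this; exact this) (ex_period b hb m)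
    rw [h2, h3, fc_eq]
    push_cast
    ring
  have hzero : ∀ m : ℤ, (M : ℤ) < |m| → ∀ x, fc b φ m x = 0 := by
    intro m hm
    apply vanish (u' := u' m) (k := fun x => (2 * π / b * m) ^ 2 - lam * ρ x) ha (hA m) (hB m)
    · intro x
      have h1 := hM m hm
      have h2 := mul_le_mul_of_nonneg_left (hρ1 x) hlam.le
      linarith
    · intro x
      rw [fc_shift hb hφb hφa, norm_mul, norm_ex, one_mul]
  have hC : ∀ x y : ℝ, (φ x y : ℂ) = esum (2 * π / b) M (fun m => fc b φ m x) (y : ℂ) := by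
    intro x y
    exact fourier_eq hb (h := fun y => φ x y)
      (hΦ1.continuous.comp (continuous_const.prodMk continuous_id)) (hφb x) M _
      (fun m => rfl) (fun m hm => hzero m hm x) y
  refine ⟨u', hA, hB, hC, ?_⟩
  intro x y
  have h1 : HasDerivAt (fun t : ℝ => (φ t y : ℂ)) ((D1 Φ (x, y) : ℝ) : ℂ) x :=
    (hasDerivAt_D1 hΦ1 x y).ofReal_comp
  have h2 : HasDerivAt (fun t : ℝ => (φ t y : ℂ)) (esum (2 * π / b) M (fun m => u' m x) (y : ℂ)) x := by
    have h3 : (fun t : ℝ => (φ t y : ℂ)) =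
        fun t : ℝ => esum (2 * π / b) M (fun m => fc b φ m t) (y : ℂ) := funext fun t => hC t y
    rw [h3]
    unfold esum
    apply HasDerivAt.fun_sum
    intro m _
    exact (hA m x).mul_const _
  rw [d1 y]
  exact h1.unique h2

end Pool.Agent.R267.DI
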