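import Pool.Agent.R267.DI.Defs

/-!
# DI-GEO: comparison of the geodesic distance with the Euclidean one
-/

set_option autoImplicit false
open Real

namespace Pool.Agent.R267.DI

namespace GeoAux

lemma hasDerivAt_pair (γ : ℝ → ℝ × ℝ) (hγ : ContDiff ℝ 1 γ) (u v t : ℝ) :
    HasDerivAt (fun t => u * (γ t).1 + v * (γ t).2)
      (u * (deriv γ t).1 + v * (deriv γ t).2) t := by
  have h : HasDerivAt γ (deriv γ t) t := (hγ.differentiable (by norm_num) t).hasDerivAt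
  have h1 : HasDerivAt (fun t => (γ t).1) (deriv γ t).1 t :=
    (ContinuousLinearMap.fst ℝ ℝ ℝ).hasFDerivAt.comp_hasDerivAt t h
  have h2 : HasDerivAt (fun t => (γ t).2) (deriv γ t).2 t :=
    (ContinuousLinearMap.snd ℝ ℝ ℝ).hasFDerivAt.comp_hasDerivAt t h
  exact (h1.const_mul u).add (h2.const_mul v)

lemma cont_speed (γ : ℝ → ℝ × ℝ) (hγ : ContDiff ℝ 1 γ) :
    Continuous (fun t => Real.sqrt ((deriv γ t).1 ^ 2 + (deriv γ t).2 ^ 2)) := by
  have h : Continuous (deriv γ) := hγ.continuous_deriv le_rfl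
  fun_prop

lemma cont_len (ρ : ℝ → ℝ) (hρ : Continuous ρ) (γ : ℝ → ℝ × ℝ) (hγ : ContDiff ℝ 1 γ) :
    Continuous (fun t => Real.sqrt (ρ (γ t).1) *
      Real.sqrt ((deriv γ t).1 ^ 2 + (deriv γ t).2 ^ 2)) := by
  have h := cont_speed γ hγ
  have h2 := hγ.continuous
  fun_prop

/-- The Euclidean distance of the endpoints is at most the Euclidean length. -/
lemma dist_le_int (γ : ℝ → ℝ × ℝ) (hγ : ContDiff ℝ 1 γ) :
    Real.sqrt (((γ 1).1 - (γ 0).1) ^ 2 + ((γ 1).2 - (γ 0).2) ^ 2) ≤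
      ∫ t in (0 : ℝ)..1, Real.sqrt ((deriv γ t).1 ^ 2 + (deriv γ t).2 ^ 2) := by
  set u := (γ 1).1 - (γ 0).1 with hu
  set v := (γ 1).2 - (γ 0).2 with hv
  set N := Real.sqrt (u ^ 2 + v ^ 2) with hN
  have hNN : N * N = u ^ 2 + v ^ 2 := Real.mul_self_sqrt (by positivity)
  have hI : 0 ≤ ∫ t in (0 : ℝ)..1, Real.sqrt ((deriv γ t).1 ^ 2 + (deriv γ t).2 ^ 2) := by
    apply intervalIntegral.integral_nonneg (by norm_num)
    intro t _
    positivity
  rcases (Real.sqrt_nonneg (u ^ 2 + v ^ 2)).eq_or_lt with h0 | h0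
  · rw [← hN] at h0
    rw [← h0]; exact hI
  rw [← hN] at h0
  have hd : Continuous (deriv γ) := hγ.continuous_deriv le_rfl
  have h1 : ∫ t in (0 : ℝ)..1, (u * (deriv γ t).1 + v * (deriv γ t).2) = N * N := by
    rw [intervalIntegral.integral_eq_sub_of_hasDerivAt
      (fun t _ => hasDerivAt_pair γ hγ u v t)]
    · rw [hNN, hu, hv]; ring
    · apply Continuous.intervalIntegrable
      fun_prop
  have h2 : ∫ t in (0 : ℝ)..1, (u * (deriv γ t).1 + v * (deriv γ t).2) ≤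
      ∫ t in (0 : ℝ)..1, N * Real.sqrt ((deriv γ t).1 ^ 2 + (deriv γ t).2 ^ 2) := by
    apply intervalIntegral.integral_mono_on (by norm_num)
    · apply Continuous.intervalIntegrable
      fun_prop
    · apply Continuous.intervalIntegrable
      exact continuous_const.mul (cont_speed γ hγ)
    · intro t _
      rw [hN, ← Real.sqrt_mul (by positivity)]
      apply Real.le_sqrt_of_sq_le
      nlinarith [sq_nonneg (u * (deriv γ t).2 - v * (deriv γ t).1)]
  rw [h1, intervalIntegral.integral_const_mul] at h2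
  exact le_of_mul_le_mul_left h2 h0

/-- The straight segment. -/
noncomputable def seg (p q : ℝ × ℝ) (t : ℝ) : ℝ × ℝ :=
  (p.1 + t * (q.1 - p.1), p.2 + t * (q.2 - p.2))

lemma seg_contDiff (p q : ℝ × ℝ) : ContDiff ℝ 1 (seg p q) := by
  unfold seg
  fun_prop

lemma seg_deriv (p q : ℝ × ℝ) (t : ℝ) : deriv (seg p q) t = (q.1 - p.1, q.2 - p.2) := by
  apply HasDerivAt.deriv
  unfold seg
  have h1 : HasDerivAt (fun t : ℝ => p.1 + t * (q.1 - p.1)) (q.1 - p.1) t := by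
    simpa using ((hasDerivAt_id t).mul_const (q.1 - p.1)).const_add p.1
  have h2 : HasDerivAt (fun t : ℝ => p.2 + t * (q.2 - p.2)) (q.2 - p.2) t := by
    simpa using ((hasDerivAt_id t).mul_const (q.2 - p.2)).const_add p.2
  exact h1.prodMk h2

lemma seg_len (ρ : ℝ → ℝ) (hρ : Continuous ρ) (ρ1 : ℝ) (h1 : ∀ x, ρ x ≤ ρ1) (p q : ℝ × ℝ) :
    len ρ (seg p q) ≤ Real.sqrt ρ1 * Real.sqrt ((p.1 - q.1) ^ 2 + (p.2 - q.2) ^ 2) := by
  unfold len
  have h2 : ∫ t in (0 : ℝ)..1, Real.sqrt (ρ (seg p q t).1) *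
      Real.sqrt ((deriv (seg p q) t).1 ^ 2 + (deriv (seg p q) t).2 ^ 2) ≤
      ∫ t in (0 : ℝ)..1, Real.sqrt ρ1 * Real.sqrt ((p.1 - q.1) ^ 2 + (p.2 - q.2) ^ 2) := by
    apply intervalIntegral.integral_mono_on (by norm_num)
    · exact (cont_len ρ hρ _ (seg_contDiff p q)).intervalIntegrable _ _
    · exact intervalIntegrable_const
    · intro t _
      rw [seg_deriv]
      have e : ((q.1 - p.1, q.2 - p.2) : ℝ × ℝ).1 ^ 2 + ((q.1 - p.1, q.2 - p.2) : ℝ × ℝ).2 ^ 2 =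
          (p.1 - q.1) ^ 2 + (p.2 - q.2) ^ 2 := by ring
      rw [e]
      exact mul_le_mul_of_nonneg_right (Real.sqrt_le_sqrt (h1 _)) (Real.sqrt_nonneg _)
  refine h2.trans ?_
  rw [intervalIntegral.integral_const]
  simp

lemma len_nonneg (ρ : ℝ → ℝ) (γ : ℝ → ℝ × ℝ) : 0 ≤ len ρ γ := by
  unfold len
  apply intervalIntegral.integral_nonneg (by norm_num)
  intro t _
  positivity

end GeoAux

open GeoAux

theorem s_GEO : S_GEO := by
  intro ρ a b s ρ0 ρ1 hρ hρ0 h0 h1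
  have hρ1 : 0 < ρ1 := hρ0.trans_le ((h0 0).trans (h1 0))
  have hs0 : 0 < Real.sqrt ρ0 := Real.sqrt_pos.mpr hρ0
  have hs1 : 0 < Real.sqrt ρ1 := Real.sqrt_pos.mpr hρ1
  constructor
  · intro p q r hr
    unfold gdist at hr
    obtain ⟨L, ⟨γ, hγ, hγ0, ⟨m, n, hγ1⟩, hL⟩, hLr⟩ := exists_lt_of_csInf_lt
      (by
        refine ⟨len ρ (seg p q), seg p q, seg_contDiff p q, ?_, ⟨0, 0, ?_⟩, rfl⟩
        · simp [seg]
        · simp [seg]) hr
    refine ⟨m, n, ?_⟩
    rw [lt_div_iff₀ hs0]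
    have h2 := dist_le_int γ hγ
    have h3 : Real.sqrt ρ0 * ∫ t in (0 : ℝ)..1, Real.sqrt ((deriv γ t).1 ^ 2 + (deriv γ t).2 ^ 2) ≤
        len ρ γ := by
      unfold len
      rw [← intervalIntegral.integral_const_mul]
      apply intervalIntegral.integral_mono_on (by norm_num)
      · exact (continuous_const.mul (cont_speed γ hγ)).intervalIntegrable _ _
      · exact (cont_len ρ hρ γ hγ).intervalIntegrable _ _
      · intro t _
        exact mul_le_mul_of_nonneg_right (Real.sqrt_le_sqrt (h0 _)) (Real.sqrt_nonneg _)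
    have h4 : Real.sqrt ((p.1 - (q.1 + m * a)) ^ 2 + (p.2 - (q.2 + m * s + n * b)) ^ 2) =
        Real.sqrt (((γ 1).1 - (γ 0).1) ^ 2 + ((γ 1).2 - (γ 0).2) ^ 2) := by
      rw [hγ0, hγ1]
      congr 1
      ring
    rw [h4]
    have h5 := mul_le_mul_of_nonneg_right h2 hs0.le
    linarith
  · intro p q r m n hr
    rw [lt_div_iff₀ hs1] at hr
    unfold gdist
    have h2 := seg_len ρ hρ ρ1 h1 p (q.1 + m * a, q.2 + m * s + n * b)
    refine lt_of_le_of_lt (csInf_le ⟨0, ?_⟩ ⟨seg p (q.1 + m * a, q.2 + m * s + n * b),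
      seg_contDiff _ _, ?_, ⟨m, n, ?_⟩, rfl⟩) (lt_of_le_of_lt h2 ?_)
    · rintro L ⟨γ, _, _, _, hL⟩
      rw [hL]
      exact len_nonneg ρ γ
    · simp [seg]
    · simp [seg]
    · simp only
      linarith

end Pool.Agent.R267.DI
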