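import Pool.Agent.R267.DI.Defs

set_option autoImplicit false
open Complex Real Filter Topology

namespace Pool.Agent.R267.DI

namespace Grad

lemma second_test (f : ℝ → ℝ) (x : ℝ) (hf : ContDiff ℝ 2 f) (hmax : IsLocalMax f x) :
    deriv (deriv f) x ≤ 0 := by
  by_contra h
  push Not at h
  have h1 : deriv f x = 0 := hmax.deriv_eq_zero
  have hmin := isLocalMin_of_deriv_deriv_pos h h1 hf.continuous.continuousAt
  have h2 : f =ᶠ[𝓝 x] fun _ => f x := by
    filter_upwards [hmax, hmin] with y h1 h2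
    exact le_antisymm h1 h2
  have h3 := h2.deriv
  have h4 := h3.deriv_eq
  rw [h4] at h
  simp at h

lemma comp1 {φ : ℝ → ℝ → ℝ} (hφ : ContDiff ℝ 2 (fun p : ℝ × ℝ => φ p.1 p.2)) (y : ℝ) :
    ContDiff ℝ 2 (fun t => φ t y) :=
  hφ.comp (contDiff_id.prodMk contDiff_const)

lemma comp2 {φ : ℝ → ℝ → ℝ} (hφ : ContDiff ℝ 2 (fun p : ℝ × ℝ => φ p.1 p.2)) (x : ℝ) :
    ContDiff ℝ 2 (fun t => φ x t) :=
  hφ.comp (contDiff_const.prodMk contDiff_id)

lemma dd {f : ℝ → ℝ} (hf : ContDiff ℝ 2 f) (x : ℝ) :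
    HasDerivAt f (deriv f x) x ∧ HasDerivAt (deriv f) (deriv (deriv f) x) x := by
  refine ⟨(hf.differentiable (by norm_num) x).hasDerivAt, ?_⟩
  have h : ContDiff ℝ (1 + 1) f := by
    have : (1 + 1 : WithTop ℕ∞) = 2 := by norm_num
    rw [this]; exact hf
  have h1 := (contDiff_succ_iff_deriv.1 h).2.2
  exact (h1.differentiable (by norm_num) x).hasDerivAt

/-- one sided estimate -/
lemma one_side (φ : ℝ → ℝ → ℝ) (S F d x0 y0 : ℝ) (hd : 0 < d) (hS : 0 ≤ S) (hF : 0 ≤ F)
    (hφ : ContDiff ℝ 2 (fun p : ℝ × ℝ => φ p.1 p.2))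
    (hb : ∀ x y, |x - x0| ≤ d → |y - y0| ≤ d → |φ x y| ≤ S)
    (hl : ∀ x y, |x - x0| ≤ d → |y - y0| ≤ d →
      |deriv (deriv (fun t => φ t y)) x + deriv (deriv (fun t => φ x t)) y| ≤ F) (ε : ℝ)
    (hε : 0 < ε) :
    deriv (fun t => φ t y0) x0 ≤ 2 * S / d + (F + ε) * d / 2 := by
  set c : ℝ := S / d ^ 2 with hc
  have hc0 : 0 ≤ c := by positivity
  have hcd : c * d ^ 2 = S := by rw [hc]; field_simp
  set e : ℝ := (F + ε) / 2 with he
  have he0 : 0 < e := by rw [he]; linarith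
  -- the comparison function
  let h : ℝ → ℝ → ℝ := fun x y => (φ (x0 + x) (y0 + y) - φ (x0 - x) (y0 + y)) / 2
    - (c * (y ^ 2 + x * (2 * d - x)) + e * (x * (d - x)))
  have hcont : Continuous (fun p : ℝ × ℝ => h p.1 p.2) := by
    have h1 : Continuous (fun p : ℝ × ℝ => φ (x0 + p.1) (y0 + p.2)) :=
      hφ.continuous.comp (f := fun p : ℝ × ℝ => (x0 + p.1, y0 + p.2)) (by fun_prop)
    have h2 : Continuous (fun p : ℝ × ℝ => φ (x0 - p.1) (y0 + p.2)) :=
      hφ.continuous.comp (f := fun p : ℝ × ℝ => (x0 - p.1, y0 + p.2)) (by fun_prop)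
    show Continuous (fun p : ℝ × ℝ => (φ (x0 + p.1) (y0 + p.2) - φ (x0 - p.1) (y0 + p.2)) / 2
      - (c * (p.2 ^ 2 + p.1 * (2 * d - p.1)) + e * (p.1 * (d - p.1))))
    fun_prop
  have hsm1 : ∀ y, ContDiff ℝ 2 (fun t => h t y) := by
    intro y
    have h1 : ContDiff ℝ 2 (fun t : ℝ => φ (x0 + t) (y0 + y)) :=
      (comp1 hφ (y0 + y)).comp (f := fun t : ℝ => x0 + t) (by fun_prop)
    have h2 : ContDiff ℝ 2 (fun t : ℝ => φ (x0 - t) (y0 + y)) :=
      (comp1 hφ (y0 + y)).comp (f := fun t : ℝ => x0 - t) (by fun_prop)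
    show ContDiff ℝ 2 (fun t => (φ (x0 + t) (y0 + y) - φ (x0 - t) (y0 + y)) / 2
      - (c * (y ^ 2 + t * (2 * d - t)) + e * (t * (d - t))))
    fun_prop
  have hsm2 : ∀ x, ContDiff ℝ 2 (fun t => h x t) := by
    intro x
    have h1 : ContDiff ℝ 2 (fun t : ℝ => φ (x0 + x) (y0 + t)) :=
      (comp2 hφ (x0 + x)).comp (f := fun t : ℝ => y0 + t) (by fun_prop)
    have h2 : ContDiff ℝ 2 (fun t : ℝ => φ (x0 - x) (y0 + t)) :=
      (comp2 hφ (x0 - x)).comp (f := fun t : ℝ => y0 + t) (by fun_prop)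
    show ContDiff ℝ 2 (fun t => (φ (x0 + x) (y0 + t) - φ (x0 - x) (y0 + t)) / 2
      - (c * (t ^ 2 + x * (2 * d - x)) + e * (x * (d - x))))
    fun_prop
  -- second derivatives
  have hxx : ∀ x y, deriv (deriv (fun t => h t y)) x
      = (deriv (deriv (fun t => φ t (y0 + y))) (x0 + x)
        - deriv (deriv (fun t => φ t (y0 + y))) (x0 - x)) / 2 + 2 * c + 2 * e := by
    intro x y
    have key : deriv (fun t => h t y) = fun t =>
        (deriv (fun t => φ t (y0 + y)) (x0 + t) + deriv (fun t => φ t (y0 + y)) (x0 - t)) / 2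
        - (c * (2 * d - 2 * t) + e * (d - 2 * t)) := by
      funext t
      have a1 := (dd (comp1 hφ (y0 + y)) (x0 + t)).1.comp_const_add x0 t
      have a2 := (dd (comp1 hφ (y0 + y)) (x0 - t)).1.comp_const_sub x0 t
      have a3 : HasDerivAt (fun t : ℝ => c * (y ^ 2 + t * (2 * d - t)) + e * (t * (d - t)))
          (c * (0 + (1 * (2 * d - t) + t * (0 - 1))) + e * (1 * (d - t) + t * (0 - 1))) t :=
        (((hasDerivAt_const t _).add ((hasDerivAt_id t).mul
          ((hasDerivAt_const t _).sub (hasDerivAt_id t)))).const_mul c).add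
          (((hasDerivAt_id t).mul ((hasDerivAt_const t _).sub (hasDerivAt_id t))).const_mul e)
      have a4 := ((a1.sub a2).div_const 2).sub a3
      have a5 : deriv (fun t => h t y) t = _ := a4.deriv
      rw [a5]; ring
    rw [key]
    have a1 := (dd (comp1 hφ (y0 + y)) (x0 + x)).2.comp_const_add x0 x
    have a2 := (dd (comp1 hφ (y0 + y)) (x0 - x)).2.comp_const_sub x0 x
    have a3 : HasDerivAt (fun t : ℝ => c * (2 * d - 2 * t) + e * (d - 2 * t))
        (c * (0 - 2 * 1) + e * (0 - 2 * 1)) x :=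
      (((hasDerivAt_const x _).sub ((hasDerivAt_id x).const_mul 2)).const_mul c).add
        (((hasDerivAt_const x _).sub ((hasDerivAt_id x).const_mul 2)).const_mul e)
    have a4 := ((a1.add a2).div_const 2).sub a3
    have a5 := a4.deriv
    refine a5.trans ?_
    ring
  have hyy : ∀ x y, deriv (deriv (fun t => h x t)) y
      = (deriv (deriv (fun t => φ (x0 + x) t)) (y0 + y)
        - deriv (deriv (fun t => φ (x0 - x) t)) (y0 + y)) / 2 - 2 * c := by
    intro x y
    have key : deriv (fun t => h x t) = fun t =>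
        (deriv (fun t => φ (x0 + x) t) (y0 + t) - deriv (fun t => φ (x0 - x) t) (y0 + t)) / 2
        - (c * (2 * t)) := by
      funext t
      have a1 := (dd (comp2 hφ (x0 + x)) (y0 + t)).1.comp_const_add y0 t
      have a2 := (dd (comp2 hφ (x0 - x)) (y0 + t)).1.comp_const_add y0 t
      have a3 : HasDerivAt (fun t : ℝ => c * (t ^ 2 + x * (2 * d - x)) + e * (x * (d - x)))
          (c * ((2 : ℕ) * t ^ (2 - 1) + 0) + 0) t :=
        (((hasDerivAt_pow 2 t).add (hasDerivAt_const t _)).const_mul c).add (hasDerivAt_const t _)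
      have a4 := ((a1.sub a2).div_const 2).sub a3
      have a5 : deriv (fun t => h x t) t = _ := a4.deriv
      rw [a5]; push_cast; ring
    rw [key]
    have a1 := (dd (comp2 hφ (x0 + x)) (y0 + y)).2.comp_const_add y0 y
    have a2 := (dd (comp2 hφ (x0 - x)) (y0 + y)).2.comp_const_add y0 y
    have a3 : HasDerivAt (fun t : ℝ => c * (2 * t)) (c * (2 * 1)) y :=
      ((hasDerivAt_id y).const_mul 2).const_mul c
    have a4 := ((a1.sub a2).div_const 2).sub a3
    have a5 := a4.deriv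
    refine a5.trans ?_
    ring
  -- maximum
  have hmaxle : ∀ x y, 0 ≤ x → x ≤ d → |y| ≤ d → h x y ≤ 0 := by
    have hK : IsCompact (Set.Icc (0 : ℝ) d ×ˢ Set.Icc (-d) d) := isCompact_Icc.prod isCompact_Icc
    obtain ⟨⟨x1, y1⟩, hp, hpm⟩ := hK.exists_isMaxOn
      ⟨(0, 0), ⟨⟨le_rfl, hd.le⟩, ⟨by linarith, hd.le⟩⟩⟩ hcont.continuousOn
    obtain ⟨⟨hx1, hx1'⟩, ⟨hy1, hy1'⟩⟩ := hp
    simp only at hx1 hx1' hy1 hy1'
    have hpm' : ∀ x y, 0 ≤ x → x ≤ d → -d ≤ y → y ≤ d → h x y ≤ h x1 y1 := by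
      intro x y h1 h2 h3 h4
      have := isMaxOn_iff.1 hpm (x, y) ⟨⟨h1, h2⟩, ⟨h3, h4⟩⟩
      exact this
    suffices hle : h x1 y1 ≤ 0 by
      intro x y h1 h2 h3
      obtain ⟨h3, h4⟩ := abs_le.1 h3
      exact (hpm' x y h1 h2 h3 h4).trans hle
    by_contra hpos
    push Not at hpos
    have hA : |φ (x0 + x1) (y0 + y1)| ≤ S := hb _ _
      (by rw [add_sub_cancel_left, abs_le]; constructor <;> linarith)
      (by rw [add_sub_cancel_left, abs_le]; constructor <;> linarith)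
    have hB : |φ (x0 - x1) (y0 + y1)| ≤ S := hb _ _
      (by rw [abs_le]; constructor <;> linarith)
      (by rw [add_sub_cancel_left, abs_le]; constructor <;> linarith)
    obtain ⟨hA1, hA2⟩ := abs_le.1 hA
    obtain ⟨hB1, hB2⟩ := abs_le.1 hB
    have hval : h x1 y1 = (φ (x0 + x1) (y0 + y1) - φ (x0 - x1) (y0 + y1)) / 2
      - (c * (y1 ^ 2 + x1 * (2 * d - x1)) + e * (x1 * (d - x1))) := rfl
    have hx0 : x1 ≠ 0 := by
      rintro rfl
      have : h 0 y1 = - (c * y1 ^ 2) := by rw [hval]; simp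
      rw [this] at hpos
      have : 0 ≤ c * y1 ^ 2 := by positivity
      linarith
    have hxd : x1 ≠ d := by
      rintro rfl
      have h1 : h x1 y1 ≤ S - (c * y1 ^ 2 + c * x1 ^ 2) := by rw [hval]; nlinarith
      have h2 : 0 ≤ c * y1 ^ 2 := by positivity
      linarith
    have hprod : 0 ≤ e * (x1 * (d - x1)) := mul_nonneg he0.le (mul_nonneg hx1 (by linarith))
    have hprod2 : 0 ≤ c * (x1 * (2 * d - x1)) := mul_nonneg hc0 (mul_nonneg hx1 (by linarith))
    have hyd : y1 ^ 2 ≠ d ^ 2 := by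
      intro hyd
      have h1 : h x1 y1 ≤ S - c * y1 ^ 2 := by rw [hval]; nlinarith
      rw [hyd] at h1
      linarith
    have hyd1 : y1 ≠ d := fun h => hyd (by rw [h])
    have hyd2 : y1 ≠ -d := fun h => hyd (by rw [h]; ring)
    have hx1s : 0 < x1 := lt_of_le_of_ne hx1 (Ne.symm hx0)
    have hx1s' : x1 < d := lt_of_le_of_ne hx1' hxd
    have hy1s : -d < y1 := lt_of_le_of_ne hy1 (Ne.symm hyd2)
    have hy1s' : y1 < d := lt_of_le_of_ne hy1' hyd1
    have m1 : IsLocalMax (fun t => h t y1) x1 := by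
      filter_upwards [Ioo_mem_nhds hx1s hx1s'] with t ht
      exact hpm' t y1 ht.1.le ht.2.le hy1 hy1'
    have m2 : IsLocalMax (fun t => h x1 t) y1 := by
      filter_upwards [Ioo_mem_nhds hy1s hy1s'] with t ht
      exact hpm' x1 t hx1 hx1' ht.1.le ht.2.le
    have s1 := second_test _ _ (hsm1 y1) m1
    have s2 := second_test _ _ (hsm2 x1) m2
    rw [hxx] at s1
    rw [hyy] at s2
    have l1 := hl (x0 + x1) (y0 + y1)
      (by rw [add_sub_cancel_left, abs_le]; constructor <;> linarith)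
      (by rw [add_sub_cancel_left, abs_le]; constructor <;> linarith)
    have l2 := hl (x0 - x1) (y0 + y1)
      (by rw [abs_le]; constructor <;> linarith)
      (by rw [add_sub_cancel_left, abs_le]; constructor <;> linarith)
    obtain ⟨l1, _⟩ := abs_le.1 l1
    obtain ⟨_, l2⟩ := abs_le.1 l2
    have : 2 * e = F + ε := by rw [he]; ring
    linarith
  -- conclusion
  have hder : HasDerivAt (fun t : ℝ => (φ (x0 + t) y0 - φ (x0 - t) y0) / 2)
      (deriv (fun t => φ t y0) x0) 0 := by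
    have a1 := (dd (comp1 hφ y0) (x0 + 0)).1.comp_const_add x0 0
    have a2 := (dd (comp1 hφ y0) (x0 - 0)).1.comp_const_sub x0 0
    have a3 := (a1.sub a2).div_const 2
    refine a3.congr_deriv ?_
    rw [add_zero, sub_zero]; ring
  have hsl := (hasDerivAt_iff_tendsto_slope.1 hder).mono_left
    (show 𝓝[>] (0 : ℝ) ≤ 𝓝[≠] 0 from nhdsWithin_mono _ fun t ht => ne_of_gt ht)
  refine le_of_tendsto hsl ?_
  filter_upwards [Ioo_mem_nhdsGT hd] with t ht
  rw [slope_def_field]
  have h1 := hmaxle t 0 ht.1.le ht.2.le (by rw [abs_zero]; exact hd.le)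
  have h2 : h t 0 = (φ (x0 + t) (y0 + 0) - φ (x0 - t) (y0 + 0)) / 2
      - (c * (0 ^ 2 + t * (2 * d - t)) + e * (t * (d - t))) := rfl
  rw [h2, add_zero] at h1
  rw [div_le_iff₀ (by linarith [ht.1])]
  have h3 : 2 * S / d = 2 * (c * d) := by
    rw [hc]; field_simp
  rw [h3]
  have h4 : (F + ε) * d / 2 = e * d := by rw [he]; ring
  rw [h4]
  have h5 : 0 ≤ c * t ^ 2 := by positivity
  have h6 : 0 ≤ e * t ^ 2 := by positivity
  simp only [add_zero, sub_zero, sub_self, zero_div]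
  nlinarith

end Grad

theorem s_GRAD : S_GRAD := by
  intro φ S F d x0 y0 hd hS hF hφ hb hl
  have key : ∀ ψ : ℝ → ℝ → ℝ, ContDiff ℝ 2 (fun p : ℝ × ℝ => ψ p.1 p.2) →
      (∀ x y, |x - x0| ≤ d → |y - y0| ≤ d → |ψ x y| ≤ S) →
      (∀ x y, |x - x0| ≤ d → |y - y0| ≤ d →
        |deriv (deriv (fun t => ψ t y)) x + deriv (deriv (fun t => ψ x t)) y| ≤ F) →
      deriv (fun t => ψ t y0) x0 ≤ 2 * S / d + F * d / 2 := by
    intro ψ h1 h2 h3
    refine le_of_forall_pos_le_add fun δ hδ => ?_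
    have := Grad.one_side ψ S F d x0 y0 hd hS hF h1 h2 h3 (2 * δ / d) (by positivity)
    refine this.trans (le_of_eq ?_)
    field_simp
    ring
  rw [abs_le]
  constructor
  · have h1 := key (fun x y => -φ x y) hφ.neg (by
      intro x y hx hy; simpa using hb x y hx hy) (by
      intro x y hx hy
      have e1 : deriv (deriv (fun t => -φ t y)) x = - deriv (deriv (fun t => φ t y)) x := by
        have : deriv (fun t => -φ t y) = fun t => - deriv (fun t => φ t y) t := by
          funext t; exact deriv.fun_neg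
        rw [this]; exact deriv.fun_neg
      have e2 : deriv (deriv (fun t => -φ x t)) y = - deriv (deriv (fun t => φ x t)) y := by
        have : deriv (fun t => -φ x t) = fun t => - deriv (fun t => φ x t) t := by
          funext t; exact deriv.fun_neg
        rw [this]; exact deriv.fun_neg
      rw [e1, e2, ← neg_add, abs_neg]
      exact hl x y hx hy)
    have h2 : deriv (fun t => -φ t y0) x0 = - deriv (fun t => φ t y0) x0 := deriv.fun_neg
    rw [h2] at h1
    linarith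
  · exact key φ hφ hb hl

end Pool.Agent.R267.DI
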