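import Mathlib
import Pool.Agent.R267.DI.Defs

set_option autoImplicit false
open Complex Real

namespace Pool.Agent.R267.DI

namespace Tur

/-- exponential sum with frequencies in a finite set of reals -/
noncomputable def E (T : Finset ℝ) (c : ℝ → ℂ) (z : ℂ) : ℂ :=
  ∑ μ ∈ T, c μ * Complex.exp (Complex.I * (μ : ℂ) * z)

theorem hasDerivAt_E (T : Finset ℝ) (c : ℝ → ℂ) (z : ℂ) :
    HasDerivAt (E T c) (E T (fun μ => c μ * (Complex.I * (μ : ℂ))) z) z := by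
  unfold E
  have : ∀ μ ∈ T, HasDerivAt (fun z => c μ * Complex.exp (Complex.I * (μ : ℂ) * z))
      (c μ * (Complex.I * (μ : ℂ)) * Complex.exp (Complex.I * (μ : ℂ) * z)) z := by
    intro μ _
    have h1 : HasDerivAt (fun z : ℂ => Complex.I * (μ : ℂ) * z) (Complex.I * (μ : ℂ)) z := by
      simpa using (hasDerivAt_id z).const_mul (Complex.I * (μ : ℂ))
    have h2 := (h1.cexp).const_mul (c μ)
    refine h2.congr_deriv ?_
    ring
  have h := HasDerivAt.fun_sum this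
  exact h

theorem E_shift (T : Finset ℝ) (c : ℝ → ℂ) (μ0 : ℝ) (h0 : μ0 ∈ T) (z : ℂ) :
    E T c z = Complex.exp (Complex.I * (μ0 : ℂ) * z) *
      (c μ0 + E ((T.erase μ0).image (fun μ => μ - μ0)) (fun ν => c (ν + μ0)) z) := by
  unfold E
  rw [Finset.sum_image (by intro a _ b _ h; simpa using h)]
  rw [← Finset.add_sum_erase T _ h0, mul_add, Finset.mul_sum]
  congr 1
  · ring
  · refine Finset.sum_congr rfl fun μ _ => ?_
    have e1 : μ - μ0 + μ0 = μ := by ring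
    have e2 : Complex.exp (Complex.I * (μ : ℂ) * z)
        = Complex.exp (Complex.I * (μ0 : ℂ) * z) *
          Complex.exp (Complex.I * ((μ - μ0 : ℝ) : ℂ) * z) := by
      rw [← Complex.exp_add]
      congr 1
      push_cast
      ring
    simp only [e1]
    rw [e2]
    ring

/-- the induction statement -/
def P (K : ℕ) : Prop := ∀ c0 c1 l : ℝ, 0 < c0 → 0 < c1 → 0 < l → ∃ A : ℝ, 1 ≤ A ∧
  ∀ (T : Finset ℝ) (c : ℝ → ℂ), T.card ≤ K → (∀ μ ∈ T, |μ| ≤ c0) →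
  ∀ S : ℝ, 0 ≤ S → (∀ t : ℝ, |t| ≤ l → ‖E T c (t : ℂ)‖ ≤ S) →
  ∀ w : ℂ, ‖w‖ ≤ c1 → ‖E T c w‖ ≤ A * S

theorem P_zero : P 0 := by
  intro c0 c1 l _ _ _
  refine ⟨1, le_rfl, fun T c hT _ S hS _ w _ => ?_⟩
  have : T = ∅ := Finset.card_eq_zero.mp (Nat.le_zero.mp hT)
  subst this
  simpa [E] using hS

theorem P_succ (K : ℕ) (ih : P K) : P (K + 1) := by
  intro c0 c1 l hc0 hc1 hl
  obtain ⟨A', hA', H⟩ := ih (2 * c0) (c1 + l + 1) (l / 2) (by positivity) (by positivity) (by positivity)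
  set τ : ℝ := min (l / 2) (1 / (2 * A' + 1)) with hτ
  have hτ0 : 0 < τ := lt_min (by positivity) (by positivity)
  have hτ1 : τ ≤ l / 2 := min_le_left _ _
  have hτ2 : A' * τ ≤ 1 / 2 := by
    have h1 : τ ≤ 1 / (2 * A' + 1) := min_le_right _ _
    have h2 : A' * τ ≤ A' * (1 / (2 * A' + 1)) := by
      apply mul_le_mul_of_nonneg_left h1; linarith
    have h3 : A' * (1 / (2 * A' + 1)) ≤ 1 / 2 := by
      rw [mul_one_div, div_le_div_iff₀ (by linarith) (by norm_num)]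
      linarith
    linarith
  refine ⟨Real.exp (c0 * c1) * (1 + c1 * A' * (4 / τ)), ?_, ?_⟩
  · have h1 : 1 ≤ Real.exp (c0 * c1) := Real.one_le_exp (by positivity)
    have h2 : (1 : ℝ) ≤ 1 + c1 * A' * (4 / τ) := by
      have : 0 ≤ c1 * A' * (4 / τ) := by positivity
      linarith
    nlinarith
  intro T c hT hc S hS hb w hw
  by_cases hTe : T = ∅
  · subst hTe
    have : 0 ≤ Real.exp (c0 * c1) * (1 + c1 * A' * (4 / τ)) * S := by positivity
    simpa [E] using this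
  obtain ⟨μ0, hμ0⟩ := Finset.nonempty_iff_ne_empty.mpr hTe
  set T' := (T.erase μ0).image (fun μ => μ - μ0) with hT'
  set c' : ℝ → ℂ := fun ν => c (ν + μ0) with hc'
  set F : ℂ → ℂ := fun z => c μ0 + E T' c' z with hF
  set d : ℝ → ℂ := fun ν => c' ν * (Complex.I * (ν : ℂ)) with hd
  set q : ℂ → ℂ := E T' d with hq
  have hcard : T'.card ≤ K := by
    have h1 : T'.card ≤ (T.erase μ0).card := Finset.card_image_le
    have h2 : (T.erase μ0).card = T.card - 1 := Finset.card_erase_of_mem hμ0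
    omega
  have hfreq : ∀ ν ∈ T', |ν| ≤ 2 * c0 := by
    intro ν hν
    rw [hT', Finset.mem_image] at hν
    obtain ⟨μ, hμ, rfl⟩ := hν
    have h1 := hc μ (Finset.mem_of_mem_erase hμ)
    have h2 := hc μ0 hμ0
    calc |μ - μ0| ≤ |μ| + |μ0| := abs_sub _ _
      _ ≤ 2 * c0 := by linarith
  have hEF : ∀ z, E T c z = Complex.exp (Complex.I * (μ0 : ℂ) * z) * F z := fun z =>
    E_shift T c μ0 hμ0 z
  have hFreal : ∀ t : ℝ, |t| ≤ l → ‖F (t : ℂ)‖ ≤ S := by
    intro t ht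
    have h1 := hb t ht
    rw [hEF, norm_mul] at h1
    have h2 : ‖Complex.exp (Complex.I * (μ0 : ℂ) * (t : ℂ))‖ = 1 := by
      have : Complex.I * (μ0 : ℂ) * (t : ℂ) = ((μ0 * t : ℝ) : ℂ) * Complex.I := by push_cast; ring
      rw [this, Complex.norm_exp_ofReal_mul_I]
    rw [h2, one_mul] at h1
    exact h1
  have hFd : ∀ z, HasDerivAt F (q z) z := by
    intro z
    have := (hasDerivAt_E T' c' z).const_add (c μ0)
    exact this
  have hqd : ∀ z, HasDerivAt q (E T' (fun μ => d μ * (Complex.I * (μ : ℂ))) z) z := fun z =>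
    hasDerivAt_E T' d z
  have hqcont : Continuous q := continuous_iff_continuousAt.mpr fun z => (hqd z).continuousAt
  -- maximum of |q| on [-l/2, l/2]
  obtain ⟨t0, ht0, hmax⟩ : ∃ t0 ∈ Set.Icc (-(l / 2)) (l / 2), ∀ t ∈ Set.Icc (-(l / 2)) (l / 2),
      ‖q (t : ℂ)‖ ≤ ‖q (t0 : ℂ)‖ := by
    obtain ⟨t0, h0, h1⟩ := isCompact_Icc.exists_isMaxOn (s := Set.Icc (-(l / 2)) (l / 2))
      ⟨0, by constructor <;> linarith⟩
      (f := fun t : ℝ => ‖q (t : ℂ)‖) (by fun_prop)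
    exact ⟨t0, h0, fun t ht => h1 ht⟩
  set m := ‖q (t0 : ℂ)‖ with hm
  have hm0 : 0 ≤ m := norm_nonneg _
  have hqbig : ∀ z : ℂ, ‖z‖ ≤ c1 + l + 1 → ‖q z‖ ≤ A' * m := by
    intro z hz
    refine H T' d hcard hfreq m hm0 ?_ z hz
    intro t ht
    exact hmax t (abs_le.mp ht)
  -- derivative of q on the real interval
  have hqd' : ∀ t : ℝ, |t| ≤ l → ‖deriv q (t : ℂ)‖ ≤ A' * m := by
    intro t ht
    have h := Complex.norm_deriv_le_of_forall_mem_sphere_norm_le (c := (t : ℂ)) (R := 1)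
      (C := A' * m) (f := q) one_pos ?_ ?_
    · simpa using h
    · exact Differentiable.diffContOnCl (fun z => (hqd z).differentiableAt)
    · intro z hz
      apply hqbig
      have h1 : ‖z - (t : ℂ)‖ = 1 := by simpa [dist_eq_norm] using hz
      have h2 : ‖z‖ ≤ ‖z - (t : ℂ)‖ + ‖(t : ℂ)‖ := by
        simpa using norm_add_le (z - (t : ℂ)) (t : ℂ)
      have h3 : ‖(t : ℂ)‖ = |t| := by simp
      rw [h1, h3] at h2
      linarith
  have ht0' : |t0| ≤ l / 2 := abs_le.mpr ht0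
  have hseg : ∀ x ∈ segment ℝ (t0 : ℂ) ((t0 + τ : ℝ) : ℂ), ∃ t : ℝ, x = (t : ℂ) ∧ t0 ≤ t ∧ t ≤ t0 + τ := by
    intro x hx
    rw [segment_eq_image] at hx
    obtain ⟨θ, hθ, rfl⟩ := hx
    refine ⟨t0 + θ * τ, ?_, ?_, ?_⟩
    · simp only [Complex.real_smul]
      push_cast
      ring
    · have := mul_nonneg hθ.1 hτ0.le
      linarith
    · have : θ * τ ≤ 1 * τ := mul_le_mul_of_nonneg_right hθ.2 hτ0.le
      linarith
  have habs : ∀ t : ℝ, t0 ≤ t → t ≤ t0 + τ → |t| ≤ l := by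
    intro t h1 h2
    rw [abs_le] at ht0' ⊢
    constructor <;> linarith [ht0'.1, ht0'.2]
  have hclose : ∀ x ∈ segment ℝ (t0 : ℂ) ((t0 + τ : ℝ) : ℂ), ‖q x - q (t0 : ℂ)‖ ≤ m / 2 := by
    intro x hx
    have hconv : Convex ℝ (segment ℝ (t0 : ℂ) ((t0 + τ : ℝ) : ℂ)) := convex_segment _ _
    have h := hconv.norm_image_sub_le_of_norm_deriv_le (f := q) (C := A' * m)
      (fun y _ => (hqd y).differentiableAt) (fun y hy => by
        obtain ⟨t, rfl, h1, h2⟩ := hseg y hy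
        exact hqd' t (habs t h1 h2)) (left_mem_segment ℝ _ _) hx
    obtain ⟨t, rfl, h1, h2⟩ := hseg x hx
    have h3 : ‖(t : ℂ) - (t0 : ℂ)‖ ≤ τ := by
      rw [← Complex.ofReal_sub, Complex.norm_real, Real.norm_eq_abs, abs_le]
      constructor <;> linarith
    calc ‖q (t : ℂ) - q (t0 : ℂ)‖ ≤ A' * m * ‖(t : ℂ) - (t0 : ℂ)‖ := h
      _ ≤ A' * m * τ := mul_le_mul_of_nonneg_left h3 (by positivity)
      _ = (A' * τ) * m := by ring
      _ ≤ (1 / 2) * m := mul_le_mul_of_nonneg_right hτ2 hm0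
      _ = m / 2 := by ring
  -- lower bound of the increment
  have hinc : m * τ - m / 2 * τ ≤ ‖F ((t0 + τ : ℝ) : ℂ) - F (t0 : ℂ)‖ := by
    have hconv : Convex ℝ (segment ℝ (t0 : ℂ) ((t0 + τ : ℝ) : ℂ)) := convex_segment _ _
    have hg : ∀ y : ℂ, HasDerivAt (fun z => F z - q (t0 : ℂ) * z) (q y - q (t0 : ℂ)) y := by
      intro y
      have h1 : HasDerivAt (fun z : ℂ => q (t0 : ℂ) * z) (q (t0 : ℂ)) y := by
        simpa using (hasDerivAt_id y).const_mul (q (t0 : ℂ))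
      exact (hFd y).sub h1
    have h := hconv.norm_image_sub_le_of_norm_deriv_le (f := fun z => F z - q (t0 : ℂ) * z)
      (C := m / 2) (fun y _ => (hg y).differentiableAt) (fun y hy => by
        rw [(hg y).deriv]
        exact hclose y hy) (left_mem_segment ℝ _ _) (right_mem_segment ℝ _ _)
    have h3 : ((t0 + τ : ℝ) : ℂ) - (t0 : ℂ) = (τ : ℂ) := by push_cast; ring
    have h4 : ‖(τ : ℂ)‖ = τ := by rw [Complex.norm_real, Real.norm_eq_abs, abs_of_pos hτ0]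
    rw [h3, h4] at h
    have h5 : F ((t0 + τ : ℝ) : ℂ) - q (t0 : ℂ) * ((t0 + τ : ℝ) : ℂ) - (F (t0 : ℂ) - q (t0 : ℂ) * (t0 : ℂ))
        = (F ((t0 + τ : ℝ) : ℂ) - F (t0 : ℂ)) - q (t0 : ℂ) * (τ : ℂ) := by
      push_cast; ring
    rw [h5] at h
    have h6 : ‖q (t0 : ℂ) * (τ : ℂ)‖ = m * τ := by rw [norm_mul, h4]
    have h7 : ‖q (t0 : ℂ) * (τ : ℂ)‖ ≤ ‖F ((t0 + τ : ℝ) : ℂ) - F (t0 : ℂ)‖
        + ‖(F ((t0 + τ : ℝ) : ℂ) - F (t0 : ℂ)) - q (t0 : ℂ) * (τ : ℂ)‖ := by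
      have := norm_sub_le (F ((t0 + τ : ℝ) : ℂ) - F (t0 : ℂ))
        ((F ((t0 + τ : ℝ) : ℂ) - F (t0 : ℂ)) - q (t0 : ℂ) * (τ : ℂ))
      simpa using this
    rw [h6] at h7
    linarith
  have hmS : m ≤ 4 / τ * S := by
    have h1 : ‖F ((t0 + τ : ℝ) : ℂ) - F (t0 : ℂ)‖ ≤ S + S := by
      refine (norm_sub_le _ _).trans (add_le_add ?_ ?_)
      · exact hFreal _ (habs _ (by linarith) le_rfl)
      · exact hFreal _ (habs _ le_rfl (by linarith))
    have h2 : m * τ ≤ 4 * S := by linarith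
    rw [div_mul_eq_mul_div, le_div_iff₀ hτ0]
    exact h2
  -- bound of F at w
  have hFw : ‖F w‖ ≤ S + c1 * A' * m := by
    have hconv : Convex ℝ (Metric.closedBall (0 : ℂ) c1) := convex_closedBall _ _
    have h := hconv.norm_image_sub_le_of_norm_deriv_le (f := F) (C := A' * m)
      (fun y _ => (hFd y).differentiableAt) (fun y hy => by
        rw [(hFd y).deriv]
        apply hqbig
        have : ‖y‖ ≤ c1 := by simpa using hy
        linarith) (x := 0) (y := w) (by simp [hc1.le]) (by simpa using hw)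
    have h0 : ‖F 0‖ ≤ S := by
      have := hFreal 0 (by simp [hl.le])
      simpa using this
    have h1 : ‖F w‖ ≤ ‖F w - F 0‖ + ‖F 0‖ := by simpa using norm_add_le (F w - F 0) (F 0)
    have h2 : A' * m * ‖w - 0‖ ≤ A' * m * c1 := by
      apply mul_le_mul_of_nonneg_left _ (by positivity)
      simpa using hw
    calc ‖F w‖ ≤ ‖F w - F 0‖ + ‖F 0‖ := h1
      _ ≤ A' * m * c1 + S := by linarith
      _ = S + c1 * A' * m := by ring
  have hexp : ‖Complex.exp (Complex.I * (μ0 : ℂ) * w)‖ ≤ Real.exp (c0 * c1) := by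
    rw [Complex.norm_exp]
    apply Real.exp_le_exp.mpr
    calc (Complex.I * (μ0 : ℂ) * w).re ≤ ‖Complex.I * (μ0 : ℂ) * w‖ := Complex.re_le_norm _
      _ = |μ0| * ‖w‖ := by simp
      _ ≤ c0 * c1 := mul_le_mul (hc μ0 hμ0) hw (norm_nonneg _) hc0.le
  rw [hEF, norm_mul]
  calc ‖Complex.exp (Complex.I * (μ0 : ℂ) * w)‖ * ‖F w‖
      ≤ Real.exp (c0 * c1) * (S + c1 * A' * m) :=
        mul_le_mul hexp hFw (norm_nonneg _) (Real.exp_pos _).le
    _ ≤ Real.exp (c0 * c1) * (S + c1 * A' * (4 / τ * S)) := by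
        apply mul_le_mul_of_nonneg_left _ (Real.exp_pos _).le
        have := mul_le_mul_of_nonneg_left hmS (show 0 ≤ c1 * A' by positivity)
        linarith
    _ = Real.exp (c0 * c1) * (1 + c1 * A' * (4 / τ)) * S := by ring

theorem P_all (K : ℕ) : P K := by
  induction K with
  | zero => exact P_zero
  | succ K ih => exact P_succ K ih

end Tur

theorem s_TUR : S_TUR := by
  intro K c0 c1 hc0 hc1
  obtain ⟨A, hA, H⟩ := Tur.P_all K c0 c1 1 hc0 hc1 one_pos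
  refine ⟨A, hA, fun T c hT hc w hw => ?_⟩
  have hcont : Continuous (Tur.E T c) :=
    continuous_iff_continuousAt.mpr fun z => (Tur.hasDerivAt_E T c z).continuousAt
  obtain ⟨t0, h0, h1⟩ := isCompact_Icc.exists_isMaxOn (s := Set.Icc (-1 : ℝ) 1)
    ⟨0, by constructor <;> norm_num⟩ (f := fun t : ℝ => ‖Tur.E T c (t : ℂ)‖) (by fun_prop)
  refine ⟨t0, abs_le.mpr h0, ?_⟩
  exact H T c hT hc ‖Tur.E T c (t0 : ℂ)‖ (norm_nonneg _)
    (fun t ht => h1 (abs_le.mp ht)) w hw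

end Pool.Agent.R267.DI
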