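import Pool.Agent.R267.DI.Loc
import Pool.Agent.R267.DI.CK
import Pool.Agent.R267.DI.Fou
import Pool.Agent.R267.DI.Geo
import Pool.Agent.R267.DI.Grad
import Pool.Agent.R267.DI.Tur

set_option autoImplicit false
open Complex Real

namespace Pool.Agent.R267.DI

theorem exists_bounds {ρ : ℝ → ℝ} {a : ℝ} (hρ : Continuous ρ) (ha : 0 < a) (hpos : ∀ x, 0 < ρ x)
    (hper : ∀ x, ρ (x + a) = ρ x) : ∃ ρ0 ρ1 : ℝ, 0 < ρ0 ∧ (∀ x, ρ0 ≤ ρ x) ∧ (∀ x, ρ x ≤ ρ1) := by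
  have hne : (Set.Icc (0 : ℝ) a).Nonempty := ⟨0, le_rfl, ha.le⟩
  obtain ⟨x0, -, h0⟩ := isCompact_Icc.exists_isMinOn hne hρ.continuousOn
  obtain ⟨x1, -, h1⟩ := isCompact_Icc.exists_isMaxOn hne hρ.continuousOn
  have hred : ∀ x : ℝ, ∃ y ∈ Set.Icc (0 : ℝ) a, ρ x = ρ y := by
    intro x
    have hp : Function.Periodic ρ a := hper
    obtain ⟨y, hy, hy2⟩ := hp.exists_mem_Ico₀ ha x
    exact ⟨y, ⟨hy.1, hy.2.le⟩, hy2⟩
  refine ⟨ρ x0, ρ x1, hpos x0, fun x => ?_, fun x => ?_⟩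
  · obtain ⟨y, hy, hy2⟩ := hred x
    rw [hy2]
    exact h0 hy
  · obtain ⟨y, hy, hy2⟩ := hred x
    rw [hy2]
    exact h1 hy

theorem exists_M {b lam ρ1 : ℝ} (hb : 0 < b) :
    ∃ M : ℕ, (∀ m : ℤ, (M : ℤ) < |m| → lam * ρ1 < (2 * π / b * m) ^ 2) ∧
      2 * π / b * M ≤ Real.sqrt (lam * ρ1) := by
  have hκ : 0 < 2 * π / b := by positivity
  refine ⟨⌊Real.sqrt (lam * ρ1) / (2 * π / b)⌋₊, ?_, ?_⟩
  · intro m hm
    have h1 := Nat.lt_floor_add_one (Real.sqrt (lam * ρ1) / (2 * π / b))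
    have h2 : ((⌊Real.sqrt (lam * ρ1) / (2 * π / b)⌋₊ : ℝ) + 1) ≤ |(m : ℝ)| := by
      have : ((⌊Real.sqrt (lam * ρ1) / (2 * π / b)⌋₊ : ℤ) + 1) ≤ |m| := by omega
      exact_mod_cast this
    have h3 : Real.sqrt (lam * ρ1) < 2 * π / b * |(m : ℝ)| := by
      rw [div_lt_iff₀ hκ] at h1
      nlinarith
    have h4 : (2 * π / b * (m : ℝ)) ^ 2 = (2 * π / b * |(m : ℝ)|) ^ 2 := by
      rw [mul_pow, mul_pow, sq_abs]
    rw [h4]
    have h5 : 0 < |(m : ℝ)| := by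
      have : (0 : ℝ) ≤ (⌊Real.sqrt (lam * ρ1) / (2 * π / b)⌋₊ : ℝ) := Nat.cast_nonneg _
      linarith
    exact (Real.sqrt_lt' (by positivity)).1 h3
  · have h1 := Nat.floor_le (show 0 ≤ Real.sqrt (lam * ρ1) / (2 * π / b) by positivity)
    rw [le_div_iff₀ hκ] at h1
    linarith

/-- Turán's lemma for `esum`. -/
theorem tur_esum (K : ℕ) (c0 c1 : ℝ) (hc0 : 0 < c0) (hc1 : 0 < c1) : ∃ A : ℝ, 1 ≤ A ∧
    ∀ (κ η : ℝ) (M : ℕ) (c : ℤ → ℂ), 0 < κ → 0 < η → κ * M * η ≤ c0 →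
    {m : ℤ | c m ≠ 0}.encard ≤ K → ∀ (y0 : ℝ) (w : ℂ), ‖w - (y0 : ℂ)‖ ≤ c1 * η →
      ∃ θ : ℝ, |θ - y0| ≤ η ∧ ‖esum κ M c w‖ ≤ A * ‖esum κ M c (θ : ℂ)‖ := by
  classical
  obtain ⟨A, hA, hT⟩ := s_TUR K c0 c1 hc0 hc1
  refine ⟨A, hA, ?_⟩
  intro κ η M c hκ hη hM hK y0 w hw
  set T0 := (Finset.Icc (-(M : ℤ)) (M : ℤ)).filter (fun m => c m ≠ 0) with hT0
  have hcard : T0.card ≤ K := by
    have h1 : ((T0 : Set ℤ)).encard ≤ {m : ℤ | c m ≠ 0}.encard := by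
      apply Set.encard_le_encard
      intro m hm
      rw [Finset.mem_coe, hT0, Finset.mem_filter] at hm
      exact hm.2
    rw [Set.encard_coe_eq_coe_finsetCard] at h1
    have h2 := h1.trans hK
    exact_mod_cast h2
  set δ := κ * η with hδ
  have hδ0 : 0 < δ := by positivity
  set g : ℤ → ℝ := fun m => m * δ with hg
  have hginj : Function.Injective g := by
    intro m n hmn
    simp only [hg] at hmn
    have := mul_right_cancel₀ hδ0.ne' hmn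
    exact_mod_cast this
  set T := T0.image g with hTdef
  set d : ℝ → ℂ := fun μ => c ⌊μ / δ⌋ * Complex.exp (Complex.I * ((κ * ⌊μ / δ⌋ : ℝ) : ℂ) * (y0 : ℂ)) with hd
  have hsum : ∀ v : ℂ, esum κ M c ((y0 : ℂ) + (η : ℂ) * v)
      = ∑ μ ∈ T, d μ * Complex.exp (Complex.I * (μ : ℂ) * v) := by
    intro v
    rw [hTdef, Finset.sum_image (fun m _ n _ h => hginj h)]
    unfold esum
    rw [hT0, Finset.sum_filter]
    apply Finset.sum_congr rfl
    intro m _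
    by_cases hcm : c m = 0
    · simp [hcm]
    · rw [if_pos hcm]
      simp only [hd, hg]
      have : (m : ℝ) * δ / δ = m := by field_simp
      rw [this, Int.floor_intCast]
      conv_rhs => rw [mul_assoc, ← Complex.exp_add]
      congr 2
      rw [hδ]
      push_cast
      ring
  obtain ⟨t, ht, ht2⟩ := hT T d (Finset.card_image_le.trans hcard) (by
    intro μ hμ
    rw [hTdef, Finset.mem_image] at hμ
    obtain ⟨m, hm, rfl⟩ := hμ
    rw [hT0, Finset.mem_filter, Finset.mem_Icc] at hm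
    simp only [hg, hδ]
    rw [abs_mul, abs_of_pos hδ0]
    have h1 : |(m : ℝ)| ≤ M := by
      rw [abs_le]
      constructor
      · have := hm.1.1
        exact_mod_cast this
      · have := hm.1.2
        exact_mod_cast this
    calc |(m : ℝ)| * δ ≤ M * δ := by gcongr
      _ = κ * M * η := by rw [hδ]; ring
      _ ≤ c0 := hM) ((w - y0) / η) (by
    rw [norm_div, Complex.norm_real, Real.norm_of_nonneg hη.le, div_le_iff₀ hη]
    exact hw)
  refine ⟨y0 + η * t, ?_, ?_⟩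
  · rw [add_sub_cancel_left, abs_mul, abs_of_pos hη]
    nlinarith
  · have e1 : (y0 : ℂ) + (η : ℂ) * ((w - y0) / η) = w := by
      have : (η : ℂ) ≠ 0 := by exact_mod_cast hη.ne'
      field_simp
      ring
    have e2 : ((y0 + η * t : ℝ) : ℂ) = (y0 : ℂ) + (η : ℂ) * (t : ℂ) := by push_cast; ring
    rw [e2, hsum]
    rw [← hsum, e1] at ht2
    exact ht2

/-- Pointwise bound of all doubling indices for eigenfunctions with at most `K` frequencies. -/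
theorem few_frequencies {ρ : ℝ → ℝ} {a b s : ℝ} (hρ : Continuous ρ) (ha : 0 < a) (hb : 0 < b)
    (hpos : ∀ x, 0 < ρ x) (hper : ∀ x, ρ (x + a) = ρ x) (K : ℕ) {C : ℝ} (hC : 0 < C) :
    ∃ A : ℝ, 0 ≤ A ∧ ∀ (lam : ℝ) (φ : ℝ → ℝ → ℝ), 0 < lam → IsEigenfunction ρ a b s lam φ →
      {m : ℤ | ∃ x, fc b φ m x ≠ 0}.encard ≤ K →
      ∀ q : ℝ × ℝ, doublingIndex ρ a b s φ q (C / Real.sqrt lam) ≤ A := by
  obtain ⟨ρ0, ρ1, hρ0, h0, h1⟩ := exists_bounds hρ ha hpos hper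
  have hρ01 : ρ0 ≤ ρ1 := (h0 0).trans (h1 0)
  have hρ1 : 0 < ρ1 := lt_of_lt_of_le hρ0 hρ01
  have hs0 : 0 < Real.sqrt ρ0 := Real.sqrt_pos.2 hρ0
  have hs1 : 0 < Real.sqrt ρ1 := Real.sqrt_pos.2 hρ1
  obtain ⟨A, hA, hT⟩ := tur_esum K (C / 4) (32 * Real.sqrt ρ1 / Real.sqrt ρ0) (by positivity)
    (by positivity)
  have hlA : 0 ≤ Real.log A := Real.log_nonneg hA
  have hlocA := Real.log_nonneg (one_le_locA (ρ0 := ρ0) (ρ1 := ρ1) hC)
  have hlog2 : 0 < Real.log 2 := Real.log_pos (by norm_num)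
  refine ⟨(Real.log (locA ρ0 ρ1 C) + Real.log A + Real.log A) / Real.log 2, by positivity, ?_⟩
  intro lam φ hlam h hK q
  have hsl : 0 < Real.sqrt lam := Real.sqrt_pos.2 hlam
  obtain ⟨M, hM, hM2⟩ := exists_M (lam := lam) (ρ1 := ρ1) hb
  obtain ⟨u', hu, hu', hrep, hrep'⟩ := s_FOU ρ a b s lam ρ1 φ M hρ ha hb hlam h1 hper h.smooth
    h.per2 h.per1 h.pde hM
  have hu0 : ∀ m, (∀ x, fc b φ m x = 0) → ∀ x, u' m x = 0 := by
    intro m hm x
    have h2 := hu m x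
    have h3 : fc b φ m = fun _ => 0 := funext hm
    rw [h3] at h2
    exact h2.unique (hasDerivAt_const x (0 : ℂ))
  have hη : 0 < C / Real.sqrt lam / Real.sqrt ρ1 / 4 := by positivity
  have hMη : 2 * π / b * M * (C / Real.sqrt lam / Real.sqrt ρ1 / 4) ≤ C / 4 := by
    rw [Real.sqrt_mul hlam.le] at hM2
    calc 2 * π / b * M * (C / Real.sqrt lam / Real.sqrt ρ1 / 4)
        ≤ (Real.sqrt lam * Real.sqrt ρ1) * (C / Real.sqrt lam / Real.sqrt ρ1 / 4) := by gcongr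
      _ = C / 4 := by field_simp
  have hR : 4 * (2 * (C / Real.sqrt lam) / Real.sqrt ρ0)
      = 32 * Real.sqrt ρ1 / Real.sqrt ρ0 * (C / Real.sqrt lam / Real.sqrt ρ1 / 4) := by
    field_simp
    norm_num
  refine local_bound s_FOU s_CK s_GRAD s_GEO hρ ha hb hlam hρ0 h0 h1 hper hC h M hM u' hu hu'
    hrep hrep' q 0 0 q.1 q.2 (Real.log A) (Real.log A) hlA hlA ?_ ?_ ?_ ?_
  · simp; positivity
  · simp; positivity
  · intro w hw
    rw [hR] at hw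
    rw [Real.exp_log (by linarith)]
    refine hT (2 * π / b) _ M (fun m => fc b φ m q.1) (by positivity) hη hMη ?_ q.2 w hw
    refine le_trans (Set.encard_le_encard ?_) hK
    intro m hm
    exact ⟨q.1, hm⟩
  · intro w hw
    rw [hR] at hw
    rw [Real.exp_log (by linarith)]
    refine hT (2 * π / b) _ M (fun m => u' m q.1) (by positivity) hη hMη ?_ q.2 w hw
    refine le_trans (Set.encard_le_encard ?_) hK
    intro m hm
    simp only [Set.mem_ofPred_eq] at hm ⊢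
    by_contra hcon
    push Not at hcon
    exact hm (hu0 m hcon q.1)

end Pool.Agent.R267.DI
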