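import Pool.Agent.R267.DI.AsmA

set_option autoImplicit false
open Complex Real

namespace Pool.Agent.R267.DI

theorem weak_type (hW : S_WEAK) {ρ : ℝ → ℝ} {a b s : ℝ} (hρ : Continuous ρ) (ha : 0 < a) (hb : 0 < b)
    (hpos : ∀ x, 0 < ρ x) (hper : ∀ x, ρ (x + a) = ρ x) {C C1 C2 : ℝ} (hC : 0 < C) (hC1 : 0 < C1)
    (hC2 : 0 < C2) :
    ∃ A : ℝ, 0 ≤ A ∧ ∀ (lam : ℝ) (φ : ℝ → ℝ → ℝ), 0 < lam → IsEigenfunction ρ a b s lam φ →
      ∀ (ι : Type) [Fintype ι] (c : ι → ℝ × ℝ), IsAdmissible ρ a b s lam φ C C1 C2 c →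
      ∀ t : ℝ, 0 < t →
      (Set.ncard {i | t < doublingIndex ρ a b s φ (c i) (C / Real.sqrt lam)} : ℝ)
        ≤ A / t * Fintype.card ι := by
  obtain ⟨ρ0, ρ1, hρ0, h0, h1⟩ := exists_bounds hρ ha hpos hper
  have hρ01 : ρ0 ≤ ρ1 := (h0 0).trans (h1 0)
  have hρ1 : 0 < ρ1 := lt_of_lt_of_le hρ0 hρ01
  have hs0 : 0 < Real.sqrt ρ0 := Real.sqrt_pos.2 hρ0
  have hs1 : 0 < Real.sqrt ρ1 := Real.sqrt_pos.2 hρ1
  have hsC2 : 0 < Real.sqrt C2 := Real.sqrt_pos.2 hC2
  set c0 := C / 4 + 2 * π / b * (C * Real.sqrt C2 / (4 * Real.sqrt ρ1)) with hc0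
  have hc00 : 0 < c0 := by positivity
  obtain ⟨A, hA0, hA⟩ := hW c0 (32 * Real.sqrt ρ1 / Real.sqrt ρ0) (2 * π + c0) hc00
    (by positivity) (by positivity)
  set L := Real.log (locA ρ0 ρ1 C) with hL
  have hL0 : 0 ≤ L := Real.log_nonneg (one_le_locA (ρ0 := ρ0) (ρ1 := ρ1) hC)
  have hlog2 : 0 < Real.log 2 := Real.log_pos (by norm_num)
  set B1 := 4 * a * Real.sqrt ρ1 / C + Real.sqrt C2 with hB1
  set B2 := 4 * b * Real.sqrt ρ1 / C + Real.sqrt C2 with hB2
  have hB10 : 0 < B1 := by positivity
  have hB20 : 0 < B2 := by positivity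
  refine ⟨2 * L / Real.log 2 + C1 * (8 * A / Real.log 2) * (B1 * B2) * C2, by positivity, ?_⟩
  intro lam φ hlam h ι _ c hadm t ht
  have hsl : 0 < Real.sqrt lam := Real.sqrt_pos.2 hlam
  -- lower bound for lam
  have hne : Nonempty ι := ⟨(hadm.covers (0, 0)).choose⟩
  have hcard1 : (1 : ℝ) ≤ Fintype.card ι := by exact_mod_cast Fintype.card_pos
  have hlamC : 1 ≤ C2 * lam := hcard1.trans hadm.upper
  have hslC : 1 ≤ Real.sqrt C2 * Real.sqrt lam := by
    rw [← Real.sqrt_mul hC2.le]
    exact Real.one_le_sqrt.2 hlamC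
  set e := C / Real.sqrt lam / Real.sqrt ρ1 / 4 with he
  have he0 : 0 < e := by positivity
  have hee : e ≤ C * Real.sqrt C2 / (4 * Real.sqrt ρ1) := by
    rw [he]
    have : C / Real.sqrt lam ≤ C * Real.sqrt C2 := by
      rw [div_le_iff₀ hsl]
      nlinarith
    calc C / Real.sqrt lam / Real.sqrt ρ1 / 4 ≤ C * Real.sqrt C2 / Real.sqrt ρ1 / 4 := by gcongr
      _ = _ := by field_simp
  set nx := ⌈a / e⌉₊ with hnx
  set n := ⌈b / e⌉₊ with hn
  have hnx0 : 0 < nx := Nat.ceil_pos.2 (by positivity)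
  have hn0 : 0 < n := Nat.ceil_pos.2 (by positivity)
  have hnx0' : (0 : ℝ) < nx := by exact_mod_cast hnx0
  have hn0' : (0 : ℝ) < n := by exact_mod_cast hn0
  have hnxe : a ≤ nx * e := by
    rw [← div_le_iff₀ he0]
    exact Nat.le_ceil _
  have hne' : b ≤ n * e := by
    rw [← div_le_iff₀ he0]
    exact Nat.le_ceil _
  have hnxB : (nx : ℝ) ≤ B1 * Real.sqrt lam := by
    have h2 : (nx : ℝ) < a / e + 1 := Nat.ceil_lt_add_one (show 0 ≤ a / e by positivity)
    have h3 : a / e = 4 * a * Real.sqrt ρ1 / C * Real.sqrt lam := by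
      rw [he]; field_simp
    rw [h3] at h2
    rw [hB1, add_mul]
    linarith
  have hnB : (n : ℝ) ≤ B2 * Real.sqrt lam := by
    have h2 : (n : ℝ) < b / e + 1 := Nat.ceil_lt_add_one (show 0 ≤ b / e by positivity)
    have h3 : b / e = 4 * b * Real.sqrt ρ1 / C * Real.sqrt lam := by
      rw [he]; field_simp
    rw [h3] at h2
    rw [hB2, add_mul]
    linarith
  have hηc : 2 * π / b * e ≤ c0 := by
    rw [hc0]
    have : 2 * π / b * e ≤ 2 * π / b * (C * Real.sqrt C2 / (4 * Real.sqrt ρ1)) := by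
      gcongr
    have : 0 < C / 4 := by positivity
    linarith
  obtain ⟨J1, J2, cell, hP1, hP2, hJ1, hJ2, hcell, hfib, hloc⟩ := cells hρ ha hb hlam hρ0 h0 h1
    hper hC h c hadm nx n hnx0 hn0 hnxe hne'
    (fun J => ∀ t : ℝ, 0 < t →
      (((Finset.range n).filter (fun j : ℕ => t < J j)).card : ℝ) ≤ A * n / t) (by
      intro M cf hM
      have hη : 0 < 2 * π / b * e := by positivity
      by_cases hcf : ∃ m ∈ Finset.Icc (-(M : ℤ)) (M : ℤ), cf m ≠ 0
      · obtain ⟨J, hJ0, hJd, hJs⟩ := hA M n (2 * π / b * e) hn0 hη hηc (by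
            rw [hc0]
            have h5 : (M : ℝ) * (2 * π / b * e) ≤ C / 4 := by
              rw [Real.sqrt_mul hlam.le] at hM
              calc (M : ℝ) * (2 * π / b * e) = (2 * π / b * M) * e := by ring
                _ ≤ (Real.sqrt lam * Real.sqrt ρ1) * e := by gcongr
                _ = C / 4 := by rw [he]; field_simp
            have : 0 < 2 * π / b * (C * Real.sqrt C2 / (4 * Real.sqrt ρ1)) := by positivity
            linarith) (by
            have : (n : ℝ) * (2 * π / b * e) = 2 * π / b * (n * e) := by ring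
            rw [this]
            calc 2 * π = 2 * π / b * b := by field_simp
              _ ≤ 2 * π / b * (n * e) := by gcongr) (by
            have h6 : (n : ℝ) * e ≤ b + e := by
              have h7 : (n : ℝ) < b / e + 1 := Nat.ceil_lt_add_one (show 0 ≤ b / e by positivity)
              calc (n : ℝ) * e ≤ (b / e + 1) * e := by gcongr
                _ = b + e := by field_simp
            calc (n : ℝ) * (2 * π / b * e) = 2 * π / b * (n * e) := by ring
              _ ≤ 2 * π / b * (b + e) := by gcongr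
              _ = 2 * π + 2 * π / b * e := by field_simp
              _ ≤ 2 * π + c0 := by linarith) cf hcf
        exact ⟨J, ⟨fun j => (hJ0 j).1, hJd⟩, hJs⟩
      · push Not at hcf
        refine ⟨fun _ => 0, good_zero hη.le hcf, ?_⟩
        intro t ht
        have : (Finset.range n).filter (fun _ : ℕ => t < (0 : ℝ)) = ∅ := by
          apply Finset.filter_false_of_mem
          intro j _
          exact not_lt.2 ht.le
        rw [this]
        simp only [Finset.card_empty, Nat.cast_zero]
        positivity)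
  have hcardpos : (0 : ℝ) < Fintype.card ι := by linarith
  have hlamcard : lam ≤ C2 * Fintype.card ι := by
    have := hadm.lower
    rw [div_le_iff₀ hC2] at this
    linarith
  have hnn : (nx : ℝ) * n ≤ B1 * B2 * lam := by
    calc (nx : ℝ) * n ≤ (B1 * Real.sqrt lam) * (B2 * Real.sqrt lam) := by gcongr
      _ = B1 * B2 * (Real.sqrt lam * Real.sqrt lam) := by ring
      _ = B1 * B2 * lam := by rw [Real.mul_self_sqrt hlam.le]
  classical
  rw [add_div, add_mul]
  by_cases hsmall : t ≤ 2 * L / Real.log 2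
  · have h2 : (Set.ncard {i | t < doublingIndex ρ a b s φ (c i) (C / Real.sqrt lam)} : ℝ)
        ≤ Fintype.card ι := by
      have : Set.ncard {i | t < doublingIndex ρ a b s φ (c i) (C / Real.sqrt lam)}
          ≤ Set.ncard (Set.univ : Set ι) := Set.ncard_le_ncard (Set.subset_univ _) (Set.toFinite _)
      rw [Set.ncard_univ, Nat.card_eq_fintype_card] at this
      exact_mod_cast this
    have h3 : 1 ≤ 2 * L / Real.log 2 / t := by
      rw [le_div_iff₀ ht]
      linarith
    have h4 : 0 ≤ C1 * (8 * A / Real.log 2) * (B1 * B2) * C2 / t * (Fintype.card ι : ℝ) := by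
      positivity
    nlinarith
  · push Not at hsmall
    set t' := t * Real.log 2 / 4 with ht'
    have ht'0 : 0 < t' := by positivity
    set S := Finset.range nx ×ˢ Finset.range n with hS
    set Bad := S.filter (fun p => t' < J1 p.1 p.2) ∪ S.filter (fun p => t' < J2 p.1 p.2) with hBad
    have hcount : ∀ J : ℕ → ℕ → ℝ, (∀ i, ∀ t : ℝ, 0 < t →
        (((Finset.range n).filter (fun j : ℕ => t < J i j)).card : ℝ) ≤ A * n / t) →
        ((S.filter (fun p => t' < J p.1 p.2)).card : ℝ) ≤ nx * (A * n / t') := by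
      intro J hJ
      have h5 : ((S.filter (fun p => t' < J p.1 p.2)).card : ℝ)
          = ∑ i ∈ Finset.range nx, (((Finset.range n).filter (fun j : ℕ => t' < J i j)).card : ℝ) := by
        rw [Finset.card_filter, hS, Finset.sum_product]
        push_cast
        apply Finset.sum_congr rfl
        intro i _
        rw [Finset.card_filter]
        push_cast
        rfl
      rw [h5]
      calc ∑ i ∈ Finset.range nx, (((Finset.range n).filter (fun j : ℕ => t' < J i j)).card : ℝ)
          ≤ ∑ _i ∈ Finset.range nx, (A * n / t') :=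
            Finset.sum_le_sum (fun i _ => hJ i t' ht'0)
        _ = _ := by rw [Finset.sum_const, Finset.card_range, nsmul_eq_mul]
    have hBadcard : (Bad.card : ℝ) ≤ nx * (A * n / t') + nx * (A * n / t') := by
      calc (Bad.card : ℝ) ≤ ((S.filter (fun p => t' < J1 p.1 p.2)).card : ℝ)
          + ((S.filter (fun p => t' < J2 p.1 p.2)).card : ℝ) := by
            exact_mod_cast Finset.card_union_le _ _
        _ ≤ _ := add_le_add (hcount J1 hP1) (hcount J2 hP2)
    have hin : ∀ k : ι, t < doublingIndex ρ a b s φ (c k) (C / Real.sqrt lam) → cell k ∈ Bad := by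
      intro k hk
      have h6 := lt_of_lt_of_le hk (hloc k)
      rw [lt_div_iff₀ hlog2] at h6
      have h7 : 2 * L < t * Real.log 2 := by
        rw [div_lt_iff₀ hlog2] at hsmall
        exact hsmall
      rw [hBad, Finset.mem_union, Finset.mem_filter, Finset.mem_filter]
      by_contra hcon
      push Not at hcon
      have h8 := hcon.1 (hcell k)
      have h9 := hcon.2 (hcell k)
      rw [ht'] at h8 h9
      linarith
    have hncard : (Set.ncard {i | t < doublingIndex ρ a b s φ (c i) (C / Real.sqrt lam)} : ℝ)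
        ≤ C1 * Bad.card := by
      have h10 := sum_cells (S := S) hcell hfib (fun p => if p ∈ Bad then (1 : ℝ) else 0)
        (fun p => by positivity)
      have h11 : (Set.ncard {i | t < doublingIndex ρ a b s φ (c i) (C / Real.sqrt lam)} : ℝ)
          ≤ ∑ k, (if cell k ∈ Bad then (1 : ℝ) else 0) := by
        rw [← Finset.sum_filter, Finset.sum_const, nsmul_eq_mul, mul_one]
        rw [← Set.ncard_coe_finset]
        refine Nat.cast_le.2 (Set.ncard_le_ncard ?_ (Set.toFinite _))
        intro k hk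
        rw [Finset.mem_coe, Finset.mem_filter]
        exact ⟨Finset.mem_univ k, hin k hk⟩
      have h12 : ∑ p ∈ S, (if p ∈ Bad then (1 : ℝ) else 0) ≤ Bad.card := by
        rw [← Finset.sum_filter, Finset.sum_const, nsmul_eq_mul, mul_one]
        refine Nat.cast_le.2 (Finset.card_le_card ?_)
        intro p hp
        exact (Finset.mem_filter.1 hp).2
      calc _ ≤ _ := h11
        _ ≤ _ := h10
        _ ≤ C1 * Bad.card := by gcongr
    have hfinal : C1 * (Bad.card : ℝ) ≤ C1 * (8 * A / Real.log 2) * (B1 * B2) * C2 / t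
        * Fintype.card ι := by
      calc C1 * (Bad.card : ℝ) ≤ C1 * (nx * (A * n / t') + nx * (A * n / t')) := by gcongr
        _ = C1 * (8 * A / Real.log 2) * (nx * n) / t := by
          rw [ht']; field_simp; ring
        _ ≤ C1 * (8 * A / Real.log 2) * (B1 * B2 * lam) / t := by gcongr
        _ ≤ C1 * (8 * A / Real.log 2) * (B1 * B2 * (C2 * Fintype.card ι)) / t := by gcongr
        _ = _ := by ring
    have h13 : 0 ≤ 2 * L / Real.log 2 / t * (Fintype.card ι : ℝ) := by positivity
    linarith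

end Pool.Agent.R267.DI
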