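import Pool.Agent.R267.DI.Defs

set_option autoImplicit false

/-!
# Eigenfunctions, admissible coverings and doubling indices on the torus
`ℝ² / (ℤ (a, s) + ℤ (0, b))` with the metric `ρ(x) (dx² + dy²)`
-/
namespace Pool.Agent.R267.DI

/-- `φ` is a `C²` function on the torus `ℝ² / (ℤ (a, s) + ℤ (0, b))` with `Δ_g φ + lam φ = 0` for
the metric `g = ρ(x) (dx² + dy²)`, that is `φ_xx + φ_yy + lam ρ(x) φ = 0`, and `φ` is not
identically zero. -/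
structure IsEigenfunction (ρ : ℝ → ℝ) (a b s lam : ℝ) (φ : ℝ → ℝ → ℝ) : Prop where
  smooth : ContDiff ℝ 2 (fun p : ℝ × ℝ => φ p.1 p.2)
  per1 : ∀ x y, φ (x + a) (y + s) = φ x y
  per2 : ∀ x y, φ x (y + b) = φ x y
  pde : ∀ x y, deriv (deriv (fun t => φ t y)) x + deriv (deriv (fun t => φ x t)) y
    + lam * ρ x * φ x y = 0
  ne : ∃ x y, φ x y ≠ 0

/-- The supremum of `|φ|` on the geodesic disc with centre (the class of) `q` and radius `r`. -/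
noncomputable def supOn (ρ : ℝ → ℝ) (a b s : ℝ) (φ : ℝ → ℝ → ℝ) (q : ℝ × ℝ) (r : ℝ) : ℝ :=
  sSup {t : ℝ | ∃ p : ℝ × ℝ, gdist ρ a b s p q < r ∧ t = |φ p.1 p.2|}

/-- The doubling index `log₂ (sup_{2B} |φ| / sup_B |φ|)` of the geodesic disc `B = B(q, r)`. -/
noncomputable def doublingIndex (ρ : ℝ → ℝ) (a b s : ℝ) (φ : ℝ → ℝ → ℝ) (q : ℝ × ℝ) (r : ℝ) : ℝ :=
  Real.logb 2 (supOn ρ a b s φ q (2 * r) / supOn ρ a b s φ q r)

/-- Admissible covering: a finite family of geodesic discs of radius `C / √lam` with centres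
`c i`. -/
structure IsAdmissible (ρ : ℝ → ℝ) (a b s lam : ℝ) (φ : ℝ → ℝ → ℝ) (C C1 C2 : ℝ)
    {ι : Type} [Fintype ι] (c : ι → ℝ × ℝ) : Prop where
  covers : ∀ p : ℝ × ℝ, ∃ i, gdist ρ a b s p (c i) < C / Real.sqrt lam
  overlap : ∀ p : ℝ × ℝ,
    (Set.ncard {i | gdist ρ a b s p (c i) < C / Real.sqrt lam} : ℝ) ≤ C1
  lower : lam / C2 ≤ Fintype.card ι
  upper : (Fintype.card ι : ℝ) ≤ C2 * lam
  zero : ∀ i, φ (c i).1 (c i).2 = 0

end Pool.Agent.R267.DI
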