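import Pool.Agent.R267.DI.AsmB

set_option autoImplicit false
open Complex Real

namespace Pool.Agent.R267.DI

/-- `J` bounds the doubling of the exponential sum with coefficients `c` around the nodes. -/
def Good (M n : ℕ) (η c1 : ℝ) (c : ℤ → ℂ) (J : ℕ → ℝ) : Prop :=
  (∀ j, 0 ≤ J j) ∧ ∀ j, j < n → ∀ w : ℂ, ‖w - ((2 * π * j / n : ℝ) : ℂ)‖ ≤ c1 * η →
      ∃ θ : ℝ, |θ - 2 * π * j / n| ≤ η ∧
        ‖esum 1 M c w‖ ≤ Real.exp (J j) * ‖esum 1 M c (θ : ℂ)‖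

theorem good_zero {M n : ℕ} {η c1 : ℝ} {c : ℤ → ℂ} (hη : 0 ≤ η)
    (hc : ∀ m ∈ Finset.Icc (-(M : ℤ)) (M : ℤ), c m = 0) : Good M n η c1 c (fun _ => 0) := by
  refine ⟨fun _ => le_rfl, fun j _ w _ => ⟨2 * π * j / n, by simpa using hη, ?_⟩⟩
  have : ∀ v, esum 1 M c v = 0 := by
    intro v
    unfold esum
    apply Finset.sum_eq_zero
    intro m hm
    rw [hc m hm, zero_mul]
  rw [this, this]
  simp

theorem esum_scale (κ : ℝ) (M : ℕ) (c : ℤ → ℂ) (w : ℂ) :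
    esum κ M c w = esum 1 M c ((κ : ℂ) * w) := by
  unfold esum
  apply Finset.sum_congr rfl
  intro m _
  congr 2
  push_cast
  ring

theorem Good.scale {M n : ℕ} {η c1 : ℝ} {c : ℤ → ℂ} {J : ℕ → ℝ} (h : Good M n η c1 c J)
    {b e : ℝ} (hb : 0 < b) (hη : η = 2 * π / b * e) {j : ℕ} (hj : j < n) (w : ℂ)
    (hw : ‖w - ((j * b / n : ℝ) : ℂ)‖ ≤ c1 * e) :
    ∃ θ : ℝ, |θ - j * b / n| ≤ e ∧
      ‖esum (2 * π / b) M c w‖ ≤ Real.exp (J j) * ‖esum (2 * π / b) M c (θ : ℂ)‖ := by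
  have hκ : 0 < 2 * π / b := by positivity
  obtain ⟨θ, hθ, hθ2⟩ := h.2 j hj (((2 * π / b : ℝ) : ℂ) * w) (by
    have : ((2 * π / b : ℝ) : ℂ) * w - ((2 * π * j / n : ℝ) : ℂ)
        = ((2 * π / b : ℝ) : ℂ) * (w - ((j * b / n : ℝ) : ℂ)) := by
      push_cast
      have hb' : (b : ℂ) ≠ 0 := by exact_mod_cast hb.ne'
      field_simp
    rw [this, norm_mul, Complex.norm_real, Real.norm_of_nonneg hκ.le, hη]
    calc 2 * π / b * ‖w - ((j * b / n : ℝ) : ℂ)‖ ≤ 2 * π / b * (c1 * e) := by gcongr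
      _ = _ := by ring)
  refine ⟨θ / (2 * π / b), ?_, ?_⟩
  · have : θ / (2 * π / b) - j * b / n = (θ - 2 * π * j / n) / (2 * π / b) := by
      field_simp
    rw [this, abs_div, abs_of_pos hκ, div_le_iff₀ hκ]
    rw [hη] at hθ
    linarith
  · rw [esum_scale (2 * π / b) M c w, esum_scale (2 * π / b) M c]
    have : ((2 * π / b : ℝ) : ℂ) * ((θ / (2 * π / b) : ℝ) : ℂ) = (θ : ℂ) := by
      rw [← Complex.ofReal_mul]
      congr 1
      field_simp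
    rw [this]
    exact hθ2

/-- The grid index of a point of `[0, a)`. -/
theorem grid_index {a x e : ℝ} {n : ℕ} (ha : 0 < a) (hn : 0 < n) (hx : x ∈ Set.Ico (0 : ℝ) a)
    (he : a ≤ n * e) : ∃ i : ℕ, i < n ∧ |x - i * a / n| ≤ e := by
  have hn' : (0 : ℝ) < n := by exact_mod_cast hn
  refine ⟨⌊x * n / a⌋₊, ?_, ?_⟩
  · rw [Nat.floor_lt (by have := hx.1; positivity)]
    rw [div_lt_iff₀ ha]
    have := hx.2
    nlinarith
  · have h1 := Nat.floor_le (show 0 ≤ x * n / a by have := hx.1; positivity)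
    have h2 := Nat.lt_floor_add_one (x * n / a)
    set i : ℝ := (⌊x * n / a⌋₊ : ℝ) with hi
    rw [le_div_iff₀ ha] at h1
    rw [div_lt_iff₀ ha] at h2
    have h3 : i * a / n ≤ x := by
      rw [div_le_iff₀ hn']
      linarith
    have h4 : x ≤ i * a / n + a / n := by
      rw [← add_div, le_div_iff₀ hn']
      linarith
    have h5 : a / n ≤ e := by
      rw [div_le_iff₀ hn']
      linarith
    rw [abs_le]
    constructor <;> linarith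

/-- All data of a torus at one energy with a grid: the discs are distributed over the cells. -/
theorem cells {ρ : ℝ → ℝ} {a b s lam : ℝ} {φ : ℝ → ℝ → ℝ}
    {ρ0 ρ1 C C1 C2 : ℝ} (hρ : Continuous ρ) (ha : 0 < a) (hb : 0 < b) (hlam : 0 < lam)
    (hρ0 : 0 < ρ0)
    (h0 : ∀ x, ρ0 ≤ ρ x) (h1 : ∀ x, ρ x ≤ ρ1) (hper : ∀ x, ρ (x + a) = ρ x) (hC : 0 < C)
    (h : IsEigenfunction ρ a b s lam φ) {ι : Type} [Fintype ι] (c : ι → ℝ × ℝ)
    (hadm : IsAdmissible ρ a b s lam φ C C1 C2 c) (nx n : ℕ) (hnx : 0 < nx) (hn : 0 < n)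
    (hnxe : a ≤ nx * (C / Real.sqrt lam / Real.sqrt ρ1 / 4))
    (hne : b ≤ n * (C / Real.sqrt lam / Real.sqrt ρ1 / 4))
    (P : (ℕ → ℝ) → Prop)
    (hP : ∀ (M : ℕ) (cf : ℤ → ℂ), 2 * π / b * M ≤ Real.sqrt (lam * ρ1) →
      ∃ J : ℕ → ℝ, Good M n (2 * π / b * (C / Real.sqrt lam / Real.sqrt ρ1 / 4))
        (32 * Real.sqrt ρ1 / Real.sqrt ρ0) cf J ∧ P J) :
    ∃ (J1 J2 : ℕ → ℕ → ℝ) (cell : ι → ℕ × ℕ),
      (∀ i, P (J1 i)) ∧ (∀ i, P (J2 i)) ∧ (∀ i j, 0 ≤ J1 i j) ∧ (∀ i j, 0 ≤ J2 i j) ∧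
      (∀ k, cell k ∈ Finset.range nx ×ˢ Finset.range n) ∧
      (∀ p : ℕ × ℕ, (((Finset.univ.filter (fun k => cell k = p)).card : ℕ) : ℝ) ≤ C1) ∧
      ∀ k, doublingIndex ρ a b s φ (c k) (C / Real.sqrt lam)
        ≤ (Real.log (locA ρ0 ρ1 C) + J1 (cell k).1 (cell k).2 + J2 (cell k).1 (cell k).2)
          / Real.log 2 := by
  classical
  have hρ01 : ρ0 ≤ ρ1 := (h0 0).trans (h1 0)
  have hρ1 : 0 < ρ1 := lt_of_lt_of_le hρ0 hρ01
  have hs0 : 0 < Real.sqrt ρ0 := Real.sqrt_pos.2 hρ0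
  have hs1 : 0 < Real.sqrt ρ1 := Real.sqrt_pos.2 hρ1
  have hsl : 0 < Real.sqrt lam := Real.sqrt_pos.2 hlam
  obtain ⟨M, hM, hM2⟩ := exists_M (lam := lam) (ρ1 := ρ1) hb
  obtain ⟨u', hu, hu', hrep, hrep'⟩ := s_FOU ρ a b s lam ρ1 φ M hρ ha hb hlam h1 hper h.smooth
    h.per2 h.per1 h.pde hM
  have hJ1 : ∀ i : ℕ, ∃ J : ℕ → ℝ,
      Good M n (2 * π / b * (C / Real.sqrt lam / Real.sqrt ρ1 / 4))
        (32 * Real.sqrt ρ1 / Real.sqrt ρ0) (fun m => fc b φ m (i * a / nx)) J ∧ P J :=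
    fun i => hP M _ hM2
  have hJ2 : ∀ i : ℕ, ∃ J : ℕ → ℝ,
      Good M n (2 * π / b * (C / Real.sqrt lam / Real.sqrt ρ1 / 4))
        (32 * Real.sqrt ρ1 / Real.sqrt ρ0) (fun m => u' m (i * a / nx)) J ∧ P J :=
    fun i => hP M _ hM2
  choose J1 hJ1g hJ1P using hJ1
  choose J2 hJ2g hJ2P using hJ2
  have hcell : ∀ k : ι, ∃ (i j : ℕ) (m l : ℤ), i < nx ∧ j < n ∧
      |(c k).1 + m * a - i * a / nx| ≤ C / Real.sqrt lam / Real.sqrt ρ1 / 4 ∧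
      |(c k).2 + m * s + l * b - j * b / n| ≤ C / Real.sqrt lam / Real.sqrt ρ1 / 4 := by
    intro k
    obtain ⟨m, l, hm, hl⟩ := exists_rep s ha hb (c k)
    obtain ⟨i, hi, hi2⟩ := grid_index ha hnx hm hnxe
    obtain ⟨j, hj, hj2⟩ := grid_index hb hn hl hne
    exact ⟨i, j, m, l, hi, hj, hi2, hj2⟩
  choose ci cj cm cl hci hcj hcx hcy using hcell
  have hR : 4 * (2 * (C / Real.sqrt lam) / Real.sqrt ρ0)
      = 32 * Real.sqrt ρ1 / Real.sqrt ρ0 * (C / Real.sqrt lam / Real.sqrt ρ1 / 4) := by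
    field_simp
    norm_num
  refine ⟨J1, J2, fun k => (ci k, cj k), hJ1P, hJ2P, fun i => (hJ1g i).1, fun i => (hJ2g i).1,
    ?_, ?_, ?_⟩
  · intro k
    simp [hci k, hcj k]
  · intro p
    obtain ⟨-, hgeo2⟩ := s_GEO ρ a b s ρ0 ρ1 hρ hρ0 h0 h1
    refine le_trans ?_ (hadm.overlap (p.1 * a / nx, p.2 * b / n))
    rw [← Set.ncard_coe_finset]
    refine Nat.cast_le.2 (Set.ncard_le_ncard ?_ (Set.toFinite _))
    intro k hk
    rw [Finset.mem_coe, Finset.mem_filter] at hk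
    have hk2 := hk.2
    rw [Set.mem_ofPred_eq]
    apply hgeo2 _ (c k) _ (cm k) (cl k)
    have hx := hcx k
    have hy := hcy k
    have e1 : ci k = p.1 := by rw [← hk2]
    have e2 : cj k = p.2 := by rw [← hk2]
    rw [e1] at hx
    rw [e2] at hy
    have hpos : 0 < C / Real.sqrt lam / Real.sqrt ρ1 := by positivity
    rw [Real.sqrt_lt' hpos]
    rw [abs_le] at hx hy
    set E := C / Real.sqrt lam / Real.sqrt ρ1 with hE
    simp only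
    nlinarith
  · intro k
    refine local_bound s_FOU s_CK s_GRAD s_GEO hρ ha hb hlam hρ0 h0 h1 hper hC h M hM u' hu hu'
      hrep hrep' (c k) (cm k) (cl k) (ci k * a / nx) (cj k * b / n) _ _ ((hJ1g _).1 _)
      ((hJ2g _).1 _) (hcx k) (hcy k) ?_ ?_
    · intro w hw
      rw [hR] at hw
      exact (hJ1g (ci k)).scale hb rfl (hcj k) w hw
    · intro w hw
      rw [hR] at hw
      exact (hJ2g (ci k)).scale hb rfl (hcj k) w hw

end Pool.Agent.R267.DI
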