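import Mathlib
import Pool.Agent.R267.DI.Weak

/-! DI-HWK: weak type bound of the far field (helper361). -/

set_option autoImplicit false
open Complex Real MeasureTheory

namespace Pool.Agent.R267.DI
namespace Hwk

lemma norm_pt (θ : ℝ) : ‖pt θ‖ = 1 := by
  rw [pt, mul_comm]; exact Complex.norm_exp_ofReal_mul_I θ

lemma continuous_pt : Continuous pt := by
  unfold pt; fun_prop

lemma norm_pt_sub (a b : ℝ) : ‖pt a - pt b‖ ≤ |a - b| := by
  have h1 : pt a = pt b * Complex.exp (Complex.I * ((a - b : ℝ) : ℂ)) := by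
    unfold pt
    rw [← Complex.exp_add]
    congr 1
    push_cast
    ring
  have h2 : pt a - pt b = pt b * (Complex.exp (Complex.I * ((a - b : ℝ) : ℂ)) - 1) := by
    rw [h1]; ring
  rw [h2, norm_mul, norm_pt, one_mul]
  exact Real.norm_exp_I_mul_ofReal_sub_one_le

lemma kdiff (z : ℂ) (θ θ0 h' : ℝ) (hd : 0 < ‖pt θ0 - z‖) (hθ : |θ - θ0| ≤ h')
    (hh : h' ≤ ‖pt θ0 - z‖ / 2) :
    ‖pt θ / (pt θ - z) - pt θ0 / (pt θ0 - z)‖ ≤
      2 * h' * (1 + ‖pt θ0 - z‖) / ‖pt θ0 - z‖ ^ 2 := by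
  set d := ‖pt θ0 - z‖ with hd_def
  have h1 : d / 2 ≤ ‖pt θ - z‖ := by
    have e1 : pt θ0 - z = (pt θ0 - pt θ) + (pt θ - z) := by ring
    have e2 : d ≤ ‖pt θ0 - pt θ‖ + ‖pt θ - z‖ := by
      rw [hd_def, e1]; exact norm_add_le _ _
    have e3 : ‖pt θ0 - pt θ‖ ≤ h' := (norm_pt_sub _ _).trans (by rw [abs_sub_comm]; exact hθ)
    linarith
  have hz : ‖z‖ ≤ 1 + d := by
    have e1 : z = pt θ0 - (pt θ0 - z) := by ring
    calc ‖z‖ = ‖pt θ0 - (pt θ0 - z)‖ := by rw [← e1]
      _ ≤ ‖pt θ0‖ + ‖pt θ0 - z‖ := norm_sub_le _ _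
      _ = 1 + d := by rw [norm_pt]
  have n1 : pt θ - z ≠ 0 := by
    intro h; rw [h, norm_zero] at h1; linarith
  have n0 : pt θ0 - z ≠ 0 := by
    intro h; rw [hd_def, h, norm_zero] at hd; exact lt_irrefl _ hd
  have e : pt θ / (pt θ - z) - pt θ0 / (pt θ0 - z) =
      z * (pt θ0 - pt θ) / ((pt θ - z) * (pt θ0 - z)) := by
    rw [div_sub_div _ _ n1 n0]
    congr 1
    ring
  rw [e, norm_div, norm_mul, norm_mul, ← hd_def]
  have hh0 : 0 ≤ h' := (abs_nonneg _).trans hθ
  have h3 : ‖pt θ0 - pt θ‖ ≤ h' := (norm_pt_sub _ _).trans (by rw [abs_sub_comm]; exact hθ)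
  have hd1 : 0 < ‖pt θ - z‖ := by linarith
  rw [div_le_div_iff₀ (by positivity) (by positivity)]
  calc ‖z‖ * ‖pt θ0 - pt θ‖ * d ^ 2 ≤ (1 + d) * h' * d ^ 2 := by gcongr
    _ = (2 * h' * (1 + d)) * ((d / 2) * d) := by ring
    _ ≤ (2 * h' * (1 + d)) * (‖pt θ - z‖ * d) := by gcongr

lemma far_bound {D : ℕ} (z : Fin D → ℂ) (B h h' c5 θ θ0 : ℝ) (hB : 0 < B) (hh : 0 < h)
    (hh' : h' ≤ h) (hh2 : h' ≤ B * h / 2) (hc5 : h * D ≤ c5)
    (hθ : |θ - θ0| ≤ h') :
    h * qH z B h θ0 ≤ h * |(∑ k ∈ farS z B h θ0, pt θ / (pt θ - z k)).im|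
      + 2 * qQ z B h θ0 + 2 * c5 / B := by
  have hh0 : 0 ≤ h' := (abs_nonneg _).trans hθ
  have hmem : ∀ k ∈ farS z B h θ0, B * h < ‖pt θ0 - z k‖ := by
    intro k hk
    simpa [farS] using hk
  have h1 : ‖(∑ k ∈ farS z B h θ0, pt θ / (pt θ - z k)) -
      ∑ k ∈ farS z B h θ0, pt θ0 / (pt θ0 - z k)‖ ≤
      ∑ k ∈ farS z B h θ0, 2 * h' * (1 + ‖pt θ0 - z k‖) / ‖pt θ0 - z k‖ ^ 2 := by
    rw [← Finset.sum_sub_distrib]
    refine (norm_sum_le _ _).trans (Finset.sum_le_sum fun k hk => ?_)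
    have hk' := hmem k hk
    have hBh : 0 < B * h := by positivity
    exact kdiff (z k) θ θ0 h' (hBh.trans hk') hθ (by linarith)
  have h2 : h * ∑ k ∈ farS z B h θ0, 2 * h' * (1 + ‖pt θ0 - z k‖) / ‖pt θ0 - z k‖ ^ 2 ≤
      2 * qQ z B h θ0 + 2 * c5 / B := by
    have h3 : ∀ k ∈ farS z B h θ0, h * (2 * h' * (1 + ‖pt θ0 - z k‖) / ‖pt θ0 - z k‖ ^ 2) ≤
        2 * (h ^ 2 / ‖pt θ0 - z k‖ ^ 2) + 2 * h / B := by
      intro k hk
      have hk' := hmem k hk
      have hBh : 0 < B * h := by positivity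
      set d := ‖pt θ0 - z k‖ with hd
      have hd0 : 0 < d := hBh.trans hk'
      have e1 : h * (2 * h' * (1 + d) / d ^ 2) = 2 * (h * h' / d ^ 2) + 2 * h * (h' / d) := by
        field_simp
      rw [e1]
      have e2 : h * h' / d ^ 2 ≤ h ^ 2 / d ^ 2 := by
        apply div_le_div_of_nonneg_right _ (by positivity)
        nlinarith
      have e3 : h' / d ≤ 1 / B := by
        rw [div_le_div_iff₀ hd0 hB]
        nlinarith
      have e4 : 2 * h * (h' / d) ≤ 2 * h * (1 / B) := by gcongr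
      have e5 : 2 * h * (1 / B) = 2 * h / B := by ring
      linarith
    calc h * ∑ k ∈ farS z B h θ0, 2 * h' * (1 + ‖pt θ0 - z k‖) / ‖pt θ0 - z k‖ ^ 2
        = ∑ k ∈ farS z B h θ0, h * (2 * h' * (1 + ‖pt θ0 - z k‖) / ‖pt θ0 - z k‖ ^ 2) := by
          rw [Finset.mul_sum]
      _ ≤ ∑ k ∈ farS z B h θ0, (2 * (h ^ 2 / ‖pt θ0 - z k‖ ^ 2) + 2 * h / B) :=
          Finset.sum_le_sum h3
      _ = 2 * qQ z B h θ0 + (farS z B h θ0).card * (2 * h / B) := by
          rw [Finset.sum_add_distrib, ← Finset.mul_sum, Finset.sum_const, nsmul_eq_mul]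
          rfl
      _ ≤ 2 * qQ z B h θ0 + 2 * c5 / B := by
          have hc : ((farS z B h θ0).card : ℝ) ≤ D := by
            have := Finset.card_le_univ (farS z B h θ0)
            rw [Fintype.card_fin] at this
            exact_mod_cast this
          have e6 : ((farS z B h θ0).card : ℝ) * (2 * h / B) ≤ D * (2 * h / B) := by gcongr
          have e7 : (D : ℝ) * (2 * h / B) = 2 * (h * D) / B := by ring
          have e8 : 2 * (h * D) / B ≤ 2 * c5 / B := by gcongr
          linarith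
  have h4 : qH z B h θ0 ≤ |(∑ k ∈ farS z B h θ0, pt θ / (pt θ - z k)).im| +
      ‖(∑ k ∈ farS z B h θ0, pt θ / (pt θ - z k)) -
        ∑ k ∈ farS z B h θ0, pt θ0 / (pt θ0 - z k)‖ := by
    unfold qH
    set P := ∑ k ∈ farS z B h θ0, pt θ / (pt θ - z k)
    set Q := ∑ k ∈ farS z B h θ0, pt θ0 / (pt θ0 - z k)
    have e1 : Q.im = P.im - (P - Q).im := by simp
    have e2 := Complex.abs_im_le_norm (P - Q)
    rw [e1]
    exact (abs_sub _ _).trans (by linarith)
  have h5 : h * qH z B h θ0 ≤ h * (|(∑ k ∈ farS z B h θ0, pt θ / (pt θ - z k)).im| +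
      ∑ k ∈ farS z B h θ0, 2 * h' * (1 + ‖pt θ0 - z k‖) / ‖pt θ0 - z k‖ ^ 2) := by
    apply mul_le_mul_of_nonneg_left _ hh.le
    linarith
  rw [mul_add] at h5
  linarith

lemma split {D : ℕ} (z : Fin D → ℂ) (B h θ0 : ℝ) (f : Fin D → ℂ) :
    ∑ k ∈ nearS z B h θ0, f k + ∑ k ∈ farS z B h θ0, f k = ∑ k, f k := by
  classical
  have e1 : nearS z B h θ0 = Finset.univ.filter (fun k => ‖pt θ0 - z k‖ ≤ B * h) := by
    ext k; simp [nearS]
  have e2 : farS z B h θ0 = Finset.univ.filter (fun k => ¬ ‖pt θ0 - z k‖ ≤ B * h) := by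
    ext k; simp [farS]
  rw [e1, e2]
  exact Finset.sum_filter_add_sum_filter_not Finset.univ _ f

lemma boole_fin (h1 : S_BOOLE) {D : ℕ} (z : Fin D → ℂ) (S : Finset (Fin D)) (t : ℝ)
    (ht : 0 < t) :
    volume {θ : ℝ | θ ∈ Set.Ioc 0 (2 * π) ∧ t < |(∑ k ∈ S, pt θ / (pt θ - z k)).im|}
      ≤ ENNReal.ofReal (2 * π * S.card / t) := by
  have h := h1 S.card (fun i => z (S.equivFin.symm i)) t ht
  have e : ∀ θ : ℝ, ∑ i : Fin S.card, pt θ / (pt θ - z (S.equivFin.symm i)) =
      ∑ k ∈ S, pt θ / (pt θ - z k) := by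
    intro θ
    rw [← Finset.sum_coe_sort S (fun k => pt θ / (pt θ - z k))]
    exact Equiv.sum_comp S.equivFin.symm (fun k : S => pt θ / (pt θ - z k))
  simpa only [e] using h

lemma measurable_V {D : ℕ} (z : Fin D → ℂ) (s : ℝ) :
    MeasurableSet {θ : ℝ | s < |(∑ k, pt θ / (pt θ - z k)).im|} := by
  apply measurableSet_lt measurable_const
  have h0 : Measurable pt := continuous_pt.measurable
  have h1 : Measurable (fun θ : ℝ => ∑ k, pt θ / (pt θ - z k)) := by
    apply Finset.measurable_sum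
    intro k _
    exact h0.div (h0.sub_const _)
  exact (Complex.measurable_im.comp h1).abs

lemma core (h1 : S_BOOLE) {D : ℕ} (z : Fin D → ℂ) (B h h' c5 a T : ℝ) (hB : 0 < B) (hh : 0 < h)
    (hh0 : 0 < h') (hh' : h' ≤ h) (hh2 : h' ≤ B * h / 2) (hc5 : h * D ≤ c5)
    (ha : 0 ≤ a) (ha2 : a + h' ≤ 2 * π)
    (hl : T + 8 * π * (h / h') * qN z B h a + 2 * qQ z B h a + 2 * c5 / B < h * qH z B h a) :
    ENNReal.ofReal (3 * h' / 4) ≤
      volume (Set.Ioc a (a + h') ∩ {θ : ℝ | T / h < |(∑ k, pt θ / (pt θ - z k)).im|}) := by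
  set s := 8 * π * qN z B h a / h' with hs
  set Bad := {θ : ℝ | θ ∈ Set.Ioc 0 (2 * π) ∧
    s < |(∑ k ∈ nearS z B h a, pt θ / (pt θ - z k)).im|} with hBad
  have hN0 : 0 ≤ qN z B h a := by unfold qN; positivity
  have hbad : volume Bad ≤ ENNReal.ofReal (h' / 4) := by
    rcases hN0.eq_or_lt with h0 | h0
    · have hc : (nearS z B h a).card = 0 := by
        have : ((nearS z B h a).card : ℝ) = 0 := h0.symm
        exact_mod_cast this
      have hemp : Bad = ∅ := by
        rw [hBad]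
        ext θ
        simp only [Set.mem_ofPred_eq, Set.mem_empty_iff_false, iff_false, not_and, not_lt]
        intro _
        rw [Finset.card_eq_zero.1 hc, hs, ← h0]
        simp
      rw [hemp]; simp
    · have hs0 : 0 < s := by rw [hs]; positivity
      refine (boole_fin h1 z (nearS z B h a) s hs0).trans (le_of_eq ?_)
      congr 1
      change 2 * π * qN z B h a / s = h' / 4
      rw [hs]
      field_simp
      ring
  have hsub : Set.Ioc a (a + h') ⊆
      (Set.Ioc a (a + h') ∩ {θ : ℝ | T / h < |(∑ k, pt θ / (pt θ - z k)).im|}) ∪ Bad := by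
    intro θ hθ
    by_cases hb : θ ∈ Bad
    · exact Or.inr hb
    · left
      refine ⟨hθ, ?_⟩
      have hθ2 : θ ∈ Set.Ioc 0 (2 * π) := ⟨by linarith [hθ.1], hθ.2.trans ha2⟩
      have hnb : |(∑ k ∈ nearS z B h a, pt θ / (pt θ - z k)).im| ≤ s := by
        by_contra hc
        exact hb ⟨hθ2, not_le.1 hc⟩
      have hfb := far_bound z B h h' c5 θ a hB hh hh' hh2 hc5
        (by rw [abs_of_pos (by linarith [hθ.1])]; linarith [hθ.2])
      have hsp := split z B h a (fun k => pt θ / (pt θ - z k))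
      have him : (∑ k ∈ farS z B h a, pt θ / (pt θ - z k)).im =
          (∑ k, pt θ / (pt θ - z k)).im - (∑ k ∈ nearS z B h a, pt θ / (pt θ - z k)).im := by
        rw [← hsp]; simp
      have habs : |(∑ k ∈ farS z B h a, pt θ / (pt θ - z k)).im| ≤
          |(∑ k, pt θ / (pt θ - z k)).im| + s := by
        rw [him]
        exact (abs_sub _ _).trans (by linarith)
      have hm : h * |(∑ k ∈ farS z B h a, pt θ / (pt θ - z k)).im| ≤
          h * (|(∑ k, pt θ / (pt θ - z k)).im| + s) := mul_le_mul_of_nonneg_left habs hh.le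
      have hhs : h * s = 8 * π * (h / h') * qN z B h a := by rw [hs]; field_simp
      have hT : T < h * |(∑ k, pt θ / (pt θ - z k)).im| := by
        rw [mul_add] at hm
        linarith
      change T / h < _
      rw [div_lt_iff₀ hh]
      linarith
  have hI : volume (Set.Ioc a (a + h')) = ENNReal.ofReal h' := by
    rw [Real.volume_Ioc]; congr 1; ring
  have h3 : ENNReal.ofReal h' ≤
      volume (Set.Ioc a (a + h') ∩ {θ : ℝ | T / h < |(∑ k, pt θ / (pt θ - z k)).im|}) +
        ENNReal.ofReal (h' / 4) := by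
    rw [← hI]
    refine (measure_mono hsub).trans ((measure_union_le _ _).trans ?_)
    gcongr
  have e : ENNReal.ofReal (3 * h' / 4) = ENNReal.ofReal h' - ENNReal.ofReal (h' / 4) := by
    rw [← ENNReal.ofReal_sub _ (by positivity)]
    congr 1
    ring
  rw [e]
  exact tsub_le_iff_right.2 h3

lemma count_core (h1 : S_BOOLE) {D n : ℕ} (z : Fin D → ℂ) (B h h' c5 T : ℝ) (hn : 0 < n)
    (hB : 0 < B) (hh : 0 < h)
    (hh0 : 0 < h') (hh' : h' ≤ h) (hh2 : h' ≤ B * h / 2) (hc5 : h * D ≤ c5)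
    (hnh : n * h' ≤ 2 * π) (hT : 0 < T) :
    (((Finset.range n).filter (fun j : ℕ =>
      T + 8 * π * (h / h') * qN z B h (2 * π * j / n) + 2 * qQ z B h (2 * π * j / n)
        + 2 * c5 / B < h * qH z B h (2 * π * j / n))).card : ℝ) * (3 * h' / 4) ≤
      2 * π * D * h / T := by
  classical
  set S := (Finset.range n).filter (fun j : ℕ =>
      T + 8 * π * (h / h') * qN z B h (2 * π * j / n) + 2 * qQ z B h (2 * π * j / n)
        + 2 * c5 / B < h * qH z B h (2 * π * j / n)) with hS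
  set U := {θ : ℝ | T / h < |(∑ k, pt θ / (pt θ - z k)).im|} with hU
  set I : ℕ → Set ℝ := fun j => Set.Ioc (2 * π * j / n) (2 * π * j / n + h') with hI
  have hn' : (0 : ℝ) < n := by exact_mod_cast hn
  have hstep : ∀ j : ℕ, 2 * π * j / n + h' ≤ 2 * π * (j + 1 : ℕ) / n := by
    intro j
    have : h' ≤ 2 * π / n := by rw [le_div_iff₀ hn']; linarith
    push_cast
    have e : 2 * π * ((j : ℝ) + 1) / n = 2 * π * j / n + 2 * π / n := by ring
    linarith
  have hle : ∀ j, j < n → 2 * π * j / n + h' ≤ 2 * π := by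
    intro j hj
    refine (hstep j).trans ?_
    rw [div_le_iff₀ hn']
    have : ((j + 1 : ℕ) : ℝ) ≤ n := by exact_mod_cast hj
    have hpi := Real.pi_pos
    nlinarith
  have hsum : ∑ j ∈ S, ENNReal.ofReal (3 * h' / 4) ≤ ∑ j ∈ S, volume (I j ∩ U) := by
    apply Finset.sum_le_sum
    intro j hj
    rw [hS, Finset.mem_filter, Finset.mem_range] at hj
    exact core h1 z B h h' c5 (2 * π * j / n) T hB hh hh0 hh' hh2 hc5 (by positivity)
      (hle j hj.1) hj.2
  have hdisj : (S : Set ℕ).PairwiseDisjoint (fun j => I j ∩ U) := by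
    have key : ∀ i j : ℕ, i < j → Disjoint (I i ∩ U) (I j ∩ U) := by
      intro i j hij
      rw [Set.disjoint_left]
      rintro x ⟨hx1, -⟩ ⟨hx2, -⟩
      have h2 : 2 * π * i / n + h' ≤ 2 * π * j / n := by
        refine (hstep i).trans ?_
        have : ((i + 1 : ℕ) : ℝ) ≤ j := by exact_mod_cast hij
        have hpi := Real.pi_pos
        gcongr
      have a1 := hx1.2
      have a2 := hx2.1
      linarith
    intro i _ j _ hij
    rcases lt_or_gt_of_ne hij with h | h
    · exact key i j h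
    · exact (key j i h).symm
  have hmeas : ∀ j ∈ S, MeasurableSet (I j ∩ U) := fun j _ =>
    measurableSet_Ioc.inter (measurable_V z _)
  rw [← measure_biUnion_finset hdisj hmeas] at hsum
  have hsub : (⋃ j ∈ S, I j ∩ U) ⊆ {θ : ℝ | θ ∈ Set.Ioc 0 (2 * π) ∧
      T / h < |(∑ k, pt θ / (pt θ - z k)).im|} := by
    intro x hx
    simp only [Set.mem_iUnion, exists_prop] at hx
    obtain ⟨j, hj, hx1, hx2⟩ := hx
    rw [hS, Finset.mem_filter, Finset.mem_range] at hj
    have hpos : 0 ≤ 2 * π * j / n := by positivity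
    exact ⟨⟨lt_of_le_of_lt hpos hx1.1, hx1.2.trans (hle j hj.1)⟩, hx2⟩
  have h3 := (hsum.trans (measure_mono hsub)).trans (h1 D z (T / h) (by positivity))
  rw [Finset.sum_const, nsmul_eq_mul, ← ENNReal.ofReal_natCast,
    ← ENNReal.ofReal_mul (by positivity)] at h3
  have h4 := (ENNReal.ofReal_le_ofReal_iff (by positivity)).1 h3
  refine h4.trans (le_of_eq ?_)
  field_simp

end Hwk

open Hwk in
theorem s_HWK (h1 : S_BOOLE) (h2 : S_SUMS) : S_HWK := by
  intro B c3 c4 c5 hB hc3 hc4 hc5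
  obtain ⟨A1, hA1, hS⟩ := h2 B c3 c4 hB hc3 hc4
  have hpi := Real.pi_pos
  set β := min 1 (min (B / 2) (2 * π / c4)) with hβ
  have hβ0 : 0 < β := by
    rw [hβ]; exact lt_min one_pos (lt_min (by positivity) (by positivity))
  have hβ1 : β ≤ 1 := min_le_left _ _
  have hβ2 : β ≤ B / 2 := (min_le_right _ _).trans (min_le_left _ _)
  have hβ3 : β ≤ 2 * π / c4 := (min_le_right _ _).trans (min_le_right _ _)
  set K := 8 * π / β + 2 with hK
  have hK0 : 0 < K := by positivity
  refine ⟨8 * c5 / B + 32 * π / (3 * β) + 2 * K * A1, by positivity, ?_⟩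
  intro D n z h hn hh hh1 hnh1 hnh2 hhD t ht
  classical
  have hn' : (0 : ℝ) < n := by exact_mod_cast hn
  by_cases htc : t ≤ 8 * c5 / B
  · have hcard : (((Finset.range n).filter
        (fun j : ℕ => t < h * qH z B h (2 * π * j / n))).card : ℝ) ≤ n := by
      have := Finset.card_filter_le (Finset.range n)
        (fun j : ℕ => t < h * qH z B h (2 * π * j / n))
      rw [Finset.card_range] at this
      exact_mod_cast this
    refine hcard.trans ?_
    rw [le_div_iff₀ ht]
    have a1 : (n : ℝ) * t ≤ n * (8 * c5 / B) := by gcongr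
    have a2 : 0 ≤ 32 * π / (3 * β) + 2 * K * A1 := by positivity
    have a3 : 0 ≤ (8 * c5 / B) * (D : ℝ) := by positivity
    have a4 : 0 ≤ (32 * π / (3 * β) + 2 * K * A1) * ((D : ℝ) + n) := by positivity
    nlinarith
  · rw [not_le] at htc
    set h' := h * β with hh'
    have hh0 : 0 < h' := by positivity
    have hle1 : h' ≤ h := by rw [hh']; nlinarith
    have hle2 : h' ≤ B * h / 2 := by rw [hh']; nlinarith
    have hle3 : n * h' ≤ 2 * π := by
      calc n * h' = (n * h) * β := by rw [hh']; ring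
        _ ≤ c4 * (2 * π / c4) := by gcongr
        _ = 2 * π := by field_simp
    have hT : 0 < t / 4 := by positivity
    have hc1 := count_core h1 (n := n) z B h h' c5 (t / 4) hn hB hh hh0 hle1 hle2 hhD hle3 hT
    set S1 := (Finset.range n).filter (fun j : ℕ =>
      t / 4 + 8 * π * (h / h') * qN z B h (2 * π * j / n) + 2 * qQ z B h (2 * π * j / n)
        + 2 * c5 / B < h * qH z B h (2 * π * j / n)) with hS1
    set F : ℕ → ℝ := fun j => qN z B h (2 * π * j / n) + qQ z B h (2 * π * j / n)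
      + qW z B h (2 * π * j / n) with hF
    set S2 := (Finset.range n).filter (fun j : ℕ => t / (2 * K) < F j) with hS2
    have hqN : ∀ θ, 0 ≤ qN z B h θ := fun θ => by unfold qN; positivity
    have hqQ : ∀ θ, 0 ≤ qQ z B h θ := fun θ => by
      unfold qQ; exact Finset.sum_nonneg fun k _ => by positivity
    have hqW : ∀ θ, 0 ≤ qW z B h θ := fun θ => by
      unfold qW; exact Finset.sum_nonneg fun k _ => by positivity
    have hF0 : ∀ j, 0 ≤ F j := fun j => by
      have := hqN (2 * π * j / n); have := hqQ (2 * π * j / n); have := hqW (2 * π * j / n)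
      simp only [hF]; positivity
    have hcover : (Finset.range n).filter (fun j : ℕ => t < h * qH z B h (2 * π * j / n)) ⊆
        S1 ∪ S2 := by
      intro j hj
      rw [Finset.mem_filter] at hj
      rw [Finset.mem_union, hS1, hS2, Finset.mem_filter, Finset.mem_filter]
      by_cases hc : t / 4 + 8 * π * (h / h') * qN z B h (2 * π * j / n)
        + 2 * qQ z B h (2 * π * j / n) + 2 * c5 / B < h * qH z B h (2 * π * j / n)
      · exact Or.inl ⟨hj.1, hc⟩
      · right
        refine ⟨hj.1, ?_⟩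
        rw [not_lt] at hc
        have e1 : 2 * c5 / B < t / 4 := by
          have : 8 * c5 / B = 4 * (2 * c5 / B) := by ring
          linarith
        have e2 : h / h' = 1 / β := by rw [hh']; field_simp
        rw [e2] at hc
        have e3 : 8 * π * (1 / β) = K - 2 := by rw [hK]; ring
        rw [e3] at hc
        have e4 : t / 2 < (K - 2) * qN z B h (2 * π * j / n) + 2 * qQ z B h (2 * π * j / n) := by
          linarith [hj.2]
        have hK2 : 2 ≤ K := by rw [hK]; have : 0 < 8 * π / β := by positivity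
                               linarith
        have q1 := hqN (2 * π * j / n)
        have q2 := hqQ (2 * π * j / n)
        have q3 := hqW (2 * π * j / n)
        have e5 : (K - 2) * qN z B h (2 * π * j / n) + 2 * qQ z B h (2 * π * j / n) ≤
            K * F j := by
          simp only [hF]
          have r1 : 2 * qQ z B h (2 * π * j / n) ≤ K * qQ z B h (2 * π * j / n) := by gcongr
          have r2 : 0 ≤ K * qW z B h (2 * π * j / n) := by positivity
          nlinarith
        rw [div_lt_iff₀ (by positivity)]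
        linarith
    have hcardle : (((Finset.range n).filter
        (fun j : ℕ => t < h * qH z B h (2 * π * j / n))).card : ℝ) ≤ S1.card + S2.card := by
      have := (Finset.card_le_card hcover).trans (Finset.card_union_le _ _)
      exact_mod_cast this
    have hs1 : (S1.card : ℝ) ≤ 32 * π / (3 * β) * D / t := by
      have a1 : (S1.card : ℝ) * (3 * h' / 4) ≤ 2 * π * D * h / (t / 4) := hc1
      have a2 : (0 : ℝ) < 3 * h' / 4 := by positivity
      have a3 : (S1.card : ℝ) ≤ (2 * π * D * h / (t / 4)) / (3 * h' / 4) := by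
        rw [le_div_iff₀ a2]; exact a1
      refine a3.trans (le_of_eq ?_)
      rw [hh']
      field_simp
      ring
    have hs2 : (S2.card : ℝ) ≤ 2 * K * A1 * D / t := by
      have a1 : (S2.card : ℝ) * (t / (2 * K)) ≤ ∑ j ∈ S2, F j := by
        rw [← nsmul_eq_mul, ← Finset.sum_const]
        apply Finset.sum_le_sum
        intro j hj
        rw [hS2, Finset.mem_filter] at hj
        exact hj.2.le
      have a2 : ∑ j ∈ S2, F j ≤ ∑ j ∈ Finset.range n, F j :=
        Finset.sum_le_sum_of_subset_of_nonneg (Finset.filter_subset _ _) (fun j _ _ => hF0 j)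
      have a3 : ∑ j ∈ Finset.range n, F j ≤ A1 * D := hS D n z h hn hh hh1 hnh1 hnh2
      have a4 : (S2.card : ℝ) * (t / (2 * K)) ≤ A1 * D := a1.trans (a2.trans a3)
      have a5 : (0 : ℝ) < t / (2 * K) := by positivity
      have a6 : (S2.card : ℝ) ≤ A1 * D / (t / (2 * K)) := by rw [le_div_iff₀ a5]; exact a4
      refine a6.trans (le_of_eq ?_)
      field_simp
    refine hcardle.trans ?_
    have b1 : (S1.card : ℝ) + S2.card ≤ 32 * π / (3 * β) * D / t + 2 * K * A1 * D / t := by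
      linarith
    refine b1.trans ?_
    rw [← add_div]
    apply div_le_div_of_nonneg_right _ ht.le
    have c1 : 0 ≤ 8 * c5 / B * ((D : ℝ) + n) := by positivity
    have c2 : 0 ≤ (32 * π / (3 * β) + 2 * K * A1) * (n : ℝ) := by positivity
    nlinarith

end Pool.Agent.R267.DI
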