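import Pool.Agent.R267.DI.Defs2

set_option autoImplicit false
open Complex Real

namespace Pool.Agent.R267.DI

variable {ρ : ℝ → ℝ} {a b s lam : ℝ} {φ : ℝ → ℝ → ℝ}

theorem IsEigenfunction.lattice (h : IsEigenfunction ρ a b s lam φ) (m n : ℤ) (x y : ℝ) :
    φ (x + m * a) (y + m * s + n * b) = φ x y := by
  have h1 : Function.Periodic (fun p : ℝ × ℝ => φ p.1 p.2) (a, s) := by
    intro p
    simpa using h.per1 p.1 p.2
  have h2 : Function.Periodic (fun p : ℝ × ℝ => φ p.1 p.2) (0, b) := by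
    intro p
    simpa using h.per2 p.1 p.2
  have h3 := h1.zsmul m
  have h4 := h2.zsmul n
  have h5 := h3 (x, y)
  have h6 := h4 (x + m * a, y + m * s)
  simp at h5 h6
  rw [h6, h5]

theorem exists_rep (s : ℝ) (ha : 0 < a) (hb : 0 < b)
    (p : ℝ × ℝ) : ∃ m n : ℤ, (p.1 + m * a) ∈ Set.Ico (0 : ℝ) a ∧
      (p.2 + m * s + n * b) ∈ Set.Ico (0 : ℝ) b := by
  refine ⟨-⌊p.1 / a⌋, -⌊(p.2 + (-⌊p.1 / a⌋ : ℤ) * s) / b⌋, ?_, ?_⟩
  · have h1 := Int.floor_le (p.1 / a)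
    have h2 := Int.lt_floor_add_one (p.1 / a)
    rw [le_div_iff₀ ha] at h1
    rw [div_lt_iff₀ ha] at h2
    push_cast
    constructor <;> nlinarith
  · have h1 := Int.floor_le ((p.2 + (-⌊p.1 / a⌋ : ℤ) * s) / b)
    have h2 := Int.lt_floor_add_one ((p.2 + (-⌊p.1 / a⌋ : ℤ) * s) / b)
    rw [le_div_iff₀ hb] at h1
    rw [div_lt_iff₀ hb] at h2
    push_cast at h1 h2 ⊢
    constructor <;> nlinarith

theorem IsEigenfunction.bdd (h : IsEigenfunction ρ a b s lam φ) (ha : 0 < a) (hb : 0 < b) :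
    ∃ B : ℝ, ∀ x y, |φ x y| ≤ B := by
  have hc : Continuous (fun p : ℝ × ℝ => |φ p.1 p.2|) := h.smooth.continuous.abs
  obtain ⟨B, hB⟩ := (isCompact_Icc.prod isCompact_Icc :
    IsCompact ((Set.Icc (0 : ℝ) a) ×ˢ (Set.Icc (0 : ℝ) b))).bddAbove_image hc.continuousOn
  refine ⟨B, fun x y => ?_⟩
  obtain ⟨m, n, h1, h2⟩ := exists_rep s ha hb (x, y)
  have h3 := h.lattice m n x y
  rw [← h3]
  exact hB ⟨(x + m * a, y + m * s + n * b), ⟨⟨h1.1, h1.2.le⟩, ⟨h2.1, h2.2.le⟩⟩, rfl⟩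

theorem IsEigenfunction.le_supOn (h : IsEigenfunction ρ a b s lam φ) (ha : 0 < a) (hb : 0 < b)
    (q p : ℝ × ℝ) (r : ℝ) (hp : gdist ρ a b s p q < r) : |φ p.1 p.2| ≤ supOn ρ a b s φ q r := by
  obtain ⟨B, hB⟩ := h.bdd ha hb
  apply le_csSup
  · refine ⟨B, ?_⟩
    rintro t ⟨p, -, rfl⟩
    exact hB _ _
  · exact ⟨p, hp, rfl⟩

/-- The constant of the local estimate. -/
noncomputable def locA (ρ0 ρ1 C : ℝ) : ℝ :=
  2 * Real.exp (8 * C * Real.sqrt (ρ1 / ρ0)) * (1 + (64 + C ^ 2) * Real.sqrt (ρ1 / ρ0))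

theorem one_le_locA {ρ0 ρ1 C : ℝ} (hC : 0 < C) : 1 ≤ locA ρ0 ρ1 C := by
  unfold locA
  have h1 : 1 ≤ Real.exp (8 * C * Real.sqrt (ρ1 / ρ0)) :=
    Real.one_le_exp (by positivity)
  have h2 : 1 ≤ 1 + (64 + C ^ 2) * Real.sqrt (ρ1 / ρ0) := by
    have : 0 ≤ (64 + C ^ 2) * Real.sqrt (ρ1 / ρ0) := by positivity
    linarith
  nlinarith [mul_le_mul h1 h2 (by norm_num) (by positivity)]

/-- Local estimate of the doubling index of a disc of radius `C / √lam` in terms of the doubling of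
`φ` and `φ_x` on one slice. -/
theorem local_bound (hFOU : S_FOU) (hCK : S_CK) (hGRAD : S_GRAD) (hGEO : S_GEO)
    {ρ0 ρ1 C : ℝ} (hρ : Continuous ρ) (ha : 0 < a) (hb : 0 < b) (hlam : 0 < lam) (hρ0 : 0 < ρ0)
    (h0 : ∀ x, ρ0 ≤ ρ x) (h1 : ∀ x, ρ x ≤ ρ1) (hper : ∀ x, ρ (x + a) = ρ x) (hC : 0 < C)
    (h : IsEigenfunction ρ a b s lam φ) (M : ℕ)
    (hM : ∀ m : ℤ, (M : ℤ) < |m| → lam * ρ1 < (2 * π / b * m) ^ 2)
    (u' : ℤ → ℝ → ℂ)
    (hu : ∀ m x, HasDerivAt (fc b φ m) (u' m x) x)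
    (hu' : ∀ m x, HasDerivAt (u' m) ((((2 * π / b * m) ^ 2 - lam * ρ x : ℝ) : ℂ) * fc b φ m x) x)
    (hrep : ∀ x y : ℝ, (φ x y : ℂ) = esum (2 * π / b) M (fun m => fc b φ m x) (y : ℂ))
    (hrep' : ∀ x y : ℝ, ((deriv (fun t => φ t y) x : ℝ) : ℂ)
      = esum (2 * π / b) M (fun m => u' m x) (y : ℂ))
    (q : ℝ × ℝ) (m n : ℤ) (x0 y0 J1 J2 : ℝ) (hJ1 : 0 ≤ J1) (hJ2 : 0 ≤ J2)
    (hx0 : |q.1 + m * a - x0| ≤ C / Real.sqrt lam / Real.sqrt ρ1 / 4)
    (hy0 : |q.2 + m * s + n * b - y0| ≤ C / Real.sqrt lam / Real.sqrt ρ1 / 4)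
    (hf : ∀ w : ℂ, ‖w - (y0 : ℂ)‖ ≤ 4 * (2 * (C / Real.sqrt lam) / Real.sqrt ρ0) →
      ∃ θ : ℝ, |θ - y0| ≤ C / Real.sqrt lam / Real.sqrt ρ1 / 4 ∧
        ‖esum (2 * π / b) M (fun m => fc b φ m x0) w‖
          ≤ Real.exp J1 * ‖esum (2 * π / b) M (fun m => fc b φ m x0) (θ : ℂ)‖)
    (hg : ∀ w : ℂ, ‖w - (y0 : ℂ)‖ ≤ 4 * (2 * (C / Real.sqrt lam) / Real.sqrt ρ0) →
      ∃ θ : ℝ, |θ - y0| ≤ C / Real.sqrt lam / Real.sqrt ρ1 / 4 ∧
        ‖esum (2 * π / b) M (fun m => u' m x0) w‖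
          ≤ Real.exp J2 * ‖esum (2 * π / b) M (fun m => u' m x0) (θ : ℂ)‖) :
    doublingIndex ρ a b s φ q (C / Real.sqrt lam)
      ≤ (Real.log (locA ρ0 ρ1 C) + J1 + J2) / Real.log 2 := by
  have hρ01 : ρ0 ≤ ρ1 := (h0 0).trans (h1 0)
  have hρ1 : 0 < ρ1 := lt_of_lt_of_le hρ0 hρ01
  set r := C / Real.sqrt lam with hr
  set e := r / Real.sqrt ρ1 with he
  set E := 2 * r / Real.sqrt ρ0 with hE
  have hsl : 0 < Real.sqrt lam := Real.sqrt_pos.2 hlam
  have hs0 : 0 < Real.sqrt ρ0 := Real.sqrt_pos.2 hρ0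
  have hs1 : 0 < Real.sqrt ρ1 := Real.sqrt_pos.2 hρ1
  have hr0 : 0 < r := by positivity
  have he0 : 0 < e := by positivity
  have hE0 : 0 < E := by positivity
  have hss : Real.sqrt ρ0 ≤ Real.sqrt ρ1 := Real.sqrt_le_sqrt hρ01
  have heE : 2 * e ≤ E := by
    rw [he, hE, mul_div_assoc]
    have : r / Real.sqrt ρ1 ≤ r / Real.sqrt ρ0 := div_le_div_of_nonneg_left hr0.le hs0 hss
    linarith
  set S := supOn ρ a b s φ q r with hS
  obtain ⟨hgeo1, hgeo2⟩ := hGEO ρ a b s ρ0 ρ1 hρ hρ0 h0 h1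
  set cx := q.1 + m * a with hcx
  set cy := q.2 + m * s + n * b with hcy
  -- values in the inner disc
  have hin : ∀ x y : ℝ, (x - cx) ^ 2 + (y - cy) ^ 2 < e ^ 2 → |φ x y| ≤ S := by
    intro x y hxy
    have h2 := hgeo2 (x, y) q r m n (by
      rw [← he]
      rw [Real.sqrt_lt' he0]
      exact hxy)
    exact h.le_supOn ha hb q (x, y) r h2
  have hS0 : 0 ≤ S := (abs_nonneg _).trans (hin cx cy (by simp; positivity))
  -- bound on the slice
  have hsl1 : ∀ θ : ℝ, |θ - y0| ≤ e / 4 →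
      ‖esum (2 * π / b) M (fun m => fc b φ m x0) (θ : ℂ)‖ ≤ S := by
    intro θ hθ
    rw [← hrep, Complex.norm_real, Real.norm_eq_abs]
    apply hin
    rw [abs_le] at hx0 hy0 hθ
    nlinarith
  have hsl2 : ∀ θ : ℝ, |θ - y0| ≤ e / 4 →
      ‖esum (2 * π / b) M (fun m => u' m x0) (θ : ℂ)‖
        ≤ 2 * S / (e / 4) + lam * ρ1 * S * (e / 4) / 2 := by
    intro θ hθ
    rw [← hrep', Complex.norm_real, Real.norm_eq_abs]
    have hsq : ∀ x y : ℝ, |x - x0| ≤ e / 4 → |y - θ| ≤ e / 4 → |φ x y| ≤ S := by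
      intro x y hx hy
      apply hin
      rw [abs_le] at hx0 hy0 hθ hx hy
      nlinarith
    apply hGRAD φ S (lam * ρ1 * S) (e / 4) x0 θ (by positivity) hS0 (by positivity) h.smooth hsq
    intro x y hx hy
    have hp := h.pde x y
    have : deriv (deriv (fun t => φ t y)) x + deriv (deriv (fun t => φ x t)) y
        = -(lam * ρ x * φ x y) := by linarith
    rw [this, abs_neg, abs_mul, abs_mul, abs_of_pos hlam, abs_of_pos (lt_of_lt_of_le hρ0 (h0 x))]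
    have := hsq x y hx hy
    have h3 := h1 x
    have h4 := h0 x
    gcongr
  -- bounds on the complex disc
  have hK0 : ∀ w : ℂ, ‖w - (y0 : ℂ)‖ ≤ 4 * E →
      ‖esum (2 * π / b) M (fun m => fc b φ m x0) w‖ ≤ Real.exp J1 * S := by
    intro w hw
    obtain ⟨θ, hθ, hθ2⟩ := hf w hw
    refine hθ2.trans ?_
    gcongr
    exact hsl1 θ hθ
  have hK1 : ∀ w : ℂ, ‖w - (y0 : ℂ)‖ ≤ 4 * E →
      ‖esum (2 * π / b) M (fun m => u' m x0) w‖
        ≤ Real.exp J2 * (2 * S / (e / 4) + lam * ρ1 * S * (e / 4) / 2) := by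
    intro w hw
    obtain ⟨θ, hθ, hθ2⟩ := hg w hw
    refine hθ2.trans ?_
    gcongr
    exact hsl2 θ hθ
  have hout : ∀ x y : ℝ, (x - cx) ^ 2 + (y - cy) ^ 2 < E ^ 2 →
      |φ x y| ≤ locA ρ0 ρ1 C * Real.exp (J1 + J2) * S := by
    intro x y hxy
    have hx1 : |x - cx| ≤ E := abs_le_of_sq_le_sq (by nlinarith [sq_nonneg (y - cy)]) hE0.le
    have hy1 : |y - cy| ≤ E := abs_le_of_sq_le_sq (by nlinarith [sq_nonneg (x - cx)]) hE0.le
    have hx2 : |x - x0| ≤ 2 * E := by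
      rw [abs_le] at *
      constructor <;> linarith
    have hy2 : |y - y0| ≤ 2 * E := by
      rw [abs_le] at *
      constructor <;> linarith
    have hck := hCK (2 * π / b) (lam * ρ1) M (fun x => lam * ρ x) (fc b φ) u' (by positivity)
      (by fun_prop) (fun x => by
        rw [abs_of_pos (mul_pos hlam (lt_of_lt_of_le hρ0 (h0 x)))]
        have := h1 x
        gcongr) hu hu' x0 y0 (4 * E) _ _ hK0 hK1 x y (by linarith)
    rw [← hrep, Complex.norm_real, Real.norm_eq_abs] at hck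
    refine hck.trans ?_
    -- exponents
    have hexp : Real.sqrt (2 * (lam * ρ1)) * |x - x0| ≤ 8 * C * Real.sqrt (ρ1 / ρ0) := by
      have h5 : Real.sqrt (2 * (lam * ρ1)) ≤ 2 * (Real.sqrt lam * Real.sqrt ρ1) := by
        rw [← Real.sqrt_mul hlam.le]
        apply Real.sqrt_le_iff.2
        refine ⟨by positivity, ?_⟩
        rw [mul_pow, Real.sq_sqrt (by positivity)]
        have : 0 < lam * ρ1 := by positivity
        linarith
      calc Real.sqrt (2 * (lam * ρ1)) * |x - x0|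
          ≤ (2 * (Real.sqrt lam * Real.sqrt ρ1)) * (2 * E) := by gcongr
        _ = 8 * C * Real.sqrt (ρ1 / ρ0) := by
          rw [Real.sqrt_div hρ1.le, hE, hr]
          field_simp
          ring
    have hfac : Real.exp J1 * S + 4 * E * (Real.exp J2 * (2 * S / (e / 4)
        + lam * ρ1 * S * (e / 4) / 2))
        ≤ (1 + (64 + C ^ 2) * Real.sqrt (ρ1 / ρ0)) * Real.exp (J1 + J2) * S := by
      have h6 : 4 * E * (2 * S / (e / 4) + lam * ρ1 * S * (e / 4) / 2)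
          = (64 + C ^ 2) * Real.sqrt (ρ1 / ρ0) * S := by
        rw [Real.sqrt_div hρ1.le, hE, he, hr]
        have h7 : Real.sqrt lam ^ 2 = lam := Real.sq_sqrt hlam.le
        have h8 : Real.sqrt ρ1 ^ 2 = ρ1 := Real.sq_sqrt hρ1.le
        field_simp
        rw [h7, h8]
        ring
      have h9 : Real.exp J1 ≤ Real.exp (J1 + J2) := Real.exp_le_exp.2 (by linarith)
      have h10 : Real.exp J2 ≤ Real.exp (J1 + J2) := Real.exp_le_exp.2 (by linarith)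
      have h11 : 0 ≤ (64 + C ^ 2) * Real.sqrt (ρ1 / ρ0) * S := by positivity
      calc Real.exp J1 * S + 4 * E * (Real.exp J2 * (2 * S / (e / 4)
        + lam * ρ1 * S * (e / 4) / 2))
          = Real.exp J1 * S + Real.exp J2 * (4 * E * (2 * S / (e / 4)
        + lam * ρ1 * S * (e / 4) / 2)) := by ring
        _ = Real.exp J1 * S + Real.exp J2 * ((64 + C ^ 2) * Real.sqrt (ρ1 / ρ0) * S) := by rw [h6]
        _ ≤ Real.exp (J1 + J2) * S + Real.exp (J1 + J2) * ((64 + C ^ 2) * Real.sqrt (ρ1 / ρ0) * S) := by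
          gcongr
        _ = _ := by ring
    unfold locA
    calc 2 * Real.exp (Real.sqrt (2 * (lam * ρ1)) * |x - x0|) * (Real.exp J1 * S + 4 * E *
        (Real.exp J2 * (2 * S / (e / 4) + lam * ρ1 * S * (e / 4) / 2)))
        ≤ 2 * Real.exp (8 * C * Real.sqrt (ρ1 / ρ0)) *
          ((1 + (64 + C ^ 2) * Real.sqrt (ρ1 / ρ0)) * Real.exp (J1 + J2) * S) := by
          gcongr
      _ = _ := by ring
  have hsup : supOn ρ a b s φ q (2 * r) ≤ locA ρ0 ρ1 C * Real.exp (J1 + J2) * S := by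
    apply Real.sSup_le
    · rintro t ⟨p, hp, rfl⟩
      obtain ⟨m1, n1, hmn⟩ := hgeo1 p q (2 * r) hp
      rw [← hE, Real.sqrt_lt' hE0] at hmn
      -- translate p
      have hl := h.lattice (m - m1) (n - n1) p.1 p.2
      rw [← hl]
      apply hout
      push_cast
      have e1 : p.1 + (m - m1 : ℝ) * a - cx = p.1 - (q.1 + m1 * a) := by rw [hcx]; ring
      have e2 : p.2 + (m - m1 : ℝ) * s + (n - n1 : ℝ) * b - cy
          = p.2 - (q.2 + m1 * s + n1 * b) := by rw [hcy]; ring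
      rw [e1, e2]
      exact hmn
    · have := one_le_locA (ρ0 := ρ0) (ρ1 := ρ1) hC
      positivity
  have hA1 := one_le_locA (ρ0 := ρ0) (ρ1 := ρ1) hC
  have hlog2 : 0 < Real.log 2 := Real.log_pos (by norm_num)
  have hnn : 0 ≤ (Real.log (locA ρ0 ρ1 C) + J1 + J2) / Real.log 2 := by
    have := Real.log_nonneg hA1
    positivity
  unfold doublingIndex
  rw [← hS]
  rcases eq_or_lt_of_le hS0 with hS00 | hSpos
  · rw [← hS00, div_zero, Real.logb_zero]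
    exact hnn
  · have hsup0 : 0 ≤ supOn ρ a b s φ q (2 * r) := by
      apply Real.sSup_nonneg
      rintro t ⟨p, -, rfl⟩
      exact abs_nonneg _
    rcases eq_or_lt_of_le hsup0 with h00 | hpos
    · rw [← h00, zero_div, Real.logb_zero]
      exact hnn
    · rw [Real.logb, div_le_div_iff_of_pos_right hlog2]
      have hq : supOn ρ a b s φ q (2 * r) / S ≤ locA ρ0 ρ1 C * Real.exp (J1 + J2) := by
        rw [div_le_iff₀ hSpos]
        exact hsup
      calc Real.log (supOn ρ a b s φ q (2 * r) / S)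
          ≤ Real.log (locA ρ0 ρ1 C * Real.exp (J1 + J2)) :=
            Real.log_le_log (by positivity) hq
        _ = Real.log (locA ρ0 ρ1 C) + J1 + J2 := by
          rw [Real.log_mul (by positivity) (by positivity), Real.log_exp]
          ring

end Pool.Agent.R267.DI
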