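import Pool.Agent.R267.DI.Weak
import Pool.Agent.R267.DI.Root
import Pool.Agent.R267.DI.Trig

/-!
# DI-LOC1: local doubling of a product of linear factors (piece of the project of helper267)
-/

set_option autoImplicit false
open Complex Real

namespace Pool.Agent.R267.DI
namespace Loc1P

theorem norm_sq_one_add (τ : ℂ) : ‖1 + τ‖ ^ 2 = 1 + (2 * τ.re + ‖τ‖ ^ 2) := by
  rw [Complex.sq_norm, Complex.sq_norm, Complex.normSq_apply, Complex.normSq_apply]
  simp only [Complex.add_re, Complex.one_re, Complex.add_im, Complex.one_im]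
  ring

theorem norm_one_add_le (τ : ℂ) : ‖1 + τ‖ ≤ Real.exp (τ.re + ‖τ‖ ^ 2) := by
  have h2 : ‖1 + τ‖ ^ 2 ≤ (Real.exp (τ.re + ‖τ‖ ^ 2)) ^ 2 := by
    rw [norm_sq_one_add, ← Real.exp_nat_mul]
    have h3 := Real.add_one_le_exp (2 * τ.re + ‖τ‖ ^ 2)
    have h4 : Real.exp (2 * τ.re + ‖τ‖ ^ 2) ≤ Real.exp (((2 : ℕ) : ℝ) * (τ.re + ‖τ‖ ^ 2)) := by
      apply Real.exp_le_exp.2
      push_cast
      nlinarith [sq_nonneg ‖τ‖]
    linarith
  exact (sq_le_sq₀ (norm_nonneg _) (Real.exp_pos _).le).1 h2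

theorem le_norm_one_add (τ : ℂ) (h : ‖τ‖ ≤ 1 / 4) :
    Real.exp (τ.re - 6 * ‖τ‖ ^ 2) ≤ ‖1 + τ‖ := by
  have hn : 0 ≤ ‖τ‖ := norm_nonneg _
  have hre : |τ.re| ≤ ‖τ‖ := Complex.abs_re_le_norm τ
  have hre1 := (abs_le.1 hre).1
  have hre2 := (abs_le.1 hre).2
  have h2 : (Real.exp (τ.re - 6 * ‖τ‖ ^ 2)) ^ 2 ≤ ‖1 + τ‖ ^ 2 := by
    rw [norm_sq_one_add, ← Real.exp_nat_mul]
    generalize hx : 2 * τ.re + ‖τ‖ ^ 2 = x
    have hx1 : -1 / 2 ≤ x := by rw [← hx]; nlinarith
    have hx2 : |x| ≤ 9 / 4 * ‖τ‖ := by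
      rw [← hx, abs_le]
      constructor <;> nlinarith
    have hx3 : x ^ 2 ≤ 81 / 16 * ‖τ‖ ^ 2 := by
      have := pow_le_pow_left₀ (abs_nonneg x) hx2 2
      rw [sq_abs] at this
      linarith
    have h5 : Real.exp (x - 2 * x ^ 2) ≤ 1 + x := by
      rw [← Real.le_log_iff_exp_le (by linarith)]
      have h6 := Real.one_sub_inv_le_log_of_pos (show 0 < 1 + x by linarith)
      refine le_trans ?_ h6
      have h7 : 1 - (1 + x)⁻¹ = x / (1 + x) := by
        have : 1 + x ≠ 0 := by linarith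
        field_simp
        ring
      rw [h7, le_div_iff₀ (by linarith)]
      nlinarith [mul_nonneg (sq_nonneg x) (show 0 ≤ 1 + 2 * x by linarith)]
    refine le_trans (Real.exp_le_exp.2 ?_) h5
    push_cast
    nlinarith [sq_nonneg ‖τ‖]
  exact (sq_le_sq₀ (Real.exp_pos _).le (norm_nonneg _)).1 h2

theorem exp_one' (u : ℂ) : ‖Complex.exp (Complex.I * u) - 1‖ ≤ ‖u‖ * Real.exp ‖u‖ := by
  have h3 := Complex.norm_exp_sub_sum_le_norm_mul_exp (Complex.I * u) 1
  simpa only [Finset.range_one, Finset.sum_singleton, pow_zero, Nat.factorial_zero, Nat.cast_one,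
      div_one, pow_one, norm_mul, Complex.norm_I, one_mul] using h3

theorem exp_two' (u : ℂ) :
    ‖Complex.exp (Complex.I * u) - 1 - Complex.I * u‖ ≤ ‖u‖ ^ 2 * Real.exp ‖u‖ := by
  have h3 := Complex.norm_exp_sub_sum_le_norm_mul_exp (Complex.I * u) 2
  simp only [Finset.sum_range_succ, Finset.range_zero, Finset.sum_empty, zero_add, pow_zero,
    Nat.factorial_zero, Nat.cast_one, div_one, pow_one, Nat.factorial_one, norm_mul,
    Complex.norm_I, one_mul] at h3
  rw [sub_sub]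
  exact h3

theorem far (R B h θ0 : ℝ) (hR : 0 < R) (hh : 0 < h) (h1 : h ≤ 1)
    (hB : 4 * (R * Real.exp R) ≤ B) (hB1 : 1 ≤ B) (z w : ℂ)
    (hw : ‖w - (θ0 : ℂ)‖ ≤ R * h) (hfar : B * h < ‖pt θ0 - z‖) :
    ‖Complex.exp (Complex.I * w) - z‖ ≤ ‖pt θ0 - z‖ *
      Real.exp ((Complex.I * (w - θ0) * (pt θ0 / (pt θ0 - z))).re + R ^ 2 * Real.exp R * h
        + (R * Real.exp R) ^ 2 * (h ^ 2 / ‖pt θ0 - z‖ ^ 2)) ∧
    ‖pt θ0 - z‖ *
      Real.exp ((Complex.I * (w - θ0) * (pt θ0 / (pt θ0 - z))).re - R ^ 2 * Real.exp R * h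
        - 6 * (R * Real.exp R) ^ 2 * (h ^ 2 / ‖pt θ0 - z‖ ^ 2))
      ≤ ‖Complex.exp (Complex.I * w) - z‖ := by
  set Dd : ℝ := ‖pt θ0 - z‖ with hDd
  have hD0 : 0 < Dd := lt_trans (by positivity) hfar
  have hne : pt θ0 - z ≠ 0 := norm_pos_iff.1 hD0
  set u : ℂ := w - θ0 with hu
  set g : ℂ := pt θ0 / (pt θ0 - z) with hg
  have hgn : ‖g‖ = 1 / Dd := by
    rw [hg, norm_div]
    congr 1
    exact RootP.norm_exp_I_real θ0
  set τ : ℂ := g * (Complex.exp (Complex.I * u) - 1) with hτ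
  have key : Complex.exp (Complex.I * w) - z = (pt θ0 - z) * (1 + τ) := by
    have e1 : pt θ0 * Complex.exp (Complex.I * u) = Complex.exp (Complex.I * w) := by
      rw [pt, ← Complex.exp_add, hu]
      congr 1
      ring
    rw [← e1, hτ, hg]
    field_simp
    ring
  have huR : ‖u‖ ≤ R := hw.trans (by nlinarith)
  have hexp : Real.exp ‖u‖ ≤ Real.exp R := Real.exp_le_exp.2 huR
  have hratio : h / Dd ≤ 1 / B := by
    rw [div_le_div_iff₀ hD0 (by linarith)]
    nlinarith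
  have hratio1 : h / Dd ≤ 1 := hratio.trans (by rw [div_le_one (by linarith)]; exact hB1)
  have hr0 : 0 ≤ h / Dd := by positivity
  have hτn : ‖τ‖ ≤ R * Real.exp R * (h / Dd) := by
    rw [hτ, norm_mul, hgn]
    have e2 : ‖Complex.exp (Complex.I * u) - 1‖ ≤ (R * h) * Real.exp R :=
      (exp_one' u).trans (mul_le_mul hw hexp (Real.exp_pos _).le (by positivity))
    calc 1 / Dd * ‖Complex.exp (Complex.I * u) - 1‖ ≤ 1 / Dd * ((R * h) * Real.exp R) :=
          mul_le_mul_of_nonneg_left e2 (by positivity)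
      _ = R * Real.exp R * (h / Dd) := by ring
  have hτ4 : ‖τ‖ ≤ 1 / 4 := by
    refine hτn.trans ?_
    have hRp : 0 < R * Real.exp R := by positivity
    calc R * Real.exp R * (h / Dd) ≤ R * Real.exp R * (1 / B) :=
          mul_le_mul_of_nonneg_left hratio hRp.le
      _ ≤ 1 / 4 := by
          rw [mul_one_div, div_le_div_iff₀ (by linarith) (by norm_num)]
          linarith
  have hτ2 : ‖τ‖ ^ 2 ≤ (R * Real.exp R) ^ 2 * (h ^ 2 / Dd ^ 2) := by
    have := pow_le_pow_left₀ (norm_nonneg τ) hτn 2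
    rw [mul_pow, div_pow] at this
    exact this
  have hre : |τ.re - (Complex.I * u * g).re| ≤ R ^ 2 * Real.exp R * h := by
    rw [← Complex.sub_re]
    refine (Complex.abs_re_le_norm _).trans ?_
    have e3 : τ - Complex.I * u * g = g * (Complex.exp (Complex.I * u) - 1 - Complex.I * u) := by
      rw [hτ]; ring
    rw [e3, norm_mul, hgn]
    have e4 : ‖Complex.exp (Complex.I * u) - 1 - Complex.I * u‖ ≤ (R * h) ^ 2 * Real.exp R :=
      (exp_two' u).trans (mul_le_mul (pow_le_pow_left₀ (norm_nonneg _) hw 2) hexp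
        (Real.exp_pos _).le (by positivity))
    calc 1 / Dd * ‖Complex.exp (Complex.I * u) - 1 - Complex.I * u‖
        ≤ 1 / Dd * ((R * h) ^ 2 * Real.exp R) := mul_le_mul_of_nonneg_left e4 (by positivity)
      _ = R ^ 2 * Real.exp R * h * (h / Dd) := by ring
      _ ≤ R ^ 2 * Real.exp R * h * 1 := mul_le_mul_of_nonneg_left hratio1 (by positivity)
      _ = R ^ 2 * Real.exp R * h := mul_one _
  have hre1 := (abs_le.1 hre).1
  have hre2 := (abs_le.1 hre).2
  constructor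
  · rw [key, norm_mul]
    apply mul_le_mul_of_nonneg_left _ hD0.le
    refine (norm_one_add_le τ).trans (Real.exp_le_exp.2 ?_)
    linarith
  · rw [key, norm_mul]
    apply mul_le_mul_of_nonneg_left _ hD0.le
    refine le_trans (Real.exp_le_exp.2 ?_) (le_norm_one_add τ hτ4)
    linarith

/-- Choice of a good point. -/
theorem good_pt {D : ℕ} (F : Finset (Fin D)) (z : Fin D → ℂ) (l : Fin D → ℝ → ℝ) (θ0 e V : ℝ)
    (he : 0 < e)
    (hl : ∀ k, IntervalIntegrable (l k) MeasureTheory.volume (θ0 - e) (θ0 + e))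
    (hV : ∀ k, k ∈ F → 2 * e * V ≤ ∫ θ in (θ0 - e)..(θ0 + e), l k θ) :
    ∃ θ : ℝ, |θ - θ0| ≤ e ∧ (∀ k ∈ F, Complex.exp (Complex.I * (θ : ℂ)) ≠ z k) ∧
      F.card * V - 1 ≤ ∑ k ∈ F, l k θ := by
  by_contra hcon
  push Not at hcon
  have hint : IntervalIntegrable (fun θ => ∑ k ∈ F, l k θ) MeasureTheory.volume
      (θ0 - e) (θ0 + e) := by
    have h0 := IntervalIntegrable.sum F (f := fun k => fun θ => l k θ)
      (μ := MeasureTheory.volume) (a := θ0 - e) (b := θ0 + e) (fun k _ => hl k)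
    have h01 : (∑ k ∈ F, fun θ => l k θ) = fun θ => ∑ k ∈ F, l k θ := by
      funext θ
      simp
    rw [h01] at h0
    exact h0
  have hae : (fun θ => ∑ k ∈ F, l k θ) ≤ᵐ[MeasureTheory.volume.restrict
      (Set.Icc (θ0 - e) (θ0 + e))] (fun _ => F.card * V - 1) := by
    have hS : (⋃ k ∈ F, {θ : ℝ | Complex.exp (Complex.I * (θ : ℂ)) = z k}).Countable :=
      F.countable_toSet.biUnion (fun k _ => TrigAux.countable_pre (z k))
    have hnull : ∀ᵐ θ ∂(MeasureTheory.volume.restrict (Set.Icc (θ0 - e) (θ0 + e))),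
        θ ∉ (⋃ k ∈ F, {θ : ℝ | Complex.exp (Complex.I * (θ : ℂ)) = z k}) :=
      MeasureTheory.ae_restrict_of_ae
        (MeasureTheory.measure_eq_zero_iff_ae_notMem.mp (hS.measure_zero _))
    have hmem : ∀ᵐ θ ∂(MeasureTheory.volume.restrict (Set.Icc (θ0 - e) (θ0 + e))),
        θ ∈ Set.Icc (θ0 - e) (θ0 + e) := MeasureTheory.ae_restrict_mem measurableSet_Icc
    filter_upwards [hnull, hmem] with θ h1 h2
    apply le_of_lt
    apply hcon θ
    · rw [abs_le]; constructor <;> linarith [h2.1, h2.2]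
    · intro k hk hzz
      apply h1
      simp only [Set.mem_iUnion, Set.mem_ofPred_eq]
      exact ⟨k, hk, hzz⟩
  have h3 := intervalIntegral.integral_mono_ae_restrict (by linarith : θ0 - e ≤ θ0 + e) hint
    intervalIntegrable_const hae
  rw [intervalIntegral.integral_const, intervalIntegral.integral_finsetSum
    (fun k _ => hl k)] at h3
  have h4 : F.card * (2 * e * V) ≤ ∑ k ∈ F, ∫ θ in (θ0 - e)..(θ0 + e), l k θ := by
    rw [← nsmul_eq_mul, ← Finset.sum_const]
    exact Finset.sum_le_sum fun k hk => hV k hk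
  have h5 : (θ0 + e - (θ0 - e)) • (F.card * V - 1) = F.card * (2 * e * V) - 2 * e := by
    rw [smul_eq_mul]; ring
  rw [h5] at h3
  linarith

/-- real part of `ζ / (ζ - z)` on the unit circle -/
theorem re_bound (θ : ℝ) (z : ℂ) (hne : pt θ - z ≠ 0) :
    |(pt θ / (pt θ - z)).re| ≤ 1 + |1 - ‖z‖ ^ 2| / ‖pt θ - z‖ ^ 2 := by
  have hp : ‖pt θ - z‖ ^ 2 ≠ 0 := pow_ne_zero _ (norm_ne_zero_iff.2 hne)
  have hp' : 0 < ‖pt θ - z‖ ^ 2 := lt_of_le_of_ne (sq_nonneg _) hp.symm
  have h1 : ‖pt θ‖ ^ 2 = 1 := by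
    rw [pt, RootP.norm_exp_I_real]; norm_num
  have h2 : (pt θ / (pt θ - z)).re = (‖pt θ - z‖ ^ 2 + (1 - ‖z‖ ^ 2)) / (2 * ‖pt θ - z‖ ^ 2) := by
    rw [Complex.div_re, ← Complex.sq_norm]
    rw [← add_div, div_eq_div_iff hp (by positivity)]
    rw [Complex.sq_norm, Complex.normSq_apply] at h1
    rw [Complex.sq_norm z, Complex.normSq_apply z]
    have h3 : ‖pt θ - z‖ ^ 2 = (pt θ - z).re * (pt θ - z).re + (pt θ - z).im * (pt θ - z).im := by
      rw [Complex.sq_norm, Complex.normSq_apply]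
    have h4 : 2 * ((pt θ).re * (pt θ - z).re + (pt θ).im * (pt θ - z).im)
        = ‖pt θ - z‖ ^ 2 + (1 - (z.re * z.re + z.im * z.im)) := by
      rw [h3]
      simp only [Complex.sub_re, Complex.sub_im]
      linear_combination h1
    rw [← h4]
    ring
  have h5 : (pt θ / (pt θ - z)).re = 1 / 2 + (1 / 2) * ((1 - ‖z‖ ^ 2) / ‖pt θ - z‖ ^ 2) := by
    rw [h2]
    field_simp
  rw [h5]
  have h6 : |(1 - ‖z‖ ^ 2) / ‖pt θ - z‖ ^ 2| = |1 - ‖z‖ ^ 2| / ‖pt θ - z‖ ^ 2 := by
    rw [abs_div, abs_of_pos hp']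
  have h7 : 0 ≤ |1 - ‖z‖ ^ 2| / ‖pt θ - z‖ ^ 2 := by positivity
  calc |1 / 2 + (1 / 2) * ((1 - ‖z‖ ^ 2) / ‖pt θ - z‖ ^ 2)|
      ≤ |1 / 2| + |(1 / 2) * ((1 - ‖z‖ ^ 2) / ‖pt θ - z‖ ^ 2)| := abs_add_le _ _
    _ = 1 / 2 + 1 / 2 * (|1 - ‖z‖ ^ 2| / ‖pt θ - z‖ ^ 2) := by
        rw [abs_mul, h6, abs_of_pos (by norm_num : (0 : ℝ) < 1 / 2)]
    _ ≤ _ := by linarith

end Loc1P

open Loc1P

theorem s_LOC1 : S_LOC1 := by
  intro R0 hR0
  obtain ⟨A1, A2, hA1, hA2, hroot⟩ := s_ROOT 1 R0 one_pos hR0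
  have he1 : 0 < Real.exp 1 := Real.exp_pos 1
  have heR : 0 < R0 * Real.exp R0 := by positivity
  set B : ℝ := 4 * (R0 * Real.exp R0) + 4 * (1 * Real.exp 1) with hB
  have hBp : 0 < B := by positivity
  have hB1 : 1 ≤ B := by
    have := Real.add_one_le_exp (1 : ℝ)
    linarith
  have hBR : 4 * (R0 * Real.exp R0) ≤ B := by linarith
  have hBo : 4 * (1 * Real.exp 1) ≤ B := by linarith
  set C3 : ℝ := Real.log ((B + A1) / A1) + A2 with hC3
  have hlogn : 0 ≤ Real.log ((B + A1) / A1) :=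
    Real.log_nonneg (by rw [le_div_iff₀ hA1]; linarith)
  have hC3p : 0 ≤ C3 := by positivity
  set Ca : ℝ := R0 ^ 2 * Real.exp R0 + 1 ^ 2 * Real.exp 1 with hCa
  set Cb : ℝ := (R0 * Real.exp R0) ^ 2 + 6 * (1 * Real.exp 1) ^ 2 with hCb
  have hCap : 0 ≤ Ca := by positivity
  have hCbp : 0 ≤ Cb := by positivity
  refine ⟨B, 1 + C3 + (R0 + 1) + R0 + Ca + Cb, hBp, by positivity, ?_⟩
  intro D z h θ0 hh h1 w hw
  choose hup l hlint hlow hint using fun k => hroot h θ0 (z k) hh h1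
  set V : ℝ := Real.log (A1 * h) - A2 with hV
  obtain ⟨θ, hθ, hθF, hθl⟩ := good_pt (nearS z B h θ0) z l θ0 (h / (1 + 1)) V (by positivity)
    hlint (by
      intro k _
      refine le_trans ?_ (hint k)
      apply mul_le_mul_of_nonneg_left _ (by positivity)
      have hn := norm_nonneg (Complex.exp (Complex.I * (θ0 : ℂ)) - z k)
      have a1 : Real.log (A1 * h)
          ≤ Real.log (‖Complex.exp (Complex.I * (θ0 : ℂ)) - z k‖ + A1 * h) :=
        Real.log_le_log (by positivity) (by linarith)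
      have a2 : h / (‖Complex.exp (Complex.I * (θ0 : ℂ)) - z k‖ + h) ≤ 1 := by
        rw [div_le_one (by positivity)]; linarith
      have a3 := mul_le_mul_of_nonneg_left a2 hA2
      linarith)
  have hθh : |θ - θ0| ≤ h := hθ.trans (by linarith)
  refine ⟨θ, hθh, ?_⟩
  have hwre : |w.re - θ0| ≤ R0 * h := by
    have e1 : w.re - θ0 = (w - (θ0 : ℂ)).re := by simp
    rw [e1]
    exact (Complex.abs_re_le_norm _).trans hw
  have hwim : |w.im| ≤ R0 * h := by
    have e1 : w.im = (w - (θ0 : ℂ)).im := by simp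
    rw [e1]
    exact (Complex.abs_im_le_norm _).trans hw
  -- near roots
  have hnear : ∏ k ∈ nearS z B h θ0, ‖Complex.exp (Complex.I * w) - z k‖
      ≤ Real.exp (C3 * qN z B h θ0 + 1) * ∏ k ∈ nearS z B h θ0, ‖pt θ - z k‖ := by
    have b1 : ∏ k ∈ nearS z B h θ0, ‖Complex.exp (Complex.I * w) - z k‖
        ≤ Real.exp (((nearS z B h θ0).card : ℝ) * Real.log ((B + A1) * h)) := by
      rw [Real.exp_nat_mul, Real.exp_log (by positivity), ← Finset.prod_const]
      apply Finset.prod_le_prod (fun k _ => norm_nonneg _)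
      intro k hk
      refine (hup k w hw).trans ?_
      have hk' : ‖pt θ0 - z k‖ ≤ B * h := by
        simpa [nearS] using hk
      have : ‖Complex.exp (Complex.I * (θ0 : ℂ)) - z k‖ ≤ B * h := hk'
      linarith
    have b2 : Real.exp (((nearS z B h θ0).card : ℝ) * V - 1)
        ≤ ∏ k ∈ nearS z B h θ0, ‖pt θ - z k‖ := by
      have b3 : ∏ k ∈ nearS z B h θ0, ‖pt θ - z k‖
          = Real.exp (∑ k ∈ nearS z B h θ0, Real.log ‖pt θ - z k‖) := by
        rw [Real.exp_sum]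
        apply Finset.prod_congr rfl
        intro k hk
        rw [Real.exp_log]
        rw [norm_pos_iff, sub_ne_zero]
        exact hθF k hk
      rw [b3]
      apply Real.exp_le_exp.2
      refine hθl.trans ?_
      apply Finset.sum_le_sum
      intro k hk
      exact hlow k θ hθ (hθF k hk)
    have b4 : Real.log ((B + A1) * h) = C3 + V := by
      have b5 : (B + A1) * h = ((B + A1) / A1) * (A1 * h) := by field_simp
      rw [b5, Real.log_mul (by positivity) (by positivity), hC3, hV]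
      ring
    calc ∏ k ∈ nearS z B h θ0, ‖Complex.exp (Complex.I * w) - z k‖
        ≤ Real.exp (((nearS z B h θ0).card : ℝ) * Real.log ((B + A1) * h)) := b1
      _ = Real.exp (C3 * qN z B h θ0 + 1) * Real.exp (((nearS z B h θ0).card : ℝ) * V - 1) := by
          rw [← Real.exp_add, b4, qN]
          congr 1
          ring
      _ ≤ _ := mul_le_mul_of_nonneg_left b2 (Real.exp_pos _).le
  -- far roots
  set G : ℂ := ∑ k ∈ farS z B h θ0, pt θ0 / (pt θ0 - z k) with hG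
  have hcardF : ((farS z B h θ0).card : ℝ) ≤ D := by
    have := Finset.card_le_univ (farS z B h θ0)
    rw [Fintype.card_fin] at this
    exact_mod_cast this
  have hmemF : ∀ k ∈ farS z B h θ0, B * h < ‖pt θ0 - z k‖ := by
    intro k hk
    simpa [farS] using hk
  have hGre : h * |G.re| ≤ h * D + qW z B h θ0 := by
    have c1 : |G.re| ≤ ∑ k ∈ farS z B h θ0, (1 + |1 - ‖z k‖ ^ 2| / ‖pt θ0 - z k‖ ^ 2) := by
      rw [hG, Complex.re_sum]
      refine (Finset.abs_sum_le_sum_abs _ _).trans ?_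
      apply Finset.sum_le_sum
      intro k hk
      apply re_bound
      apply norm_pos_iff.1
      exact lt_trans (by positivity) (hmemF k hk)
    have c2 := mul_le_mul_of_nonneg_left c1 hh.le
    rw [Finset.sum_add_distrib, Finset.sum_const, nsmul_eq_mul, mul_one, mul_add,
      Finset.mul_sum] at c2
    have c3 := mul_le_mul_of_nonneg_left hcardF hh.le
    have c4 : ∑ k ∈ farS z B h θ0, h * (|1 - ‖z k‖ ^ 2| / ‖pt θ0 - z k‖ ^ 2) = qW z B h θ0 := by
      rw [qW]
      apply Finset.sum_congr rfl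
      intro k _
      rw [mul_div_assoc]
    linarith
  have hfar : ∏ k ∈ farS z B h θ0, ‖Complex.exp (Complex.I * w) - z k‖
      ≤ Real.exp ((Complex.I * (w - θ) * G).re + Ca * (h * D) + Cb * qQ z B h θ0)
        * ∏ k ∈ farS z B h θ0, ‖pt θ - z k‖ := by
    have d1 : ∀ k ∈ farS z B h θ0, ‖Complex.exp (Complex.I * w) - z k‖
        ≤ Real.exp ((Complex.I * (w - θ) * (pt θ0 / (pt θ0 - z k))).re + Ca * h
            + Cb * (h ^ 2 / ‖pt θ0 - z k‖ ^ 2)) * ‖pt θ - z k‖ := by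
      intro k hk
      have f1 := (far R0 B h θ0 hR0 hh h1 hBR hB1 (z k) w hw (hmemF k hk)).1
      have f2 := (far 1 B h θ0 one_pos hh h1 hBo hB1 (z k) (θ : ℂ) (by
        rw [one_mul, ← Complex.ofReal_sub, Complex.norm_real, Real.norm_eq_abs]
        exact hθh) (hmemF k hk)).2
      have f3 : ‖Complex.exp (Complex.I * (θ : ℂ)) - z k‖ = ‖pt θ - z k‖ := rfl
      rw [f3] at f2
      refine f1.trans ?_
      refine le_trans (le_of_eq ?_) (mul_le_mul_of_nonneg_left f2 (Real.exp_pos _).le)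
      rw [mul_left_comm, ← Real.exp_add]
      congr 2
      have f4 : (Complex.I * (w - θ0) * (pt θ0 / (pt θ0 - z k))).re
          = (Complex.I * (w - θ) * (pt θ0 / (pt θ0 - z k))).re
            + (Complex.I * ((θ : ℂ) - θ0) * (pt θ0 / (pt θ0 - z k))).re := by
        rw [← Complex.add_re]
        congr 1
        ring
      rw [f4, hCa, hCb]
      ring
    refine (Finset.prod_le_prod (fun k _ => norm_nonneg _) d1).trans ?_
    rw [Finset.prod_mul_distrib, ← Real.exp_sum]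
    apply mul_le_mul_of_nonneg_right _ (Finset.prod_nonneg fun k _ => norm_nonneg _)
    apply Real.exp_le_exp.2
    rw [Finset.sum_add_distrib, Finset.sum_add_distrib, Finset.sum_const, nsmul_eq_mul,
      ← Finset.mul_sum, ← Complex.re_sum, ← Finset.mul_sum]
    have d2 : ((farS z B h θ0).card : ℝ) * (Ca * h) ≤ Ca * (h * D) := by
      have := mul_le_mul_of_nonneg_left hcardF (show 0 ≤ Ca * h by positivity)
      linarith
    have d3 : ∑ k ∈ farS z B h θ0, h ^ 2 / ‖pt θ0 - z k‖ ^ 2 = qQ z B h θ0 := rfl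
    rw [d3]
    linarith
  have hmain : (Complex.I * (w - θ) * G).re ≤ (R0 + 1) * (h * qH z B h θ0)
      + R0 * (h * D + qW z B h θ0) := by
    have g1 : (Complex.I * (w - θ) * G).re = -(w.re - θ) * G.im - w.im * G.re := by
      simp only [Complex.mul_re, Complex.mul_im, Complex.I_re, Complex.I_im, Complex.sub_re,
        Complex.sub_im, Complex.ofReal_re, Complex.ofReal_im]
      ring
    have g2 : |w.re - θ| ≤ (R0 + 1) * h := by
      have e1 : w.re - θ = (w.re - θ0) - (θ - θ0) := by ring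
      rw [e1]
      refine (abs_sub _ _).trans ?_
      linarith
    have g3 : -(w.re - θ) * G.im ≤ (R0 + 1) * h * |G.im| := by
      refine (le_abs_self _).trans ?_
      rw [abs_mul, abs_neg]
      exact mul_le_mul_of_nonneg_right g2 (abs_nonneg _)
    have g4 : -(w.im * G.re) ≤ R0 * h * |G.re| := by
      refine (le_abs_self _).trans ?_
      rw [abs_neg, abs_mul]
      exact mul_le_mul_of_nonneg_right hwim (abs_nonneg _)
    have g5 : |G.im| = qH z B h θ0 := rfl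
    rw [g1]
    rw [g5] at g3
    have g6 := mul_le_mul_of_nonneg_left hGre hR0.le
    linarith
  -- assembly
  have hsplit : ∀ f : Fin D → ℝ, ∏ k, f k
      = (∏ k ∈ nearS z B h θ0, f k) * ∏ k ∈ farS z B h θ0, f k := by
    intro f
    classical
    have s1 := Finset.prod_filter_mul_prod_filter_not (Finset.univ : Finset (Fin D))
      (fun k => ‖pt θ0 - z k‖ ≤ B * h) f
    simp only [not_le] at s1
    rw [← s1]
    unfold nearS farS
    congr! 1
  rw [hsplit (fun k => ‖Complex.exp (Complex.I * w) - z k‖), hsplit (fun k => ‖pt θ - z k‖)]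
  have hN0 : 0 ≤ qN z B h θ0 := Nat.cast_nonneg _
  have hQ0 : 0 ≤ qQ z B h θ0 := Finset.sum_nonneg fun k _ => by positivity
  have hW0 : 0 ≤ qW z B h θ0 := Finset.sum_nonneg fun k _ => by positivity
  have hH0 : 0 ≤ h * qH z B h θ0 := mul_nonneg hh.le (abs_nonneg _)
  have hD0 : 0 ≤ h * (D : ℝ) := by positivity
  have hpn : 0 ≤ ∏ k ∈ nearS z B h θ0, ‖pt θ - z k‖ := Finset.prod_nonneg fun k _ => norm_nonneg _
  have hpf : 0 ≤ ∏ k ∈ farS z B h θ0, ‖pt θ - z k‖ := Finset.prod_nonneg fun k _ => norm_nonneg _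
  have hpf' : 0 ≤ ∏ k ∈ farS z B h θ0, ‖Complex.exp (Complex.I * w) - z k‖ :=
    Finset.prod_nonneg fun k _ => norm_nonneg _
  refine (mul_le_mul hnear hfar hpf' (by positivity)).trans ?_
  rw [mul_mul_mul_comm, ← Real.exp_add]
  apply mul_le_mul_of_nonneg_right _ (mul_nonneg hpn hpf)
  apply Real.exp_le_exp.2
  have t1 : 0 ≤ (R0 + 1 + R0 + Ca + Cb) * 1 := by positivity
  have t2 : 0 ≤ (1 + C3 + (R0 + 1) + R0 + Ca + Cb - C3) * qN z B h θ0 := by
    apply mul_nonneg _ hN0; linarith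
  have t3 : 0 ≤ (1 + C3 + (R0 + 1) + R0 + Ca + Cb - Cb) * qQ z B h θ0 := by
    apply mul_nonneg _ hQ0; linarith
  have t4 : 0 ≤ (1 + C3 + (R0 + 1) + R0 + Ca + Cb - R0) * qW z B h θ0 := by
    apply mul_nonneg _ hW0; linarith
  have t5 : 0 ≤ (1 + C3 + (R0 + 1) + R0 + Ca + Cb - (R0 + 1)) * (h * qH z B h θ0) := by
    apply mul_nonneg _ hH0; linarith
  have t6 : 0 ≤ (1 + C3 + (R0 + 1) + R0 + Ca + Cb - R0 - Ca) * (h * D) := by
    apply mul_nonneg _ hD0; linarith
  nlinarith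

end Pool.Agent.R267.DI
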