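import Pool.Agent.R267.DI.Weak

set_option autoImplicit false
open Complex Real

namespace Pool.Agent.R267.DI

/-- Sum of a geometric series over the roots of unity. -/
lemma sums_geom (n : ℕ) (hn : 0 < n) (ω a : ℂ) (hω : IsPrimitiveRoot ω n) (ha : ‖a‖ < 1) :
    ∑ j ∈ Finset.range n, 1 / (1 - a * ω ^ j) = n / (1 - a ^ n) := by
  have hωn : ‖ω‖ = 1 := hω.norm'_eq_one hn.ne'
  have hne : ∀ j : ℕ, (1 - a * ω ^ j) ≠ 0 := by
    intro j h
    have h1 : a * ω ^ j = 1 := by linear_combination -h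
    have h2 : ‖a * ω ^ j‖ = 1 := by rw [h1]; simp
    rw [norm_mul, norm_pow, hωn, one_pow, mul_one] at h2
    linarith
  have han : (1 - a ^ n) ≠ 0 := by
    intro h
    have h1 : a ^ n = 1 := by linear_combination -h
    have h2 : ‖a ^ n‖ = 1 := by rw [h1]; simp
    rw [norm_pow] at h2
    have h3 : ‖a‖ ^ n < 1 := pow_lt_one₀ (norm_nonneg _) ha hn.ne'
    linarith
  have hterm : ∀ j : ℕ, 1 / (1 - a * ω ^ j)
      = (∑ k ∈ Finset.range n, (a * ω ^ j) ^ k) / (1 - a ^ n) := by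
    intro j
    have h1 : (∑ k ∈ Finset.range n, (a * ω ^ j) ^ k) * (1 - a * ω ^ j) = 1 - (a * ω ^ j) ^ n :=
      geom_sum_mul_neg _ _
    have h2 : (a * ω ^ j) ^ n = a ^ n := by
      rw [mul_pow, ← pow_mul, mul_comm j n, pow_mul, hω.pow_eq_one, one_pow, mul_one]
    rw [h2] at h1
    rw [div_eq_div_iff (hne j) han]
    rw [one_mul, h1]
  simp_rw [hterm]
  rw [← Finset.sum_div, Finset.sum_comm]
  congr 1
  rw [Finset.sum_eq_single 0]
  · simp
  · intro k hk hk0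
    have hkn : k < n := Finset.mem_range.mp hk
    have h1 : ∀ j ∈ Finset.range n, (a * ω ^ j) ^ k = a ^ k * (ω ^ k) ^ j := by
      intro j _
      rw [mul_pow, ← pow_mul, ← pow_mul, mul_comm j k]
    rw [Finset.sum_congr rfl h1, ← Finset.mul_sum]
    have h2 : ω ^ k ≠ 1 := hω.pow_ne_one_of_pos_of_lt hk0 hkn
    have h3 : (∑ j ∈ Finset.range n, (ω ^ k) ^ j) * (ω ^ k - 1) = (ω ^ k) ^ n - 1 :=
      geom_sum_mul _ _
    have h4 : (ω ^ k) ^ n = 1 := by rw [← pow_mul, mul_comm, pow_mul, hω.pow_eq_one, one_pow]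
    rw [h4, sub_self] at h3
    have h5 : (∑ j ∈ Finset.range n, (ω ^ k) ^ j) = 0 := by
      rcases mul_eq_zero.mp h3 with h | h
      · exact h
      · exact absurd (by linear_combination h) h2
    rw [h5, mul_zero]
  · intro h; exact absurd (Finset.mem_range.mpr hn) h

/-- Poisson kernel identity. -/
lemma poisson_id (u : ℂ) (hu : ‖u‖ < 1) :
    (1 - ‖u‖ ^ 2) / ‖1 - u‖ ^ 2 = 2 * (1 / (1 - u)).re - 1 := by
  have hne : (1 - u) ≠ 0 := by
    intro h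
    have h1 : u = 1 := by linear_combination -h
    rw [h1] at hu; simp at hu
  have hn : Complex.normSq (1 - u) ≠ 0 := by simpa [Complex.normSq_eq_zero] using hne
  rw [one_div, Complex.inv_re, ← Complex.normSq_eq_norm_sq, ← Complex.normSq_eq_norm_sq]
  rw [div_eq_iff hn, sub_mul, mul_assoc, div_mul_cancel₀ _ hn]
  simp only [Complex.normSq_apply, Complex.sub_re, Complex.sub_im, Complex.one_re, Complex.one_im]
  ring

/-- Sum of the Poisson kernel over the roots of unity. -/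
lemma poisson_sum (n : ℕ) (hn : 0 < n) (w : ℂ) (hw : ‖w‖ < 1) :
    ∑ j ∈ Finset.range n, (1 - ‖w‖ ^ 2) / ‖pt (2 * π * j / n) - w‖ ^ 2 ≤ 2 * n / (1 - ‖w‖ ^ n) := by
  have hprim : IsPrimitiveRoot (Complex.exp (2 * π * Complex.I / n))⁻¹ n :=
    (Complex.isPrimitiveRoot_exp n hn.ne').inv
  set ω : ℂ := (Complex.exp (2 * π * Complex.I / n))⁻¹ with hω
  have hωn : ‖ω‖ = 1 := hprim.norm'_eq_one hn.ne'
  have hpt : ∀ j : ℕ, pt (2 * π * j / n) * ω ^ j = 1 := by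
    intro j
    have h1 : pt (2 * π * j / n) = (Complex.exp (2 * π * Complex.I / n)) ^ j := by
      rw [pt, ← Complex.exp_nat_mul]
      congr 1
      push_cast
      ring
    rw [h1, hω, ← mul_pow, mul_inv_cancel₀ (Complex.exp_ne_zero _), one_pow]
  have hu : ∀ j : ℕ, ‖w * ω ^ j‖ = ‖w‖ := by
    intro j; rw [norm_mul, norm_pow, hωn, one_pow, mul_one]
  have hd : ∀ j : ℕ, ‖pt (2 * π * j / n) - w‖ = ‖1 - w * ω ^ j‖ := by
    intro j
    have h1 : 1 - w * ω ^ j = (pt (2 * π * j / n) - w) * ω ^ j := by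
      rw [sub_mul, hpt j]
    rw [h1, norm_mul, norm_pow, hωn, one_pow, mul_one]
  have hterm : ∀ j ∈ Finset.range n, (1 - ‖w‖ ^ 2) / ‖pt (2 * π * j / n) - w‖ ^ 2
      = 2 * (1 / (1 - w * ω ^ j)).re - 1 := by
    intro j _
    rw [hd j, ← poisson_id _ (by rw [hu j]; exact hw), hu j]
  rw [Finset.sum_congr rfl hterm, Finset.sum_sub_distrib, ← Finset.mul_sum, ← Complex.re_sum,
    sums_geom n hn ω w hprim hw]
  have h3 : ‖w‖ ^ n < 1 := pow_lt_one₀ (norm_nonneg _) hw hn.ne'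
  have h4 : ((n : ℂ) / (1 - w ^ n)).re ≤ n / (1 - ‖w‖ ^ n) := by
    calc ((n : ℂ) / (1 - w ^ n)).re ≤ ‖(n : ℂ) / (1 - w ^ n)‖ := Complex.re_le_norm _
      _ = n / ‖1 - w ^ n‖ := by rw [norm_div]; simp
      _ ≤ n / (1 - ‖w‖ ^ n) := by
        apply div_le_div_of_nonneg_left (by positivity) (by linarith)
        have h5 := norm_sub_norm_le (1 : ℂ) (w ^ n)
        rw [norm_one, norm_pow] at h5
        exact h5
  have h6 : (0 : ℝ) ≤ ∑ j ∈ Finset.range n, (1 : ℝ) := Finset.sum_nonneg (fun _ _ => zero_le_one)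
  have h7 : 2 * (n : ℝ) / (1 - ‖w‖ ^ n) = 2 * (n / (1 - ‖w‖ ^ n)) := by ring
  rw [h7]
  linarith

/-- The contribution of one root. -/
noncomputable def ff (B h : ℝ) (z : ℂ) (θ : ℝ) : ℝ :=
  if ‖pt θ - z‖ ≤ B * h then 1
  else h ^ 2 / ‖pt θ - z‖ ^ 2 + h * |1 - ‖z‖ ^ 2| / ‖pt θ - z‖ ^ 2

lemma norm_pt (θ : ℝ) : ‖pt θ‖ = 1 := by
  rw [pt, mul_comm]; exact Complex.norm_exp_ofReal_mul_I θ

lemma sum_eq_ff {D : ℕ} (z : Fin D → ℂ) (B h θ : ℝ) :
    qN z B h θ + qQ z B h θ + qW z B h θ = ∑ k, ff B h (z k) θ := by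
  classical
  have hN : qN z B h θ = ∑ k, if ‖pt θ - z k‖ ≤ B * h then (1 : ℝ) else 0 := by
    rw [qN, nearS, Finset.sum_ite, Finset.sum_const_zero, add_zero, Finset.sum_const,
      nsmul_eq_mul, mul_one]
  have hfar : farS z B h θ = Finset.univ.filter (fun k => ¬ (‖pt θ - z k‖ ≤ B * h)) := by
    rw [farS]
    ext k
    simp
  rw [hN, qQ, qW, hfar, add_assoc, ← Finset.sum_add_distrib, Finset.sum_filter,
    ← Finset.sum_add_distrib]
  apply Finset.sum_congr rfl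
  intro k _
  rw [ff]
  split_ifs <;> simp_all

/-- Pointwise bound when the root is far from the circle. -/
lemma ff_far (B h : ℝ) (hB : 0 < B) (hh : 0 < h) (hh1 : h ≤ 1) (z : ℂ) (θ : ℝ)
    (hδ : 1 / 2 < |1 - ‖z‖|) : ff B h z θ ≤ (9 + 2 * B) * h := by
  have hz : 0 ≤ ‖z‖ := norm_nonneg z
  set D := ‖pt θ - z‖ with hD
  have hDδ : |1 - ‖z‖| ≤ D := by
    have := abs_norm_sub_norm_le (pt θ) z
    rwa [norm_pt] at this
  have hD0 : 1 / 2 < D := lt_of_lt_of_le hδ hDδ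
  rw [ff, ← hD]
  split_ifs with hc
  · nlinarith
  · have h1 : h ^ 2 / D ^ 2 ≤ 4 * h := by
      rw [div_le_iff₀ (by positivity)]
      have hD4 : 1 ≤ 4 * D ^ 2 := by nlinarith
      have : h * 1 ≤ h * (4 * D ^ 2) := mul_le_mul_of_nonneg_left hD4 hh.le
      nlinarith
    have h2 : h * |1 - ‖z‖ ^ 2| / D ^ 2 ≤ 5 * h := by
      rw [div_le_iff₀ (by positivity)]
      have h3 : |1 - ‖z‖ ^ 2| = |1 - ‖z‖| * (1 + ‖z‖) := by
        rw [show 1 - ‖z‖ ^ 2 = (1 - ‖z‖) * (1 + ‖z‖) by ring, abs_mul,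
          abs_of_nonneg (by linarith : 0 ≤ 1 + ‖z‖)]
      have h4 : ‖z‖ ≤ 1 + |1 - ‖z‖| := by
        have := neg_abs_le (1 - ‖z‖); linarith
      have h5 : |1 - ‖z‖ ^ 2| ≤ 5 * D ^ 2 := by
        rw [h3]
        nlinarith [abs_nonneg (1 - ‖z‖)]
      nlinarith
    have : 0 ≤ 2 * B * h := by positivity
    linarith

/-- Pointwise bound by the Poisson kernel when the root is close to the circle. -/
lemma ff_near (B h : ℝ) (hB : 0 < B) (hh : 0 < h) (hh1 : h ≤ 1) (z : ℂ)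
    (hδ : |1 - ‖z‖| ≤ 1 / 2) : ∃ w : ℂ, ‖w‖ < 1 ∧ ‖w‖ ≤ 1 - h / 2 ∧ ∀ θ : ℝ,
      ff B h z θ ≤ (22 * (B + 1) ^ 2 + 80 * (1 + 1 / B) ^ 2) * h *
        ((1 - ‖w‖ ^ 2) / ‖pt θ - w‖ ^ 2) := by
  have hz : 0 ≤ ‖z‖ := norm_nonneg z
  have hz1 : 1 / 2 ≤ ‖z‖ := by
    have := le_abs_self (1 - ‖z‖); linarith
  have hz2 : ‖z‖ ≤ 3 / 2 := by
    have := neg_abs_le (1 - ‖z‖); linarith
  set δ := |1 - ‖z‖| with hδd
  have hδ0 : 0 ≤ δ := abs_nonneg _
  set m := max δ h with hm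
  have hmδ : δ ≤ m := le_max_left _ _
  have hmh : h ≤ m := le_max_right _ _
  have hm1 : m ≤ 1 := max_le (by linarith) hh1
  set ρ := 1 - m / 2 with hρ
  have hz0 : (‖z‖ : ℂ) ≠ 0 := by
    rw [Ne, Complex.ofReal_eq_zero]; linarith
  have hw : ‖((ρ / ‖z‖ : ℝ) : ℂ) * z‖ = ρ := by
    rw [norm_mul, Complex.norm_real, Real.norm_of_nonneg (by apply div_nonneg <;> linarith)]
    field_simp
  refine ⟨((ρ / ‖z‖ : ℝ) : ℂ) * z, by rw [hw]; linarith, by rw [hw]; linarith, ?_⟩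
  intro θ
  set w := ((ρ / ‖z‖ : ℝ) : ℂ) * z with hwd
  rw [hw]
  have hzw : ‖z - w‖ ≤ 3 / 2 * m := by
    have h1 : z - w = ((1 - ρ / ‖z‖ : ℝ) : ℂ) * z := by rw [hwd]; push_cast; ring
    rw [h1, norm_mul, Complex.norm_real, Real.norm_eq_abs]
    have h2 : |1 - ρ / ‖z‖| * ‖z‖ = |‖z‖ - ρ| := by
      rw [← abs_of_nonneg hz, ← abs_mul, abs_of_nonneg hz, sub_mul, one_mul,
        div_mul_cancel₀ _ (by linarith)]
    rw [h2]
    have h3 : |‖z‖ - ρ| ≤ δ + m / 2 := by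
      have : ‖z‖ - ρ = -(1 - ‖z‖) + m / 2 := by rw [hρ]; ring
      rw [this]
      refine (abs_add_le _ _).trans ?_
      rw [abs_neg, abs_of_nonneg (by linarith : 0 ≤ m / 2)]
    linarith
  set D := ‖pt θ - z‖ with hD
  have hDδ : δ ≤ D := by
    have := abs_norm_sub_norm_le (pt θ) z
    rwa [norm_pt] at this
  set E := ‖pt θ - w‖ with hE
  have hED : E ≤ D + 3 / 2 * m := by
    have : pt θ - w = (pt θ - z) + (z - w) := by ring
    rw [hE, this]
    exact (norm_add_le _ _).trans (by linarith)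
  have hE0 : 0 < E := by
    have h1 := norm_sub_norm_le (pt θ) w
    rw [norm_pt, hw] at h1
    have : 1 - ρ ≤ E := h1
    linarith
  have hρ2 : 3 / 4 * m ≤ 1 - ρ ^ 2 := by rw [hρ]; nlinarith
  have hPpos : 0 ≤ h * ((1 - ρ ^ 2) / E ^ 2) := by
    apply mul_nonneg hh.le
    apply div_nonneg _ (by positivity)
    linarith
  rw [ff, ← hD]
  split_ifs with hc
  · -- near
    have hmB : m ≤ (B + 1) * h := max_le (by nlinarith) (by nlinarith)
    have hE4 : E ≤ 4 * (B + 1) * h := by nlinarith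
    have h1 : 1 ≤ 22 * (B + 1) ^ 2 * (h * ((1 - ρ ^ 2) / E ^ 2)) := by
      rw [show 22 * (B + 1) ^ 2 * (h * ((1 - ρ ^ 2) / E ^ 2))
        = (22 * (B + 1) ^ 2 * h * (1 - ρ ^ 2)) / E ^ 2 by ring]
      rw [le_div_iff₀ (by positivity)]
      have h2 : E ^ 2 ≤ (4 * (B + 1) * h) ^ 2 := by
        apply pow_le_pow_left₀ hE0.le hE4
      have h3 : 3 / 4 * h ≤ 1 - ρ ^ 2 := by linarith
      have h4 : 22 * (B + 1) ^ 2 * h * (3 / 4 * h) ≤ 22 * (B + 1) ^ 2 * h * (1 - ρ ^ 2) :=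
        mul_le_mul_of_nonneg_left h3 (by positivity)
      have h5 : (4 * (B + 1) * h) ^ 2 ≤ 22 * (B + 1) ^ 2 * h * (3 / 4 * h) := by
        have : 0 ≤ ((B + 1) * h) ^ 2 := by positivity
        nlinarith
      linarith
    have h6 : 0 ≤ 80 * (1 + 1 / B) ^ 2 * (h * ((1 - ρ ^ 2) / E ^ 2)) :=
      mul_nonneg (by positivity) hPpos
    calc (1 : ℝ) ≤ 22 * (B + 1) ^ 2 * (h * ((1 - ρ ^ 2) / E ^ 2))
          + 80 * (1 + 1 / B) ^ 2 * (h * ((1 - ρ ^ 2) / E ^ 2)) := by linarith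
      _ = _ := by ring
  · -- far
    push Not at hc
    have hD0 : 0 < D := lt_trans (by positivity) hc
    have hhD : h ≤ D * (1 / B) := by
      rw [mul_one_div, le_div_iff₀ hB]; nlinarith
    have hB' : 0 < 1 / B := by positivity
    have hmD : m ≤ D * (1 + 1 / B) := max_le (by nlinarith) (by nlinarith)
    set K := 4 * (1 + 1 / B) with hK
    have hEK : E ≤ K * D := by rw [hK]; nlinarith
    have hK0 : 0 < K := by rw [hK]; positivity
    have h3 : |1 - ‖z‖ ^ 2| = δ * (1 + ‖z‖) := by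
      rw [show 1 - ‖z‖ ^ 2 = (1 - ‖z‖) * (1 + ‖z‖) by ring, abs_mul,
        abs_of_nonneg (by linarith : 0 ≤ 1 + ‖z‖)]
    have h4 : h ^ 2 + h * |1 - ‖z‖ ^ 2| ≤ 14 / 3 * (h * (1 - ρ ^ 2)) := by
      rw [h3]
      have h5 : δ * (1 + ‖z‖) ≤ m * (5 / 2) :=
        mul_le_mul hmδ (by linarith) (by linarith) (by linarith)
      have h51 : h * (δ * (1 + ‖z‖)) ≤ h * (m * (5 / 2)) := mul_le_mul_of_nonneg_left h5 hh.le
      have h52 : h * h ≤ h * m := mul_le_mul_of_nonneg_left hmh hh.le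
      have h53 : h * (3 / 4 * m) ≤ h * (1 - ρ ^ 2) := mul_le_mul_of_nonneg_left hρ2 hh.le
      linarith
    have h6 : E ^ 2 ≤ K ^ 2 * D ^ 2 := by
      rw [← mul_pow]; exact pow_le_pow_left₀ hE0.le hEK 2
    have h7 : (h ^ 2 + h * |1 - ‖z‖ ^ 2|) / D ^ 2
        ≤ 5 * K ^ 2 * (h * ((1 - ρ ^ 2) / E ^ 2)) := by
      rw [show 5 * K ^ 2 * (h * ((1 - ρ ^ 2) / E ^ 2)) = (5 * K ^ 2 * (h * (1 - ρ ^ 2))) / E ^ 2 by
        ring]
      rw [div_le_div_iff₀ (by positivity) (by positivity)]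
      have hP : 0 ≤ h * (1 - ρ ^ 2) := by
        apply mul_nonneg hh.le; linarith
      calc (h ^ 2 + h * |1 - ‖z‖ ^ 2|) * E ^ 2
          ≤ (14 / 3 * (h * (1 - ρ ^ 2))) * (K ^ 2 * D ^ 2) := by
            apply mul_le_mul h4 h6 (by positivity) (by positivity)
        _ ≤ 5 * K ^ 2 * (h * (1 - ρ ^ 2)) * D ^ 2 := by
            have h9 : 0 ≤ (h * (1 - ρ ^ 2)) * (K ^ 2 * D ^ 2) :=
              mul_nonneg hP (mul_nonneg (sq_nonneg K) (sq_nonneg D))
            linarith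
    have h8 : 0 ≤ 22 * (B + 1) ^ 2 * (h * ((1 - ρ ^ 2) / E ^ 2)) :=
      mul_nonneg (by positivity) hPpos
    rw [← add_div]
    calc (h ^ 2 + h * |1 - ‖z‖ ^ 2|) / D ^ 2 ≤ 5 * K ^ 2 * (h * ((1 - ρ ^ 2) / E ^ 2)) := h7
      _ ≤ 22 * (B + 1) ^ 2 * (h * ((1 - ρ ^ 2) / E ^ 2))
          + 5 * K ^ 2 * (h * ((1 - ρ ^ 2) / E ^ 2)) := by linarith
      _ = _ := by rw [hK]; ring

/-- (DI-SUMS). -/
theorem s_SUMS : S_SUMS := by
  intro B c3 c4 hB hc3 hc4
  set q := Real.exp (-(c3 / 2)) with hq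
  have hq1 : q < 1 := by rw [hq, Real.exp_lt_one_iff]; linarith
  set C1 := 22 * (B + 1) ^ 2 + 80 * (1 + 1 / B) ^ 2 with hC1
  have hC10 : 0 ≤ C1 := by rw [hC1]; positivity
  refine ⟨(9 + 2 * B) * c4 + C1 * (2 * c4 / (1 - q)), ?_, ?_⟩
  · have : 0 ≤ 2 * c4 / (1 - q) := div_nonneg (by linarith) (by linarith)
    positivity
  intro D n z h hn hh hh1 hc3n hc4n
  have hone : ∀ k : Fin D, ∑ j ∈ Finset.range n, ff B h (z k) (2 * π * j / n)
      ≤ (9 + 2 * B) * c4 + C1 * (2 * c4 / (1 - q)) := by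
    intro k
    have hA2 : 0 ≤ C1 * (2 * c4 / (1 - q)) :=
      mul_nonneg hC10 (div_nonneg (by linarith) (by linarith))
    have hA1 : 0 ≤ (9 + 2 * B) * c4 := by positivity
    by_cases hδ : 1 / 2 < |1 - ‖z k‖|
    · calc ∑ j ∈ Finset.range n, ff B h (z k) (2 * π * j / n)
          ≤ ∑ j ∈ Finset.range n, (9 + 2 * B) * h :=
            Finset.sum_le_sum (fun j _ => ff_far B h hB hh hh1 (z k) _ hδ)
        _ = (9 + 2 * B) * (n * h) := by
            rw [Finset.sum_const, Finset.card_range, nsmul_eq_mul]; ring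
        _ ≤ (9 + 2 * B) * c4 := mul_le_mul_of_nonneg_left hc4n (by positivity)
        _ ≤ _ := by linarith
    · push Not at hδ
      obtain ⟨w, hw1, hw2, hw⟩ := ff_near B h hB hh hh1 (z k) hδ
      have hwn : ‖w‖ ^ n ≤ q := by
        have h1 : ‖w‖ ≤ Real.exp (-(h / 2)) := by
          refine hw2.trans ?_
          have := Real.add_one_le_exp (-(h / 2))
          linarith
        calc ‖w‖ ^ n ≤ (Real.exp (-(h / 2))) ^ n := pow_le_pow_left₀ (norm_nonneg _) h1 n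
          _ = Real.exp (-(n * h / 2)) := by rw [← Real.exp_nat_mul]; congr 1; ring
          _ ≤ q := by rw [hq]; apply Real.exp_le_exp.mpr; linarith
      have hP := poisson_sum n hn w hw1
      have hP2 : 2 * (n : ℝ) / (1 - ‖w‖ ^ n) ≤ 2 * n / (1 - q) :=
        div_le_div_of_nonneg_left (by positivity) (by linarith) (by linarith)
      calc ∑ j ∈ Finset.range n, ff B h (z k) (2 * π * j / n)
          ≤ ∑ j ∈ Finset.range n, C1 * h * ((1 - ‖w‖ ^ 2) / ‖pt (2 * π * j / n) - w‖ ^ 2) :=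
            Finset.sum_le_sum (fun j _ => hw _)
        _ = C1 * h * ∑ j ∈ Finset.range n, ((1 - ‖w‖ ^ 2) / ‖pt (2 * π * j / n) - w‖ ^ 2) := by
            rw [Finset.mul_sum]
        _ ≤ C1 * h * (2 * n / (1 - q)) :=
            mul_le_mul_of_nonneg_left (hP.trans hP2) (by positivity)
        _ = C1 * (2 * (n * h) / (1 - q)) := by ring
        _ ≤ C1 * (2 * c4 / (1 - q)) := by
            apply mul_le_mul_of_nonneg_left _ hC10
            apply div_le_div_of_nonneg_right _ (by linarith)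
            linarith
        _ ≤ _ := by linarith
  calc ∑ j ∈ Finset.range n, (qN z B h (2 * π * j / n) + qQ z B h (2 * π * j / n)
        + qW z B h (2 * π * j / n))
      = ∑ j ∈ Finset.range n, ∑ k, ff B h (z k) (2 * π * j / n) :=
        Finset.sum_congr rfl (fun j _ => sum_eq_ff z B h _)
    _ = ∑ k, ∑ j ∈ Finset.range n, ff B h (z k) (2 * π * j / n) := Finset.sum_comm
    _ ≤ ∑ k : Fin D, ((9 + 2 * B) * c4 + C1 * (2 * c4 / (1 - q))) :=
        Finset.sum_le_sum (fun k _ => hone k)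
    _ = _ := by rw [Finset.sum_const, Finset.card_univ, Fintype.card_fin, nsmul_eq_mul]; ring

end Pool.Agent.R267.DI
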