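import Pool.Agent.R267.DI.Weak
import Pool.Agent.R267.DI.Trig

/-!
# DI-WEAK: weak type doubling of trigonometric polynomials (from S_LOC1, S_SUMS, S_HWK)
-/

set_option autoImplicit false
open Complex Real

namespace Pool.Agent.R267.DI

namespace WeakAux

lemma exists_roots (P : Polynomial ℂ) : ∃ (D : ℕ) (z : Fin D → ℂ), D ≤ P.natDegree ∧
    ∀ w, ‖P.eval w‖ = ‖P.leadingCoeff‖ * ∏ k, ‖w - z k‖ := by
  set L := P.roots.toList with hL
  refine ⟨L.length, fun k => L.get k, ?_, fun w => ?_⟩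
  · rw [hL, Multiset.length_toList]; exact P.card_roots'
  · have h1 : P = Polynomial.C P.leadingCoeff *
        (P.roots.map (fun a => Polynomial.X - Polynomial.C a)).prod :=
      (IsAlgClosed.splits P).eq_prod_roots
    have h2 : P.eval w = P.leadingCoeff * (P.roots.map (fun a => w - a)).prod := by
      conv_lhs => rw [h1]
      rw [Polynomial.eval_mul, Polynomial.eval_C, Polynomial.eval_multiset_prod,
        Multiset.map_map]
      congr 3
      ext a
      simp
    have h3 : P.roots = (L : Multiset ℂ) := (Multiset.coe_toList _).symm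
    rw [h2, norm_mul, h3, Multiset.map_coe, Multiset.prod_coe]
    congr 1
    have h4 := Fin.prod_univ_fun_getElem L (fun a => w - a)
    rw [← h4, norm_prod]
    rfl

variable {D : ℕ} (z : Fin D → ℂ) {B h : ℝ}

lemma pt_norm (θ : ℝ) : ‖pt θ‖ = 1 := by
  unfold pt
  rw [mul_comm]; exact Complex.norm_exp_ofReal_mul_I θ

lemma mem_far {θ : ℝ} {k : Fin D} : k ∈ farS z B h θ ↔ B * h < ‖pt θ - z k‖ := by
  unfold farS; simp

lemma qN_nonneg (θ : ℝ) : 0 ≤ qN z B h θ := Nat.cast_nonneg _

lemma qQ_nonneg (θ : ℝ) : 0 ≤ qQ z B h θ := Finset.sum_nonneg fun _ _ => by positivity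

lemma qW_nonneg (hh : 0 < h) (θ : ℝ) : 0 ≤ qW z B h θ := Finset.sum_nonneg fun _ _ => by positivity

lemma qH_nonneg (θ : ℝ) : 0 ≤ qH z B h θ := abs_nonneg _

lemma qN_le (θ : ℝ) : qN z B h θ ≤ D := by
  unfold qN
  have := (nearS z B h θ).card_le_univ
  rw [Fintype.card_fin] at this
  exact_mod_cast this

lemma sum_far_le (f : Fin D → ℝ) (c : ℝ) (hc : 0 ≤ c) (θ : ℝ)
    (hf : ∀ k, B * h < ‖pt θ - z k‖ → f k ≤ c) : ∑ k ∈ farS z B h θ, f k ≤ c * D := by
  calc ∑ k ∈ farS z B h θ, f k ≤ ∑ k ∈ farS z B h θ, c :=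
        Finset.sum_le_sum fun k hk => hf k ((mem_far z).1 hk)
    _ = (farS z B h θ).card * c := by rw [Finset.sum_const, nsmul_eq_mul]
    _ ≤ D * c := by
        apply mul_le_mul_of_nonneg_right _ hc
        have := (farS z B h θ).card_le_univ
        rw [Fintype.card_fin] at this
        exact_mod_cast this
    _ = c * D := mul_comm _ _

lemma qQ_le (hB : 0 < B) (hh : 0 < h) (θ : ℝ) : qQ z B h θ ≤ 1 / B ^ 2 * D := by
  unfold qQ
  refine sum_far_le z _ _ (by positivity) θ fun k hk => ?_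
  have hd : 0 < ‖pt θ - z k‖ := lt_trans (by positivity) hk
  rw [div_le_div_iff₀ (by positivity) (by positivity)]
  have := pow_le_pow_left₀ (by positivity) hk.le 2
  nlinarith

lemma qW_le (hB : 0 < B) (hh : 0 < h) (hh1 : h ≤ 1) (θ : ℝ) : qW z B h θ ≤ (1 + 2 / B) * D := by
  unfold qW
  refine sum_far_le z _ _ (by positivity) θ fun k hk => ?_
  set d := ‖pt θ - z k‖ with hd'
  have hd : 0 < d := lt_trans (by positivity) hk
  have h1 : |1 - ‖z k‖| ≤ d := by
    have := abs_norm_sub_norm_le (pt θ) (z k)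
    rwa [pt_norm] at this
  have h2 : 1 + ‖z k‖ ≤ 2 + d := by
    have := (abs_le.1 h1).1
    linarith
  have h3 : |1 - ‖z k‖ ^ 2| = |1 - ‖z k‖| * (1 + ‖z k‖) := by
    rw [show 1 - ‖z k‖ ^ 2 = (1 - ‖z k‖) * (1 + ‖z k‖) by ring, abs_mul,
      abs_of_nonneg (by positivity : 0 ≤ 1 + ‖z k‖)]
  have h4 : |1 - ‖z k‖ ^ 2| ≤ d * (2 + d) := by
    rw [h3]; exact mul_le_mul h1 h2 (by positivity) hd.le
  have h5 : h / d ≤ 1 / B := by
    rw [div_le_div_iff₀ hd hB]; linarith
  calc h * |1 - ‖z k‖ ^ 2| / d ^ 2 ≤ h * (d * (2 + d)) / d ^ 2 := by gcongr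
    _ = h + 2 * (h / d) := by field_simp; ring
    _ ≤ 1 + 2 * (1 / B) := by linarith
    _ = 1 + 2 / B := by ring

lemma qH_le (hB : 0 < B) (hh : 0 < h) (θ : ℝ) : h * qH z B h θ ≤ 1 / B * D := by
  unfold qH
  have h1 : |(∑ k ∈ farS z B h θ, pt θ / (pt θ - z k)).im| ≤
      ∑ k ∈ farS z B h θ, 1 / ‖pt θ - z k‖ := by
    refine (Complex.abs_im_le_norm _).trans ((norm_sum_le _ _).trans (le_of_eq ?_))
    refine Finset.sum_congr rfl fun k _ => ?_
    rw [norm_div, pt_norm]
  refine (mul_le_mul_of_nonneg_left h1 hh.le).trans ?_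
  rw [Finset.mul_sum]
  refine sum_far_le z _ _ (by positivity) θ fun k hk => ?_
  have hd : 0 < ‖pt θ - z k‖ := lt_trans (by positivity) hk
  rw [mul_one_div, div_le_div_iff₀ hd hB]
  linarith

lemma cheb (n : ℕ) (f : ℕ → ℝ) (hf : ∀ j, 0 ≤ f j) (S t : ℝ) (ht : 0 < t)
    (hS : ∑ j ∈ Finset.range n, f j ≤ S) :
    (((Finset.range n).filter (fun j : ℕ => t < f j)).card : ℝ) ≤ S / t := by
  rw [le_div_iff₀ ht]
  calc (((Finset.range n).filter (fun j : ℕ => t < f j)).card : ℝ) * t
      = ∑ j ∈ (Finset.range n).filter (fun j : ℕ => t < f j), t := by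
        rw [Finset.sum_const, nsmul_eq_mul]
    _ ≤ ∑ j ∈ (Finset.range n).filter (fun j : ℕ => t < f j), f j :=
        Finset.sum_le_sum fun j hj => (Finset.mem_filter.1 hj).2.le
    _ ≤ ∑ j ∈ Finset.range n, f j :=
        Finset.sum_le_sum_of_subset_of_nonneg (Finset.filter_subset _ _) fun j _ _ => hf j
    _ ≤ S := hS

end WeakAux

open TrigAux WeakAux

theorem s_WEAK (h1 : S_LOC1) (h2 : S_SUMS) (h3 : S_HWK) : S_WEAK := by
  intro c0 c1 c2 hc0 hc1 hc2
  obtain ⟨B, C, hB, hC, hloc⟩ := h1 (c1 * (1 + c0)) (by positivity)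
  obtain ⟨AS, hAS, hsum⟩ := h2 B (2 * π / (1 + c0)) c2 hB (by positivity) hc2
  obtain ⟨AH, hAH, hhw⟩ := h3 B (2 * π / (1 + c0)) c2 (2 * c0) hB (by positivity) hc2 (by positivity)
  set K0 : ℝ := c0 * c1 + C * (1 + 2 * c0) with hK0
  have hK0' : 0 < K0 := by positivity
  set A1 : ℝ := K0 + C * (2 + 1 / B ^ 2 + 3 / B) * c0 with hA1
  have hA1' : 0 ≤ A1 := by positivity
  refine ⟨A1 + 2 * K0 + 4 * C * AS * c0 + 4 * C * AH * (c0 + 1), by positivity, ?_⟩
  intro M n η hn hη hηc hMη hnη hnη2 c hc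
  have hnR : (1 : ℝ) ≤ n := by exact_mod_cast hn
  have hnpos : (0 : ℝ) < n := by linarith
  set h : ℝ := η / (1 + c0) with hh
  have hhpos : 0 < h := by positivity
  have hhη : h ≤ η := by
    rw [hh, div_le_iff₀ (by positivity)]; nlinarith
  have hh1 : h ≤ 1 := by
    rw [hh, div_le_iff₀ (by positivity)]; linarith
  have hnh1 : 2 * π / (1 + c0) ≤ n * h := by
    rw [hh, ← mul_div_assoc]; gcongr
  have hnh2 : n * h ≤ c2 := (mul_le_mul_of_nonneg_left hhη hnpos.le).trans hnη2
  obtain ⟨D, z, hD, hz⟩ := exists_roots (tpoly M c)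
  have hP0 : tpoly M c ≠ 0 := tpoly_ne M c hc
  have hDM : (D : ℝ) ≤ 2 * M := by
    have := hD.trans (tpoly_deg M c)
    exact_mod_cast this
  have hD0 : (0 : ℝ) ≤ D := Nat.cast_nonneg _
  have hhD : h * D ≤ 2 * c0 := by
    calc h * D ≤ η * (2 * M) := mul_le_mul hhη hDM hD0 hη.le
      _ = 2 * (M * η) := by ring
      _ ≤ 2 * c0 := by linarith
  have hDn : (D : ℝ) ≤ c0 * n := by
    have e1 : (2 * M : ℝ) * η ≤ 2 * c0 := by linarith
    have e2 : (2 : ℝ) * c0 ≤ c0 * (n * η) := by
      have : (2 : ℝ) ≤ n * η := by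
        have := Real.pi_gt_three
        linarith
      nlinarith
    have e3 : (2 * M : ℝ) * η ≤ (c0 * n) * η := by linarith
    exact hDM.trans (le_of_mul_le_mul_right e3 hη)
  set ang : ℕ → ℝ := fun j => 2 * π * j / n with hang
  set T : ℕ → ℝ := fun j => qN z B h (ang j) + qQ z B h (ang j) + qW z B h (ang j) with hT
  have hT0 : ∀ j, 0 ≤ T j := fun j =>
    add_nonneg (add_nonneg (qN_nonneg z _) (qQ_nonneg z _)) (qW_nonneg z hhpos _)
  have hH0 : ∀ j, 0 ≤ h * qH z B h (ang j) := fun j => mul_nonneg hhpos.le (qH_nonneg z _)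
  have hTle : ∀ j, T j ≤ (2 + 1 / B ^ 2 + 2 / B) * D := fun j => by
    have a1 := qN_le z (B := B) (h := h) (ang j)
    have a2 := qQ_le z hB hhpos (ang j)
    have a3 := qW_le z hB hhpos hh1 (ang j)
    simp only [hT]
    have : (2 + 1 / B ^ 2 + 2 / B) * (D : ℝ) = D + 1 / B ^ 2 * D + (1 + 2 / B) * D := by ring
    linarith
  set J : ℕ → ℝ := fun j => c0 * c1 + C * (1 + T j + h * qH z B h (ang j) + h * D) with hJ
  refine ⟨J, ?_, ?_, ?_⟩
  · intro j
    have hhD0 : 0 ≤ h * D := by positivity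
    refine ⟨?_, ?_⟩
    · have := hT0 j
      have := hH0 j
      simp only [hJ]; positivity
    · have b1 := hTle j
      have b2 := qH_le z hB hhpos (ang j)
      have b3 : T j + h * qH z B h (ang j) ≤ (2 + 1 / B ^ 2 + 3 / B) * (c0 * n) := by
        calc _ ≤ (2 + 1 / B ^ 2 + 2 / B) * D + 1 / B * D := add_le_add b1 b2
          _ = (2 + 1 / B ^ 2 + 3 / B) * D := by ring
          _ ≤ _ := by gcongr
      have b4 : J j ≤ K0 + C * ((2 + 1 / B ^ 2 + 3 / B) * (c0 * n)) := by
        simp only [hJ, hK0]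
        have : C * (1 + T j + h * qH z B h (ang j) + h * D) ≤
            C * (1 + (2 + 1 / B ^ 2 + 3 / B) * (c0 * n) + 2 * c0) := by
          apply mul_le_mul_of_nonneg_left _ hC.le
          linarith
        linarith
      have b5 : K0 + C * ((2 + 1 / B ^ 2 + 3 / B) * (c0 * n)) ≤ A1 * n := by
        rw [hA1]
        have : K0 * 1 ≤ K0 * n := mul_le_mul_of_nonneg_left hnR hK0'.le
        have e : (K0 + C * (2 + 1 / B ^ 2 + 3 / B) * c0) * (n : ℝ) =
          K0 * n + C * ((2 + 1 / B ^ 2 + 3 / B) * (c0 * n)) := by ring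
        rw [e]; linarith
      have b6 : A1 * n ≤ (A1 + 2 * K0 + 4 * C * AS * c0 + 4 * C * AH * (c0 + 1)) * n := by
        apply mul_le_mul_of_nonneg_right _ hnpos.le
        have : 0 ≤ 2 * K0 + 4 * C * AS * c0 + 4 * C * AH * (c0 + 1) := by positivity
        linarith
      linarith
  · intro j _ w hw
    have hw' : ‖w - ((ang j : ℝ) : ℂ)‖ ≤ c1 * (1 + c0) * h := by
      have e : c1 * (1 + c0) * h = c1 * η := by rw [hh]; field_simp
      rw [e]; exact hw
    obtain ⟨θ, hθ, hprod⟩ := hloc D z h (ang j) hhpos hh1 w hw'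
    refine ⟨θ, hθ.trans hhη, ?_⟩
    have e0 : ‖esum 1 M c (θ : ℂ)‖ = ‖(tpoly M c).leadingCoeff‖ * ∏ k, ‖pt θ - z k‖ := by
      rw [esum_eq, norm_mul, hz, Complex.norm_exp]
      have e1 : (-(Complex.I * (M : ℂ) * (θ : ℂ))).re = 0 := by
        simp [Complex.mul_re, Complex.mul_im]
      rw [e1, Real.exp_zero, one_mul]
      rfl
    have hU : ‖esum 1 M c w‖ ≤ Real.exp (c0 * c1) *
        (‖(tpoly M c).leadingCoeff‖ * ∏ k, ‖Complex.exp (Complex.I * w) - z k‖) := by
      rw [esum_eq, norm_mul, hz]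
      apply mul_le_mul_of_nonneg_right _ (by positivity)
      rw [Complex.norm_exp]
      apply Real.exp_le_exp.mpr
      have e1 : (-(Complex.I * (M : ℂ) * w)).re = M * w.im := by
        simp [Complex.mul_re, Complex.mul_im]
      rw [e1]
      have e2 : w.im = (w - ((2 * π * j / n : ℝ) : ℂ)).im := by
        rw [Complex.sub_im, Complex.ofReal_im, sub_zero]
      have e3 : w.im ≤ c1 * η := by
        rw [e2]
        exact (le_abs_self _).trans ((Complex.abs_im_le_norm _).trans hw)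
      have := mul_le_mul_of_nonneg_left e3 (Nat.cast_nonneg (α := ℝ) M)
      nlinarith
    rw [e0]
    calc ‖esum 1 M c w‖ ≤ _ := hU
      _ ≤ Real.exp (c0 * c1) * (‖(tpoly M c).leadingCoeff‖ *
          (Real.exp (C * (1 + qN z B h (ang j) + qQ z B h (ang j) + qW z B h (ang j) +
            h * qH z B h (ang j) + h * D)) * ∏ k, ‖pt θ - z k‖)) := by gcongr
      _ = (Real.exp (c0 * c1) * Real.exp (C * (1 + qN z B h (ang j) + qQ z B h (ang j) +
            qW z B h (ang j) + h * qH z B h (ang j) + h * D))) *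
            (‖(tpoly M c).leadingCoeff‖ * ∏ k, ‖pt θ - z k‖) := by ring
      _ = _ := by
        rw [← Real.exp_add]
        congr 2
        simp only [hJ, hT]; ring
  · intro t ht
    by_cases htK : t ≤ 2 * K0
    · have a1 : (((Finset.range n).filter (fun j : ℕ => t < J j)).card : ℝ) ≤ n := by
        have := Finset.card_filter_le (Finset.range n) (fun j : ℕ => t < J j)
        rw [Finset.card_range] at this
        exact_mod_cast this
      refine a1.trans ?_
      rw [le_div_iff₀ ht]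
      have a2 : (n : ℝ) * t ≤ n * (2 * K0) := mul_le_mul_of_nonneg_left htK hnpos.le
      have a3 : 2 * K0 * (n : ℝ) ≤ (A1 + 2 * K0 + 4 * C * AS * c0 + 4 * C * AH * (c0 + 1)) * n := by
        apply mul_le_mul_of_nonneg_right _ hnpos.le
        have : 0 ≤ A1 + 4 * C * AS * c0 + 4 * C * AH * (c0 + 1) := by positivity
        linarith
      linarith
    · push Not at htK
      have hs := hsum D n z h hn hhpos hh1 hnh1 hnh2
      have c1' := cheb n T hT0 (AS * D) (t / (4 * C)) (by positivity) hs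
      have c2' := hhw D n z h hn hhpos hh1 hnh1 hnh2 hhD (t / (4 * C)) (by positivity)
      have hsub : (Finset.range n).filter (fun j : ℕ => t < J j) ⊆
          (Finset.range n).filter (fun j : ℕ => t / (4 * C) < T j) ∪
          (Finset.range n).filter (fun j : ℕ => t / (4 * C) < h * qH z B h (2 * π * j / n)) := by
        intro j hj
        rw [Finset.mem_filter] at hj
        rw [Finset.mem_union, Finset.mem_filter, Finset.mem_filter]
        by_contra hcon
        push Not at hcon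
        have d1 := hcon.1 hj.1
        have d2 := hcon.2 hj.1
        rw [le_div_iff₀ (by positivity)] at d1 d2
        have d3 := hj.2
        simp only [hJ] at d3
        have d4 : C * (h * D) ≤ C * (2 * c0) := mul_le_mul_of_nonneg_left hhD hC.le
        have d5 : h * qH z B h (ang j) * (4 * C) ≤ t := d2
        have d6 : C * (1 + T j + h * qH z B h (ang j) + h * D) =
          C + T j * (4 * C) / 4 + h * qH z B h (ang j) * (4 * C) / 4 + C * (h * D) := by ring
        have d7 : C * (1 + 2 * c0) = C + C * (2 * c0) := by ring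
        rw [d6] at d3
        rw [d7] at hK0
        linarith
      have hcard : (((Finset.range n).filter (fun j : ℕ => t < J j)).card : ℝ) ≤
          AS * D / (t / (4 * C)) + AH * (D + n) / (t / (4 * C)) := by
        have e1 := (Finset.card_le_card hsub).trans (Finset.card_union_le _ _)
        have e2 : (((Finset.range n).filter (fun j : ℕ => t < J j)).card : ℝ) ≤
          ((Finset.range n).filter (fun j : ℕ => t / (4 * C) < T j)).card +
          ((Finset.range n).filter
            (fun j : ℕ => t / (4 * C) < h * qH z B h (2 * π * j / n))).card := by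
          exact_mod_cast e1
        linarith
      refine hcard.trans ?_
      rw [← add_div, div_div_eq_mul_div]
      apply div_le_div_of_nonneg_right _ ht.le
      have f1 : AS * (D : ℝ) ≤ AS * (c0 * n) := mul_le_mul_of_nonneg_left hDn hAS
      have f2 : AH * ((D : ℝ) + n) ≤ AH * (c0 * n + n) :=
        mul_le_mul_of_nonneg_left (by linarith) hAH
      have f3 : (AS * (D : ℝ) + AH * (D + n)) * (4 * C) ≤
          (AS * (c0 * n) + AH * (c0 * n + n)) * (4 * C) :=
        mul_le_mul_of_nonneg_right (by linarith) (by positivity)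
      have f4 : 0 ≤ (A1 + 2 * K0) * n := by positivity
      have f5 : (A1 + 2 * K0 + 4 * C * AS * c0 + 4 * C * AH * (c0 + 1)) * (n : ℝ) =
        (A1 + 2 * K0) * n + (AS * (c0 * n) + AH * (c0 * n + n)) * (4 * C) := by ring
      rw [f5]; linarith

end Pool.Agent.R267.DI

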